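import Pool.Agent.Lib.MP_815ef6_nt.Sol

-- part Pool.Agent.Lib.MP_815ef6_nt.Two
section

/-! The tight case of the inequality, and the splitting of systems of rank two. -/

namespace Pool.Agent.Lib.MP_815ef6_nt
open Finset Matrix Polynomial Filter

noncomputable section
variable {n : ℕ}

section Tight
variable {ι : Type} [Fintype ι] {pt : ι → ℂ} {A : Matrix (Fin n) (Fin n) (RatFunc ℂ)}

theorem cw_tight (hpt : Function.Injective pt) (hD : DormI A)
    (hA : ∀ i j, A i j ∈ OS (Om univ pt))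
    (g : ∀ x, Gauge (place (some (pt x))) A) (h : Gauge (place none) A)
    {lam : ι → Fin n → ℚ} {lam' : Fin n → ℚ}
    (hc : ∀ x, (g x).Res.charpoly = ∏ j, (X - C (lam x j : ℂ)))
    (hc' : h.Res.charpoly = ∏ j, (X - C (lam' j : ℂ))) {N : ℕ} (hN : N ≠ 0) {k : ℤ}
    (hk : IsCoprime k N) (hl : ∀ x j, IsI (N * lam x j)) (hl' : ∀ j, IsI (N * lam' j))
    {β : ι → Fin n → ℚ} {β' : Fin n → ℚ} (hβ : ∀ x j, IsI (β x j - k * lam x j))
    (hβ' : ∀ j, IsI (β' j - k * lam' j)) {s : ι → ℝ} {s' : ℝ} (hs : ∀ x j, s x ≤ β x j)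
    (hs' : ∀ j, s' ≤ β' j) (hσ : 0 ≤ s' + ∑ x, s x)
    (hlt : ∑ j, (β' j : ℝ) + ∑ x, ∑ j, (β x j : ℝ) < n) :
    s' + ∑ x, s x = 0 ∧ (∀ x, ∃ j, s x = β x j) ∧ ∃ j, s' = β' j := by
  classical
  have hn : Nonempty (Fin n) := by
    cases n with
    | zero => simp at hlt
    | succ n => infer_instance
  choose j₀ hj₀ using fun x => Finite.exists_min (β x)
  obtain ⟨j₁, hj₁⟩ := Finite.exists_min β'
  have h1 : ¬0 < (β' j₁ : ℝ) + ∑ x, (β x (j₀ x) : ℝ) := fun h0 =>
    (cw_pos hpt hD hA g h hc hc' hN hk hl hl' hβ hβ' (s := fun x => β x (j₀ x))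
      (fun x j => by exact_mod_cast hj₀ x j) (fun j => by exact_mod_cast hj₁ j) h0).not_gt hlt
  have h2 : ∑ x, s x ≤ ∑ x, (β x (j₀ x) : ℝ) := sum_le_sum fun x _ => hs x _
  have h3 := hs' j₁
  refine ⟨by linarith, fun x => ⟨j₀ x, ?_⟩, j₁, by linarith⟩
  exact (sum_eq_sum_iff_of_le fun x _ => hs x (j₀ x)).mp (by linarith) x (mem_univ x)

end Tight

section Local
variable {k K : Type*} [Field k] [Field K] [Algebra k K] {d : Derivation k K K}

lemma Place.logder (P : Place d) {f : K} (hf : f ≠ 0) {a b : ℕ} (h1 : P.t ^ a * f ∈ P.O)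
    (h2 : P.t ^ b * f⁻¹ ∈ P.O) :
    ∃ m : ℤ, P.w * (d f * f⁻¹) ∈ P.O ∧ P.ev (P.w * (d f * f⁻¹)) = m := by
  classical
  obtain ⟨m, hm, hmin⟩ := Int.exists_least_of_bdd (P := fun z => P.t ^ z * f ∈ P.O)
    ⟨-b, fun z hz => by
      by_contra hlt
      have h3 := P.O.mul_mem hz h2
      rw [mul_mul_mul_comm, mul_inv_cancel₀ hf, ← zpow_natCast, ← zpow_add₀ P.t_ne] at h3
      have h4 := P.mem_mono (b := -1) (by omega) h3
      have h5 := P.ev_mul _ P.t_mem _ h4
      rw [mul_one, _root_.zpow_neg_one, mul_inv_cancel₀ P.t_ne, P.ev_one, P.ev_t, zero_mul] at h5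
      exact one_ne_zero h5⟩ ⟨a, by simpa using h1⟩
  have h0 : P.ev (P.t ^ m * f) ≠ 0 := fun h => by
    have := P.div_mem _ hm h
    rw [← mul_assoc, ← _root_.zpow_neg_one, ← zpow_add₀ P.t_ne] at this
    have := hmin _ this
    omega
  have h3 : P.w * (d f * f⁻¹) =
      P.w * d (P.t ^ m * f) * (P.t ^ m * f)⁻¹ - algebraMap k K (m : k) := by
    have h4 := P.w_zpow m
    have h5 := zpow_ne_zero m P.t_ne
    rw [Derivation.leibniz, smul_eq_mul, smul_eq_mul, map_intCast, mul_add, mul_left_comm _ f, h4]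
    field_simp
    ring
  have h6 := P.inv_mem _ hm h0
  refine ⟨-m, ?_, ?_⟩
  · rw [h3]
    exact P.O.sub_mem (P.O.mul_mem (P.der_mem _ hm) h6) (P.O.algebraMap_mem _)
  · rw [h3, P.ev_sub (P.O.mul_mem (P.der_mem _ hm) h6) (P.O.algebraMap_mem _),
      P.ev_mul _ (P.der_mem _ hm) _ h6, P.ev_der _ hm, P.ev_const]
    simp

lemma Gauge.trace_eq {P : Place d} {A : Matrix (Fin 2) (Fin 2) K} (g : Gauge P A) :
    g.G.det ≠ 0 ∧ P.w * A.trace = P.w * (g.H * A * g.G - g.H * g.G.map d) 0 0 +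
      P.w * (g.H * A * g.G - g.H * g.G.map d) 1 1 + P.w * (d g.G.det * g.G.det⁻¹) := by
  have h0 : g.G.det ≠ 0 := left_ne_zero_of_mul_eq_one (by rw [← det_mul, g.hGH, det_one])
  refine ⟨h0, ?_⟩
  have h1 : (g.H * A * g.G).trace = A.trace := by
    rw [trace_mul_cycle, g.hGH, one_mul]
  have h2 : g.G.adjugate = g.G.det • g.H := by
    rw [← mul_one g.G.adjugate, ← g.hGH, ← mul_assoc, adjugate_mul, smul_mul_assoc, one_mul]
  have h3 : (g.G.adjugate * g.G.map d).trace = d g.G.det := by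
    rw [adjugate_fin_two, det_fin_two, trace_fin_two]
    simp [mul_apply, Fin.sum_univ_two]
    ring
  rw [h2, smul_mul_assoc, trace_smul, smul_eq_mul] at h3
  rw [← mul_add, ← mul_add, ← trace_fin_two, trace_sub, h1, ← h3]
  field_simp
  ring

/-- The gauge of the dual system. -/
def Gauge.dual {P : Place d} {A : Matrix (Fin n) (Fin n) K} (g : Gauge P A) : Gauge P (-Aᵀ) :=
  have hHG : g.H * g.G = 1 := mul_eq_one_comm.mp g.hGH
  have h : g.Gᵀ * -Aᵀ * g.Hᵀ - g.Gᵀ * g.Hᵀ.map d = -(g.H * A * g.G - g.H * g.G.map d)ᵀ := by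
    have h1 : g.H.map d * g.G + g.H * g.G.map d = 0 := by
      ext i j
      have := congrArg d (congrFun (congrFun hHG i) j)
      rw [mul_apply, map_sum, one_apply, apply_ite d, d.map_one_eq_zero, map_zero, ite_self] at this
      rw [Matrix.add_apply, mul_apply, mul_apply, ← sum_add_distrib, Matrix.zero_apply, ← this]
      exact sum_congr rfl fun l _ => by simp [mul_comm (g.G l j), add_comm]
    rw [transpose_map, ← transpose_mul, eq_neg_of_add_eq_zero_left h1]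
    simp only [transpose_sub, transpose_mul, transpose_neg, Matrix.mul_neg, Matrix.neg_mul,
      Matrix.mul_assoc]
    abel
  { G := g.Hᵀ
    H := g.Gᵀ
    hGH := by rw [← transpose_mul, g.hGH, transpose_one]
    Res := -g.Resᵀ
    mem := fun i j => by
      rw [h, Matrix.neg_apply, transpose_apply, mul_neg]
      exact P.O.neg_mem (g.mem j i)
    ev_eq := fun i j => by
      rw [h, Matrix.neg_apply, transpose_apply, mul_neg, P.ev_neg (g.mem j i), g.ev_eq]
      rfl }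

lemma trace_det_of {M : Matrix (Fin 2) (Fin 2) k} {a : Fin 2 → k}
    (h : M.charpoly = ∏ j, (X - C (a j))) : M.trace = a 0 + a 1 ∧ M.det = a 0 * a 1 := by
  rw [charpoly_fin_two, Fin.prod_univ_two] at h
  have h0 := congrArg (eval 0) h
  have h1 := congrArg (eval 1) h
  simp only [eval_add, eval_sub, eval_mul, eval_pow, eval_X, eval_C] at h0 h1
  exact ⟨by linear_combination h0 - h1, by linear_combination h0⟩

lemma charpoly_dual {M : Matrix (Fin 2) (Fin 2) k} {a : Fin 2 → k}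
    (h : M.charpoly = ∏ j, (X - C (a j))) : (-Mᵀ).charpoly = ∏ j, (X - C (-a j)) := by
  obtain ⟨h1, h2⟩ := trace_det_of h
  rw [charpoly_fin_two, Fin.prod_univ_two, trace_neg, trace_transpose, det_neg, det_transpose, h1,
    h2]
  simp
  ring

end Local

section RatF
variable {F : Type*} [Field F] {ι : Type*} [Fintype ι] {pt : ι → F}

lemma place_logder (x : Option F) {f : RatFunc F} (hf : f ≠ 0) :
    ∃ m : ℤ, Val x (wt x * (rder f * f⁻¹)) m := by
  obtain ⟨a, ha⟩ := exists_pow_mem x f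
  obtain ⟨b, hb⟩ := exists_pow_mem x f⁻¹
  obtain ⟨m, h1, h2⟩ := (place x).logder hf ha hb
  exact ⟨m, h2 ▸ val_ev h1⟩

lemma Val.neg {x : Option F} {f : RatFunc F} {a : F} (h : Val x f a) : Val x (-f) (-a) := by
  simpa using (Val.const x (-1)).mul h

lemma Val.sub {x : Option F} {f g : RatFunc F} {a b : F} (h : Val x f a) (h' : Val x g b) :
    Val x (f - g) (a - b) := by
  rw [sub_eq_add_neg, sub_eq_add_neg]; exact h.add h'.neg

lemma Val.sum {x : Option F} {κ : Type*} (I : Finset κ) {f : κ → RatFunc F} {a : κ → F}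
    (h : ∀ i ∈ I, Val x (f i) (a i)) : Val x (∑ i ∈ I, f i) (∑ i ∈ I, a i) := by
  classical
  induction I using Finset.induction_on with
  | empty => simpa using Val.const x 0
  | insert y I hy ih =>
    rw [sum_insert hy, sum_insert hy]
    exact (h y (mem_insert_self _ _)).add (ih fun i hi => h i (mem_insert_of_mem hi))

lemma val_inv_tt {z c : F} (h : z ≠ c) : Val (some z) (tt (some c))⁻¹ (z - c)⁻¹ :=
  ⟨1, X - C c, by simpa [sub_eq_zero] using h, by
    rw [← tt_some, inv_mul_cancel₀ (tt_ne _), map_one], by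
    rw [eval_one, eval_sub, eval_X, eval_C, inv_mul_cancel₀ (sub_ne_zero.mpr h)]⟩

lemma val_trace {x : Option F} {A : Matrix (Fin 2) (Fin 2) (RatFunc F)} (g : Gauge (place x) A) :
    ∃ m : ℤ, Val x (wt x * A.trace) (g.Res.trace + m) := by
  obtain ⟨h0, h1⟩ := g.trace_eq
  obtain ⟨m, hm⟩ := place_logder x h0
  refine ⟨m, ?_⟩
  rw [← place_w, h1, trace_fin_two, ← g.ev_eq, ← g.ev_eq]
  exact ((val_ev (g.mem 0 0)).add (val_ev (g.mem 1 1))).add hm

lemma val_ell (hpt : Function.Injective pt) (ν : ι → F) (x : ι) :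
    Val (some (pt x)) (wt (some (pt x)) * ell univ pt ν) (ν x) := by
  classical
  have h : Val (some (pt x)) (∑ y, wt (some (pt x)) * (am (C (ν y)) * (tt (some (pt y)))⁻¹))
      (∑ y, if y = x then ν x else 0) := by
    refine Val.sum _ fun y _ => ?_
    have h2 : wt (some (pt x)) = tt (some (pt x)) := rfl
    split_ifs with hy
    · rw [hy, h2, mul_left_comm, mul_inv_cancel₀ (tt_ne _), mul_one]
      exact Val.const _ _
    · simpa [h2] using (Val.tt_zero (some (pt x))).mul ((Val.const _ (ν y)).mul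
        (val_inv_tt fun h => hy (hpt h).symm))
  rw [ell, mul_sum]
  simpa using h

lemma val_ell_inf (ν : ι → F) : Val none (wt none * ell univ pt ν) (-∑ x, ν x) := by
  rw [ell, mul_sum, ← sum_neg_distrib]
  refine Val.sum _ fun y _ => ⟨-(C (ν y) * X), X - C (pt y), monic_X_sub_C _, ?_, ?_, by simp⟩
  · rw [natDegree_neg, natDegree_X_sub_C]
    exact (natDegree_C_mul_le _ _).trans natDegree_X_le
  · rw [← tt_some, mul_assoc, inv_mul_cancel_right₀ (tt_ne _), map_neg, map_mul, am_X, wt]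
    ring

lemma eq_ell (hpt : Function.Injective pt) {f : RatFunc F} (hf : f ∈ OS (Om univ pt)) {ν : ι → F}
    (h : ∀ x, Val (some (pt x)) (wt (some (pt x)) * f) (ν x)) {c : F}
    (h' : Val none (wt none * f) c) : f = ell univ pt ν := by
  obtain ⟨P, hP⟩ := poly_of_mem (Subalgebra.sub_mem _ hf (ell_mem_OS ν)) fun x _ => by
    have h1 := (h x).sub (val_ell hpt ν x)
    rw [sub_self, ← mul_sub] at h1
    have h2 := h1.div
    rwa [show wt (some (pt x)) = tt (some (pt x)) from rfl, inv_mul_cancel_left₀ (tt_ne _)] at h2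
  have h1 := (h'.sub (val_ell_inf (pt := pt) ν)).neg.mem
  rw [← mul_sub, hP, wt, neg_mul, neg_neg] at h1
  by_contra hne
  have hP0 : P ≠ 0 := by
    rintro rfl
    exact hne (sub_eq_zero.mp (by rw [hP, map_zero]))
  have := deg_of_inf (e := -1) (by rwa [_root_.zpow_neg_one, tt_none, inv_inv]) hP0
  omega

lemma const_of_rder [CharZero F] {f : RatFunc F} (h : rder f = 0) : ∃ c, f = am (C c) := by
  have h1 := rder_mul_of (mul_denom f)
  rw [h, zero_mul, eq_comm, ← map_zero am] at h1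
  have h2 := sub_eq_zero.mp (am_inj h1)
  have h3 : f.denom ∣ derivative f.denom :=
    f.isCoprime_num_denom.symm.dvd_of_dvd_mul_left ⟨derivative f.num, by rw [← h2, mul_comm]⟩
  have h4 : f.denom = 1 := by
    rw [← f.monic_denom.natDegree_eq_zero]
    by_contra h5
    exact h5 (derivative_eq_zero.mp
      (eq_zero_of_dvd_of_natDegree_lt h3 (natDegree_derivative_lt h5)))
  rw [h4, derivative_one, mul_zero, mul_one] at h2
  refine ⟨f.num.coeff 0, ?_⟩
  rw [← eq_C_of_derivative_eq_zero h2, ← mul_denom, h4, map_one, mul_one]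

lemma exists_perp {K : Type*} [Field K] {r v : Fin 2 → K} (hv : v ≠ 0) (h : r ⬝ᵥ v = 0) :
    ∃ γ : K, r = γ • ![-v 1, v 0] := by
  rw [dotProduct, Fin.sum_univ_two] at h
  by_cases h0 : v 0 = 0
  · have h1 : v 1 ≠ 0 := fun h1 => hv (by ext i; fin_cases i <;> simp [h0, h1])
    refine ⟨-r 0 / v 1, ?_⟩
    rw [h0, mul_zero, zero_add, mul_eq_zero, or_iff_left h1] at h
    ext i
    fin_cases i
    · simp; field_simp
    · simp [h0, h]
  · refine ⟨r 1 / v 0, ?_⟩
    ext i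
    fin_cases i
    · simp; field_simp; linear_combination h
    · simp; field_simp

lemma Dop_perp {B : Matrix (Fin 2) (Fin 2) (RatFunc F)} {v : Fin 2 → RatFunc F}
    (hv : Dop (dR F) B v = 0) : Dop (dR F) (-Bᵀ) ![-v 1, v 0] = B.trace • ![-v 1, v 0] := by
  have h0 := congrFun hv 0
  have h1 := congrFun hv 1
  simp only [Dop_apply, mulVec, dotProduct, Fin.sum_univ_two, Pi.zero_apply] at h0 h1
  ext i
  fin_cases i
  · simp only [Dop_apply, mulVec, dotProduct, Fin.sum_univ_two, trace_fin_two]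
    simp only [Fin.zero_eta, Fin.isValue, cons_val_zero, map_neg, Matrix.neg_apply, transpose_apply,
      cons_val_one, Pi.smul_apply, smul_eq_mul]
    linear_combination -h1
  · simp only [Dop_apply, mulVec, dotProduct, Fin.sum_univ_two, trace_fin_two]
    simp only [Fin.mk_one, Fin.isValue, cons_val_zero, Matrix.neg_apply, transpose_apply,
      cons_val_one, Pi.smul_apply, smul_eq_mul]
    linear_combination h0

end RatF

lemma IsI.of_coprime {N : ℕ} {k : ℤ} (hk : IsCoprime k N) {q : ℚ} (h1 : IsI (N * q))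
    (h2 : IsI (k * q)) : IsI q := by
  obtain ⟨u, v, huv⟩ := hk
  obtain ⟨a, ha⟩ := h1
  obtain ⟨b, hb⟩ := h2
  have : (u : ℚ) * k + v * N = 1 := by exact_mod_cast huv
  exact ⟨u * b + v * a, by push_cast; linear_combination -q * this + u * hb + v * ha⟩

lemma IsI.sum {κ : Type*} (I : Finset κ) {f : κ → ℚ} (h : ∀ i, IsI (f i)) : IsI (∑ i ∈ I, f i) := by
  choose z hz using h
  exact ⟨∑ i ∈ I, z i, by simp [hz]⟩

lemma isI_both {l : Fin 2 → ℚ} {μ : ℚ} {j₀ : Fin 2} (h1 : IsI (l j₀ - μ)) {m : ℤ}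
    (h2 : (l 0 : ℂ) + l 1 = 2 * μ + m) (j : Fin 2) : IsI (l j - μ) := by
  obtain ⟨a, ha⟩ := h1
  have h3 : l 0 + l 1 = 2 * μ + m := by exact_mod_cast h2
  fin_cases j₀ <;> fin_cases j
  · exact ⟨a, ha⟩
  · exact ⟨m - a, by simp at ha ⊢; linarith⟩
  · exact ⟨m - a, by simp at ha ⊢; linarith⟩
  · exact ⟨a, ha⟩

lemma eq_of_isI {b s l μ : ℚ} {k : ℤ} (h1 : IsI (b - k * l)) (h2 : IsI (s - k * μ))
    (h3 : IsI (l - μ)) (h4 : s ≤ b) (h5 : b < s + 1) : b = s := by
  obtain ⟨u, hu⟩ := h1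
  obtain ⟨v, hv⟩ := h2
  obtain ⟨w, hw⟩ := h3
  have h6 : b - s = ((u - v + k * w : ℤ) : ℚ) := by push_cast; linear_combination hu - hv + k * hw
  have h7 : (0 : ℚ) ≤ ((u - v + k * w : ℤ) : ℚ) := by linarith
  have h8 : ((u - v + k * w : ℤ) : ℚ) < 1 := by linarith
  have h9 : u - v + k * w = 0 := by
    have : (0 : ℤ) ≤ u - v + k * w := by exact_mod_cast h7
    have : u - v + k * w < 1 := by exact_mod_cast h8
    omega
  rw [h9] at h6
  simpa [sub_eq_zero] using h6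

variable {ι : Type} [Fintype ι] {pt : ι → ℂ} {A : Matrix (Fin 2) (Fin 2) (RatFunc ℂ)}

theorem split_two (hpt : Function.Injective pt) (hD : Dormant A)
    (hA : ∀ i j, A i j ∈ OS (Om univ pt))
    (g : ∀ x, Gauge (place (some (pt x))) A) (h : Gauge (place none) A)
    {lam : ι → Fin 2 → ℚ} {lam' : Fin 2 → ℚ}
    (hc : ∀ x, (g x).Res.charpoly = ∏ j, (X - C (lam x j : ℂ)))
    (hc' : h.Res.charpoly = ∏ j, (X - C (lam' j : ℂ))) {N : ℕ} (hN : N ≠ 0) {k : ℤ}
    (hk : IsCoprime k N) (hl : ∀ x j, IsI (N * lam x j)) (hl' : ∀ j, IsI (N * lam' j))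
    {β : ι → Fin 2 → ℚ} {β' : Fin 2 → ℚ} (hβ : ∀ x j, IsI (β x j - k * lam x j))
    (hβ' : ∀ j, IsI (β' j - k * lam' j)) {s : ι → ℝ} {s' : ℝ} (hs : ∀ x j, s x ≤ β x j)
    (hs' : ∀ j, s' ≤ β' j) (ht : ∀ x j, β x j < s x + 1) (ht' : ∀ j, β' j < s' + 1)
    (hσ : 0 ≤ s' + ∑ x, s x) (hlt : ∑ j, (β' j : ℝ) + ∑ x, ∑ j, (β x j : ℝ) < 2) :
    ∃ (μ τ : ι → ℚ) (v r : Fin 2 → RatFunc ℂ) (c : ℂ), c ≠ 0 ∧ (∀ x, IsI (N * μ x)) ∧
      (∀ x, IsI (N * τ x)) ∧ (∀ j, v j ∈ OS (Om univ pt)) ∧ (∀ j, r j ∈ OS (Om univ pt)) ∧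
      r ⬝ᵥ v = am (C c) ∧ Dop (dR ℂ) (A - ell univ pt (fun x => (μ x : ℂ)) • 1) v = 0 ∧
      Dop (dR ℂ) (-(A - ell univ pt (fun x => (μ x : ℂ)) • 1)ᵀ) r = 0 ∧
      A.trace = ell univ pt fun x => (τ x : ℂ) := by
  obtain ⟨h0, h1, j₁, h2⟩ := cw_tight hpt hD.dormI.1 hA g h hc hc' hN hk hl hl' hβ hβ' hs hs' hσ
    (by exact_mod_cast hlt)
  choose j₀ h1 using h1
  obtain rfl : s = fun x => (β x (j₀ x) : ℝ) := funext h1
  subst h2
  beta_reduce at hs ht hσ h0
  choose m hm using fun x => val_trace (g x)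
  obtain ⟨m', hm'⟩ := val_trace h
  simp only [fun x => (trace_det_of (hc x)).1] at hm
  rw [(trace_det_of hc').1] at hm'
  obtain ⟨v, hv, hv'⟩ := cw_sol hpt hD.dormI.1 hA g h hc hc' hN hk hl hl' hβ hβ'
    (μ := fun x => lam x (j₀ x)) (fun x => hl x _) (fun x => hβ x _)
    (fun x j => by exact_mod_cast hs x j) hs' hσ (e := 1) (by simpa using hlt)
  have hdual : ∀ e : ℕ, (e : ℝ) - 1 + ∑ j, (β' j : ℝ) + ∑ x, ∑ j, (β x j : ℝ) < 2 →
      ∃ r : Fin e → Fin 2 → RatFunc ℂ, LinearIndependent ℂ r ∧ ∀ a,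
        Dop (dR ℂ) (-(A - ell univ pt (fun x => (lam x (j₀ x) : ℂ)) • 1)ᵀ) (r a) = 0 ∧
        ∀ j, r a j ∈ OS (Om univ pt) := by
    intro e he
    have hneg : ∀ {q : ℚ}, IsI (N * q) → IsI (N * -q) := fun ⟨z, hz⟩ =>
      ⟨-z, by rw [mul_neg, hz]; simp⟩
    have := cw_sol hpt hD.dormI.2 (fun i j => Subalgebra.neg_mem _ (hA j i)) (fun x => (g x).dual)
      h.dual (lam := fun x j => -lam x j) (lam' := fun j => -lam' j)
      (fun x => by simp only [Rat.cast_neg]; exact charpoly_dual (hc x))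
      (by simp only [Rat.cast_neg]; exact charpoly_dual hc') hN
      (k := -k) hk.neg_left (fun x j => hneg (hl x j)) (fun j => hneg (hl' j)) (β := β) (β' := β')
      (fun x j => by simpa using hβ x j) (fun j => by simpa using hβ' j)
      (μ := fun x => -lam x (j₀ x)) (fun x => hneg (hl x _)) (fun x => by simpa using hβ x _)
      (fun x j => by exact_mod_cast hs x j) hs' hσ (e := e) (by exact_mod_cast he)
    simp only [Rat.cast_neg, ell_neg] at this
    rwa [transpose_sub, transpose_smul, transpose_one, neg_sub', ← neg_smul]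
  have hv0 : v 0 ≠ 0 := hv.ne_zero 0
  have key : ∃ r : Fin 2 → RatFunc ℂ, r ⬝ᵥ v 0 ≠ 0 ∧
      Dop (dR ℂ) (-(A - ell univ pt (fun x => (lam x (j₀ x) : ℂ)) • 1)ᵀ) r = 0 ∧
      ∀ j, r j ∈ OS (Om univ pt) := by
    obtain ⟨r, hr, hr'⟩ := hdual 1 (by simpa using hlt)
    by_contra hcon
    have hall : ∀ r : Fin 2 → RatFunc ℂ,
        Dop (dR ℂ) (-(A - ell univ pt (fun x => (lam x (j₀ x) : ℂ)) • 1)ᵀ) r = 0 →
        (∀ j, r j ∈ OS (Om univ pt)) → ∃ γ : RatFunc ℂ, r = γ • ![-v 0 1, v 0 0] := by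
      intro r h1 h2
      exact exists_perp hv0 (by by_contra h3; exact hcon ⟨r, h3, h1, h2⟩)
    obtain ⟨γ, hγ⟩ := hall _ (hr' 0).1 (hr' 0).2
    have hr0 : r 0 ≠ 0 := hr.ne_zero 0
    have hγ0 : γ ≠ 0 := by rintro rfl; exact hr0 (by rw [hγ, zero_smul])
    have hw0 : ![-v 0 1, v 0 0] ≠ 0 := fun h => hr0 (by rw [hγ, h, smul_zero])
    have h3 := (hr' 0).1
    rw [hγ, Dop_smul, Dop_perp (hv' 0).1, smul_smul, ← add_smul, smul_eq_zero, or_iff_left hw0,
      trace_sub, trace_smul, trace_one, dR_apply] at h3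
    have h4 : ∀ x, wt x * A.trace = wt x * ell univ pt (fun x => (lam x (j₀ x) : ℂ)) +
        wt x * ell univ pt (fun x => (lam x (j₀ x) : ℂ)) - wt x * (rder γ * γ⁻¹) := by
      intro x
      simp only [Fintype.card_fin, Nat.cast_ofNat, smul_eq_mul] at h3
      field_simp
      linear_combination wt x * h3
    have h5 : ∀ x j, IsI (lam x j - lam x (j₀ x)) := fun x => by
      obtain ⟨u, hu⟩ := place_logder (some (pt x)) hγ0
      have h6 := hm x
      rw [h4] at h6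
      have h7 := h6.unique (((val_ell hpt _ x).add (val_ell hpt _ x)).sub hu)
      exact isI_both (j₀ := j₀ x) ⟨0, by simp⟩ (m := -u - m x) (by push_cast; linear_combination h7)
    have h0' : β' j₁ + ∑ x, β x (j₀ x) = 0 := by exact_mod_cast h0
    have h6 : IsI (β' j₁ - k * -∑ x, lam x (j₀ x)) := by
      obtain ⟨z, hz⟩ := IsI.sum univ fun x => hβ x (j₀ x)
      rw [sum_sub_distrib, ← mul_sum] at hz
      exact ⟨-z, by push_cast; linear_combination h0' - hz⟩
    have h7 : ∀ j, IsI (lam' j - -∑ x, lam x (j₀ x)) := by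
      obtain ⟨u, hu⟩ := place_logder (none : Option ℂ) hγ0
      rw [h4] at hm'
      have h7 := hm'.unique (((val_ell_inf _).add (val_ell_inf _)).sub hu)
      refine isI_both (j₀ := j₁) (IsI.of_coprime hk ?_ ?_) (m := -u - m')
        (by push_cast; linear_combination h7)
      · obtain ⟨z, hz⟩ := IsI.sum univ fun x => hl x (j₀ x)
        obtain ⟨y, hy⟩ := hl' j₁
        rw [← mul_sum] at hz
        exact ⟨y + z, by push_cast; linear_combination hz + hy⟩
      · obtain ⟨z, hz⟩ := h6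
        obtain ⟨y, hy⟩ := hβ' j₁
        exact ⟨z - y, by push_cast; linear_combination hz - hy⟩
    have h8 : ∀ x j, β x j = β x (j₀ x) := fun x j => eq_of_isI (hβ x j) (hβ x _) (h5 x j)
      (by exact_mod_cast hs x j) (by exact_mod_cast ht x j)
    have h9 : ∀ j, β' j = β' j₁ := fun j => eq_of_isI (hβ' j) h6 (h7 j)
      (by exact_mod_cast hs' j) (by exact_mod_cast ht' j)
    obtain ⟨ρ, hρ, hρ'⟩ := hdual 2 (by
      simp only [Fin.sum_univ_two, sum_add_distrib]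
      rw [h9 0, h9 1, sum_congr rfl fun x _ => congrArg Rat.cast (h8 x 0),
        sum_congr rfl fun x _ => congrArg Rat.cast (h8 x 1)]
      push_cast
      linarith)
    obtain ⟨a, ha⟩ := hall _ (hρ' 0).1 (hρ' 0).2
    obtain ⟨b, hb⟩ := hall _ (hρ' 1).1 (hρ' 1).2
    have ha0 : a ≠ 0 := by rintro rfl; exact hρ.ne_zero 0 (by rw [ha, zero_smul])
    have h10 : ρ 1 = (b / a) • ρ 0 := by rw [ha, hb, smul_smul, div_mul_cancel₀ _ ha0]
    have h11 := (hρ' 1).1
    rw [h10, Dop_smul, (hρ' 0).1, smul_zero, add_zero, smul_eq_zero,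
      or_iff_left (hρ.ne_zero 0)] at h11
    obtain ⟨c, hc⟩ := const_of_rder h11
    rw [hc, ← algebraMap_eq_am, algebraMap_smul] at h10
    exact (LinearIndependent.pair_iff' (hρ.ne_zero 0)).mp
      (show LinearIndependent ℂ ![ρ 0, ρ 1] by
        have : ![ρ 0, ρ 1] = ρ := by ext1 i; fin_cases i <;> rfl
        rwa [this]) c h10.symm
  obtain ⟨r, hr0, hr1, hr2⟩ := key
  have h3 := der_dot (A - ell univ pt (fun x => (lam x (j₀ x) : ℂ)) • 1) r (v 0)
  rw [hr1, (hv' 0).1, zero_dotProduct, dotProduct_zero, add_zero] at h3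
  obtain ⟨c, hc⟩ := const_of_rder h3
  refine ⟨fun x => lam x (j₀ x), fun x => lam x 0 + lam x 1 + m x, v 0, r, c, ?_, fun x => hl x _,
    fun x => ?_, (hv' 0).2, hr2, hc, (hv' 0).1, hr1, ?_⟩
  · rintro rfl
    exact hr0 (by rw [hc]; simp)
  · obtain ⟨a, ha⟩ := hl x 0
    obtain ⟨b, hb⟩ := hl x 1
    exact ⟨a + b + N * m x, by push_cast; linear_combination ha + hb⟩
  · refine eq_ell hpt ?_ (fun x => ?_) hm'
    · rw [trace_fin_two]
      exact Subalgebra.add_mem _ (hA 0 0) (hA 1 1)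
    · simpa using hm x

end
end Pool.Agent.Lib.MP_815ef6_nt
end

-- part Pool.Agent.Lib.MP_815ef6_nt.Int
section

/-! Integral algebras generated by radical functions. -/

namespace Pool.Agent.Lib.MP_815ef6_nt
open Finset Matrix Polynomial Filter Topology

noncomputable section
variable {U : Set ℂ} {B : Subring (U → ℂ)}

/-- Twisted divided-power sequences: `c_k' + l c_k = (k+1) c_{k+1}` with all `c_k` in `B`. -/
def Tw (B : Subring (U → ℂ)) (l : ℂ → ℂ) (c : ℕ → ℂ → ℂ) : Prop :=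
  (∀ k, (fun z : U => c k z) ∈ B) ∧
    ∀ (k : ℕ), ∀ z ∈ U, HasDerivAt (c k) ((k + 1) * c (k + 1) z - l z * c k z) z

lemma Tw.congr {l l' : ℂ → ℂ} {c : ℕ → ℂ → ℂ} (h : Tw B l c) (hl : ∀ z ∈ U, l z = l' z) :
    Tw B l' c := ⟨h.1, fun k z hz => hl z hz ▸ h.2 k z hz⟩

lemma Tw.add {l : ℂ → ℂ} {a b : ℕ → ℂ → ℂ} (ha : Tw B l a) (hb : Tw B l b) :
    Tw B l fun k z => a k z + b k z :=
  ⟨fun k => B.add_mem (ha.1 k) (hb.1 k), fun k z hz =>
    ((ha.2 k z hz).add (hb.2 k z hz)).congr_deriv (by ring)⟩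

lemma Tw.neg {l : ℂ → ℂ} {a : ℕ → ℂ → ℂ} (ha : Tw B l a) : Tw B l fun k z => -a k z :=
  ⟨fun k => B.neg_mem (ha.1 k), fun k z hz => (ha.2 k z hz).neg.congr_deriv (by ring)⟩

lemma Tw.mul {l l' : ℂ → ℂ} {a b : ℕ → ℂ → ℂ} (ha : Tw B l a) (hb : Tw B l' b) :
    Tw B (fun z => l z + l' z) fun k z => ∑ x ∈ antidiagonal k, a x.1 z * b x.2 z := by
  refine ⟨fun k => ?_, fun k z hz => ?_⟩
  · have := B.sum_mem (t := antidiagonal k) fun x _ => B.mul_mem (ha.1 x.1) (hb.1 x.2)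
    rwa [Finset.sum_fn] at this
  · refine (HasDerivAt.fun_sum fun x _ => (ha.2 x.1 z hz).mul (hb.2 x.2 z hz)).congr_deriv ?_
    have h1 : ((k : ℂ) + 1) * ∑ x ∈ antidiagonal (k + 1), a x.1 z * b x.2 z =
        ∑ x ∈ antidiagonal (k + 1), (x.1 : ℂ) * a x.1 z * b x.2 z +
          ∑ x ∈ antidiagonal (k + 1), a x.1 z * ((x.2 : ℂ) * b x.2 z) := by
      rw [mul_sum, ← sum_add_distrib]
      refine sum_congr rfl fun x hx => ?_
      have : (x.1 : ℂ) + x.2 = k + 1 := by exact_mod_cast mem_antidiagonal.mp hx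
      rw [← this]; ring
    rw [h1, Nat.sum_antidiagonal_succ, Nat.sum_antidiagonal_succ', mul_sum]
    simp only [Nat.cast_zero, zero_mul, mul_zero, zero_add, ← sum_add_distrib, ← sum_sub_distrib]
    exact sum_congr rfl fun x _ => by push_cast; ring

lemma tw_single {l f : ℂ → ℂ} (hf : (fun z : U => f z) ∈ B)
    (h : ∀ z ∈ U, HasDerivAt f (l z * f z) z) :
    Tw B (fun z => -l z) fun k => if k = 0 then f else 0 := by
  refine ⟨fun k => ?_, fun k z hz => ?_⟩
  · beta_reduce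
    split_ifs
    exacts [hf, B.zero_mem]
  · rcases eq_or_ne k 0 with rfl | hk
    · simpa using h z hz
    · simp [hk]

/-- The function has all its divided derivatives in `B`. -/
def Good (B : Subring (U → ℂ)) (g : U → ℂ) : Prop :=
  ∃ c, Tw B (fun _ => 0) c ∧ (fun z : U => c 0 z) = g

lemma good_const {a : ℂ} (h : (fun _ : U => a) ∈ B) : Good B fun _ => a :=
  ⟨_, (tw_single (l := fun _ => 0) (f := fun _ => a) h fun z _ => by
    simpa using hasDerivAt_const z a).congr (by simp), by simp⟩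

lemma good_id (h : (fun z : U => (z : ℂ)) ∈ B) : Good B fun z => z := by
  refine ⟨fun k => if k = 0 then id else if k = 1 then fun _ => 1 else 0, ⟨fun k => ?_, fun k z _ => ?_⟩,
    rfl⟩
  · beta_reduce
    split_ifs
    exacts [h, B.one_mem, B.zero_mem]
  · rcases k with _ | _ | k
    · simpa using hasDerivAt_id z
    · simpa using hasDerivAt_const z (1 : ℂ)
    · simp

lemma good_closure {T : Set (U → ℂ)} (h : ∀ g ∈ T, Good B g) {g : U → ℂ}
    (hg : g ∈ Subring.closure T) : Good B g := by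
  induction hg using Subring.closure_induction with
  | mem x hx => exact h x hx
  | zero => exact good_const B.zero_mem
  | one => exact good_const B.one_mem
  | add x y _ _ hx hy =>
    obtain ⟨a, ha, rfl⟩ := hx
    obtain ⟨b, hb, rfl⟩ := hy
    exact ⟨_, ha.add hb, rfl⟩
  | neg x _ hx =>
    obtain ⟨a, ha, rfl⟩ := hx
    exact ⟨_, ha.neg, rfl⟩
  | mul x y _ _ hx hy =>
    obtain ⟨a, ha, rfl⟩ := hx
    obtain ⟨b, hb, rfl⟩ := hy
    exact ⟨_, (ha.mul hb).congr (by simp), by ext z; simp⟩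

lemma Good.spec (hU : IsOpen U) {g : U → ℂ} (h : Good B g) :
    ∃ G : ℂ → ℂ, DifferentiableOn ℂ G U ∧ (fun z : U => G z) = g ∧
      ∀ k : ℕ, (fun z : U => iteratedDeriv k G z / (k.factorial : ℂ)) ∈ B := by
  obtain ⟨c, hc, rfl⟩ := h
  have h1 : ∀ k : ℕ, ∀ z ∈ U, iteratedDeriv k (c 0) z = k.factorial * c k z := by
    intro k
    induction k with
    | zero => simp
    | succ k ih =>
      intro z hz
      have h2 : iteratedDeriv k (c 0) =ᶠ[𝓝 z] fun w => k.factorial * c k w :=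
        eventually_of_mem (hU.mem_nhds hz) ih
      rw [iteratedDeriv_succ, h2.deriv_eq, ((hc.2 k z hz).const_mul _).deriv, Nat.factorial_succ]
      push_cast
      ring
  refine ⟨c 0, fun z hz => (hc.2 0 z hz).differentiableAt.differentiableWithinAt, rfl, fun k => ?_⟩
  have : (fun z : U => iteratedDeriv k (c 0) z / (k.factorial : ℂ)) = fun z : U => c k z := by
    ext z
    rw [h1 k z z.2, mul_div_cancel_left₀ _ (by exact_mod_cast k.factorial_ne_zero)]
  rw [this]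
  exact hc.1 k

lemma binom_int {N : ℕ} (hN : N ≠ 0) (u : ℤ) (k : ℕ) :
    ∃ m : ℕ, (k.factorial : ℤ) ∣ N ^ m * ∏ j ∈ range k, (u - j * N) := by
  obtain ⟨a, b, hab, ⟨m, ha⟩, hb⟩ : ∃ a b : ℕ, k.factorial = a * b ∧ (∃ m, a ∣ N ^ m) ∧
      b.Coprime N := by
    have : ∀ c : ℕ, c ≠ 0 → ∃ a b : ℕ, c = a * b ∧ (∃ m, a ∣ N ^ m) ∧ b.Coprime N := by
      intro c hc
      induction c using Nat.strong_induction_on with
      | _ c ih =>
        by_cases h : c.Coprime N
        · exact ⟨1, c, by simp, ⟨0, by simp⟩, h⟩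
        · obtain ⟨c', hc'⟩ := Nat.gcd_dvd_left c N
          have h0 : c' ≠ 0 := by rintro rfl; exact hc (by simpa using hc')
          have h1 : 1 < c.gcd N := by
            have := Nat.gcd_pos_of_pos_right c (Nat.pos_of_ne_zero hN)
            have : c.gcd N ≠ 1 := h
            omega
          obtain ⟨a, b, h2, ⟨m, h3⟩, h4⟩ := ih c' (by
            have := Nat.pos_of_ne_zero h0
            nlinarith) h0
          refine ⟨c.gcd N * a, b, by rw [mul_assoc, ← h2, ← hc'], ⟨m + 1, ?_⟩, h4⟩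
          rw [pow_succ']
          exact mul_dvd_mul (Nat.gcd_dvd_right c N) h3
    exact this _ k.factorial_ne_zero
  refine ⟨m, ?_⟩
  rw [hab, Nat.cast_mul]
  refine mul_dvd_mul (by exact_mod_cast ha) ?_
  obtain ⟨x, y, hxy⟩ : IsCoprime (b : ℤ) N := Nat.isCoprime_iff_coprime.mpr hb
  have hb0 : b ≠ 0 := by rintro rfl; exact k.factorial_ne_zero (by simpa using hab)
  obtain ⟨w, hw⟩ : ∃ w : ℕ, k ≤ w ∧ (w : ℤ) ≡ u * y [ZMOD b] := by
    have h1 := Int.emod_nonneg (u * y) (Int.natCast_ne_zero.mpr hb0)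
    refine ⟨(u * y % b).toNat + b * k, by have := Nat.pos_of_ne_zero hb0; nlinarith, ?_⟩
    push_cast
    rw [Int.toNat_of_nonneg h1]
    simp [Int.ModEq]
  have h2 : ∏ j ∈ range k, (u - j * N) ≡ ∏ j ∈ range k, (N * ((w - j : ℕ) : ℤ)) [ZMOD b] := by
    refine Int.ModEq.prod fun j hj => ?_
    rw [Nat.cast_sub (by have := mem_range.mp hj; omega), Int.modEq_iff_dvd]
    obtain ⟨q, hq⟩ := hw.2.dvd
    exact ⟨-(N * q) - u * x, by linear_combination -N * hq + u * hxy⟩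
  rw [← Int.modEq_zero_iff_dvd]
  refine h2.trans (Int.modEq_zero_iff_dvd.mpr ?_)
  rw [prod_mul_distrib]
  refine Dvd.dvd.mul_left ?_ _
  rw [← Nat.cast_prod, ← Nat.descFactorial_eq_prod_range]
  exact_mod_cast (Dvd.intro_left a hab.symm).trans (Nat.factorial_dvd_descFactorial w k)

lemma binom_mem {N : ℕ} (hN : N ≠ 0) (h : (fun _ : U => (N : ℂ)⁻¹) ∈ B) {ν : ℚ} (hν : IsI (N * ν))
    (k : ℕ) : (fun _ : U => (∏ j ∈ range k, ((ν : ℂ) - j)) / k.factorial) ∈ B := by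
  obtain ⟨u, hu⟩ := hν
  obtain ⟨m, c, hc⟩ := binom_int hN u k
  have hN' : (N : ℂ) ≠ 0 := by exact_mod_cast hN
  have hu' : (N : ℂ) * ν = u := by exact_mod_cast congrArg (Rat.cast : ℚ → ℂ) hu
  have hc' : (N : ℂ) ^ m * ∏ j ∈ range k, ((u : ℂ) - j * N) = k.factorial * c := by
    exact_mod_cast congrArg (Int.cast : ℤ → ℂ) hc
  have h1 : ∏ j ∈ range k, ((u : ℂ) - j * N) = N ^ k * ∏ j ∈ range k, ((ν : ℂ) - j) := by
    rw [← card_range k, ← prod_const, card_range, ← prod_mul_distrib]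
    exact prod_congr rfl fun j _ => by rw [← hu']; ring
  have h2 : (∏ j ∈ range k, ((ν : ℂ) - j)) / k.factorial = c * (N : ℂ)⁻¹ ^ (m + k) := by
    have : (k.factorial : ℂ) ≠ 0 := by exact_mod_cast k.factorial_ne_zero
    rw [h1] at hc'
    rw [inv_pow, pow_add]
    field_simp
    linear_combination hc'
  rw [h2]
  exact B.mul_mem (intCast_mem B c) (B.pow_mem h _)

lemma tw_factor {N : ℕ} (hN : N ≠ 0) (h : (fun _ : U => (N : ℂ)⁻¹) ∈ B) {ν : ℚ} (hν : IsI (N * ν))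
    {x : ℂ} (hx : x ∉ U) (hi : (fun z : U => ((z : ℂ) - x)⁻¹) ∈ B) :
    Tw B (fun z => ν * (z - x)⁻¹) fun k z =>
      (∏ j ∈ range k, ((ν : ℂ) - j)) / k.factorial * (z - x)⁻¹ ^ k := by
  refine ⟨fun k => B.mul_mem (binom_mem hN h hν k) (B.pow_mem hi k), fun k z hz => ?_⟩
  have h0 : z - x ≠ 0 := sub_ne_zero.mpr fun h => hx (h ▸ hz)
  refine (((((hasDerivAt_id z).sub_const x).fun_inv h0).fun_pow k).const_mul _).congr_deriv ?_
  have : (k.factorial : ℂ) ≠ 0 := by exact_mod_cast k.factorial_ne_zero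
  have : (k : ℂ) + 1 ≠ 0 := by exact_mod_cast k.succ_ne_zero
  beta_reduce
  rw [prod_range_succ, Nat.factorial_succ]
  cases k with
  | zero => simp
  | succ k =>
    simp only [id, Nat.add_sub_cancel, pow_succ]
    push_cast at this ⊢
    field_simp
    ring

lemma good_radical {N : ℕ} (hN : N ≠ 0) (h : (fun _ : U => (N : ℂ)⁻¹) ∈ B) {ι : Type*}
    (I : Finset ι) {pt : ι → ℂ} (hpt : ∀ x, pt x ∉ U)
    (hi : ∀ x, (fun z : U => ((z : ℂ) - pt x)⁻¹) ∈ B) {ν : ι → ℚ} (hν : ∀ x, IsI (N * ν x))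
    {f : ℂ → ℂ} (hf : (fun z : U => f z) ∈ B)
    (hd : ∀ z ∈ U, HasDerivAt f ((∑ x ∈ I, ν x * (z - pt x)⁻¹) * f z) z) :
    Good B fun z => f z := by
  classical
  have h1 : ∃ c, Tw B (fun z => ∑ x ∈ I, ν x * (z - pt x)⁻¹) c ∧ ∀ z, c 0 z = 1 := by
    clear hd
    induction I using Finset.induction_on with
    | empty =>
      exact ⟨_, (tw_single (l := fun _ => 0) (f := fun _ => 1) B.one_mem fun z _ => by
        simpa using hasDerivAt_const z 1).congr (by simp), by simp⟩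
    | insert y I hy ih =>
      obtain ⟨c, hc, hc0⟩ := ih
      exact ⟨_, ((tw_factor hN h (hν y) (hpt y) (hi y)).mul hc).congr
        fun z _ => by rw [sum_insert hy], by simp [hc0]⟩
  obtain ⟨c, hc, hc0⟩ := h1
  exact ⟨_, (hc.mul (tw_single hf hd)).congr (by simp), by ext z; simp [hc0]⟩

variable {ι : Type} [Fintype ι] {pt : ι → ℂ}

lemma Om_eval_ne {z : ℂ} (hz : ∀ x, pt x ≠ z) : (Om univ pt).eval z ≠ 0 := by
  rw [Om, eval_prod]
  exact prod_ne_zero_iff.mpr fun x _ => by simpa [sub_eq_zero] using (hz x).symm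

lemma evv_of {f : RatFunc ℂ} {P Q : ℂ[X]} (h : f * am Q = am P) {z : ℂ} (hz : Q.eval z ≠ 0) :
    Val (some z) f (P.eval z / Q.eval z) := ⟨P, Q, hz, h, by field_simp⟩

lemma val_OS {f : RatFunc ℂ} (hf : f ∈ OS (Om univ pt)) {z : ℂ} (hz : ∀ x, pt x ≠ z) :
    Val (some z) f (evv (some z) f) := by
  obtain ⟨s, P, h⟩ := hf
  have := evv_of (f := f) (P := P) (Q := Om univ pt ^ s) (by rw [map_pow]; exact h)
    (by rw [eval_pow]; exact pow_ne_zero s (Om_eval_ne hz))
  rwa [this.evv_eq]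

lemma hasDerivAt_evv {f : RatFunc ℂ} (hf : f ∈ OS (Om univ pt)) {z : ℂ} (hz : ∀ x, pt x ≠ z) :
    HasDerivAt (fun w => evv (some w) f) (evv (some z) (rder f)) z := by
  obtain ⟨s, P, h⟩ := hf
  rw [← map_pow] at h
  have h0 : (Om univ pt ^ s).eval z ≠ 0 := by rw [eval_pow]; exact pow_ne_zero s (Om_eval_ne hz)
  have h1 : (fun w => evv (some w) f) =ᶠ[𝓝 z] fun w => P.eval w / (Om univ pt ^ s).eval w := by
    filter_upwards [(Om univ pt ^ s).continuous.continuousAt.eventually_ne h0] with w hw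
    exact (evv_of h hw).evv_eq
  rw [(evv_of (rder_mul_of h) (by rw [eval_pow]; exact pow_ne_zero 2 h0)).evv_eq]
  refine HasDerivAt.congr_of_eventuallyEq ?_ h1
  simpa using (P.hasDerivAt z).fun_div ((Om univ pt ^ s).hasDerivAt z) h0

lemma val_ell_pt (ν : ι → ℂ) {z : ℂ} (hz : ∀ x, pt x ≠ z) :
    Val (some z) (ell univ pt ν) (∑ x, ν x * (z - pt x)⁻¹) :=
  Val.sum _ fun x _ => (Val.const _ _).mul (val_inv_tt (hz x).symm)

lemma evv_mem (hpt : ∀ x, pt x ∉ U) (hz : (fun z : U => (z : ℂ)) ∈ B)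
    (hi : ∀ x, (fun z : U => ((z : ℂ) - pt x)⁻¹) ∈ B) {f : RatFunc ℂ} {s : ℕ} {P : ℂ[X]}
    (h : f * am (Om univ pt) ^ s = am P) (hP : ∀ a ∈ P.coeffs, (fun _ : U => a) ∈ B) :
    (fun z : U => evv (some (z : ℂ)) f) ∈ B := by
  have h1 : (fun z : U => evv (some (z : ℂ)) f) =
      (∑ i ∈ P.support, (fun _ : U => P.coeff i) * (fun z : U => (z : ℂ)) ^ i) *
        (∏ x, fun z : U => ((z : ℂ) - pt x)⁻¹) ^ s := by
    ext z
    have hz' : ∀ x, pt x ≠ z := fun x h => hpt x (h ▸ z.2)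
    rw [(evv_of (f := f) (P := P) (Q := Om univ pt ^ s) (by rw [map_pow]; exact h)
      (by rw [eval_pow]; exact pow_ne_zero s (Om_eval_ne hz'))).evv_eq, eval_eq_sum, eval_pow, Om,
      eval_prod]
    simp [Polynomial.sum, div_eq_mul_inv]
  rw [h1]
  exact B.mul_mem (B.sum_mem fun i hi => B.mul_mem
    (hP _ (mem_coeffs_iff.mpr ⟨i, hi, rfl⟩)) (B.pow_mem hz i))
    (B.pow_mem (B.prod_mem fun x _ => hi x) s)

theorem integral_of_split (hU : IsOpen U) (hpt : ∀ x, pt x ∉ U)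
    {A : Matrix (Fin 2) (Fin 2) (RatFunc ℂ)} (hA : ∀ i j, A i j ∈ OS (Om univ pt)) {N : ℕ}
    (hN : N ≠ 0) {μ τ : ι → ℚ} {v r : Fin 2 → RatFunc ℂ} {c : ℂ} (hc : c ≠ 0)
    (hμ : ∀ x, IsI (N * μ x)) (hτ : ∀ x, IsI (N * τ x)) (hv : ∀ j, v j ∈ OS (Om univ pt))
    (hr : ∀ j, r j ∈ OS (Om univ pt)) (hrv : r ⬝ᵥ v = am (C c))
    (hv' : Dop (dR ℂ) (A - ell univ pt (fun x => (μ x : ℂ)) • 1) v = 0)
    (hr' : Dop (dR ℂ) (-(A - ell univ pt (fun x => (μ x : ℂ)) • 1)ᵀ) r = 0)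
    (htr : A.trace = ell univ pt fun x => (τ x : ℂ)) {y : ℂ → Fin 2 → ℂ}
    (hy : ∀ z ∈ U, ∀ i, HasDerivAt (fun w => y w i) (∑ j, evv (some z) (A i j) * y z j) z)
    (i : Fin 2) : IsIntegralFn U fun z => y z i := by
  classical
  have hne : ∀ z ∈ U, ∀ x, pt x ≠ z := fun z hz x h => hpt x (h ▸ hz)
  choose sv Pv hPv using hv
  choose sr Pr hPr using hr
  have hv : ∀ j, v j ∈ OS (Om univ pt) := fun j => ⟨_, _, hPv j⟩
  have hr : ∀ j, r j ∈ OS (Om univ pt) := fun j => ⟨_, _, hPr j⟩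
  let f₁ : ℂ → ℂ := fun z => evv (some z) (r 0) * y z 0 + evv (some z) (r 1) * y z 1
  let f₂ : ℂ → ℂ := fun z => evv (some z) (v 0) * y z 1 - evv (some z) (v 1) * y z 0
  let Cs : Finset ℂ := {(N : ℂ)⁻¹, c⁻¹} ∪ (univ.biUnion fun j => (Pv j).coeffs ∪ (Pr j).coeffs)
  let T : Finset (U → ℂ) := (Cs.image fun a _ => a) ∪ (univ.image fun x z => ((z : ℂ) - pt x)⁻¹) ∪
    {fun z : U => (z : ℂ), fun z : U => f₁ z, fun z : U => f₂ z}
  let B := Subring.closure (T : Set (U → ℂ))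
  have m1 : ∀ a ∈ Cs, (fun _ : U => a) ∈ B := fun a ha => Subring.subset_closure
    (mem_union_left _ (mem_union_left _ (mem_image_of_mem _ ha)))
  have m2 : ∀ x, (fun z : U => ((z : ℂ) - pt x)⁻¹) ∈ B := fun x => Subring.subset_closure
    (mem_union_left _ (mem_union_right _ (mem_image_of_mem _ (mem_univ x))))
  have m3 : (fun z : U => (z : ℂ)) ∈ B := Subring.subset_closure (mem_union_right _ (by simp))
  have m4 : (fun z : U => f₁ z) ∈ B := Subring.subset_closure (mem_union_right _ (by simp))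
  have m5 : (fun z : U => f₂ z) ∈ B := Subring.subset_closure (mem_union_right _ (by simp))
  have m6 : (fun _ : U => (N : ℂ)⁻¹) ∈ B := m1 _ (by simp [Cs])
  have m7 : ∀ j, (fun z : U => evv (some (z : ℂ)) (v j)) ∈ B := fun j =>
    evv_mem hpt m3 m2 (hPv j) fun a ha => m1 a
      (mem_union_right _ (mem_biUnion.mpr ⟨j, mem_univ j, mem_union_left _ ha⟩))
  have m8 : ∀ j, (fun z : U => evv (some (z : ℂ)) (r j)) ∈ B := fun j =>
    evv_mem hpt m3 m2 (hPr j) fun a ha => m1 a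
      (mem_union_right _ (mem_biUnion.mpr ⟨j, mem_univ j, mem_union_right _ ha⟩))
  have d1 : ∀ z ∈ U, HasDerivAt f₁ ((∑ x, μ x * (z - pt x)⁻¹) * f₁ z) z := by
    intro z hz
    have a := fun i j => val_OS (hA i j) (hne z hz)
    have b := fun j => val_OS (hr j) (hne z hz)
    have l := val_ell_pt (fun x => (μ x : ℂ)) (hne z hz)
    have e : ∀ j, rder (r j) = ell univ pt (fun x => (μ x : ℂ)) * r j - A 0 j * r 0 - A 1 j * r 1 := by
      intro j
      have := congrFun hr' j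
      fin_cases j <;>
        simp [Dop_apply, mulVec, dotProduct, Fin.sum_univ_two] at this ⊢ <;>
        linear_combination this
    have e' := fun j => (((l.mul (b j)).sub ((a 0 j).mul (b 0))).sub ((a 1 j).mul (b 1))).evv_eq
    simp only [← e] at e'
    refine (((hasDerivAt_evv (hr 0) (hne z hz)).mul (hy z hz 0)).add
      ((hasDerivAt_evv (hr 1) (hne z hz)).mul (hy z hz 1))).congr_deriv ?_
    simp only [e', Fin.sum_univ_two, f₁]
    ring
  have d2 : ∀ z ∈ U, HasDerivAt f₂ ((∑ x, ((τ x - μ x : ℚ) : ℂ) * (z - pt x)⁻¹) * f₂ z) z := by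
    intro z hz
    have a := fun i j => val_OS (hA i j) (hne z hz)
    have b := fun j => val_OS (hv j) (hne z hz)
    have l := val_ell_pt (fun x => (μ x : ℂ)) (hne z hz)
    have t := val_ell_pt (fun x => (τ x : ℂ)) (hne z hz)
    rw [← htr, trace_fin_two] at t
    have t' := t.unique ((a 0 0).add (a 1 1))
    have e : ∀ j, rder (v j) = A j 0 * v 0 + A j 1 * v 1 - ell univ pt (fun x => (μ x : ℂ)) * v j := by
      intro j
      have := congrFun hv' j
      fin_cases j <;>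
        simp [Dop_apply, mulVec, dotProduct, Fin.sum_univ_two] at this ⊢ <;>
        linear_combination this
    have e' := fun j => ((((a j 0).mul (b 0)).add ((a j 1).mul (b 1))).sub (l.mul (b j))).evv_eq
    simp only [← e] at e'
    refine (((hasDerivAt_evv (hv 0) (hne z hz)).mul (hy z hz 1)).sub
      ((hasDerivAt_evv (hv 1) (hne z hz)).mul (hy z hz 0))).congr_deriv ?_
    simp only [e', Fin.sum_univ_two, f₂, Rat.cast_sub, sub_mul, sum_sub_distrib, t']
    ring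
  have hrv' : ∀ z ∈ U, evv (some z) (r 0) * evv (some z) (v 0) +
      evv (some z) (r 1) * evv (some z) (v 1) = c := by
    intro z hz
    have h1 := ((val_OS (hr 0) (hne z hz)).mul (val_OS (hv 0) (hne z hz))).add
      ((val_OS (hr 1) (hne z hz)).mul (val_OS (hv 1) (hne z hz)))
    rw [dotProduct, Fin.sum_univ_two] at hrv
    rw [hrv] at h1
    exact h1.unique (Val.const _ _)
  refine ⟨B, ⟨⟨T, rfl⟩, fun g hg => (good_closure (fun g hg => ?_) hg).spec hU⟩, ?_⟩
  · simp only [T, coe_union, coe_image, coe_insert, coe_singleton, Set.mem_union, Set.mem_image,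
      Set.mem_insert_iff, Set.mem_singleton_iff, mem_coe] at hg
    rcases hg with (⟨a, ha, rfl⟩ | ⟨x, -, rfl⟩) | rfl | rfl | rfl
    · exact good_const (m1 a ha)
    · refine good_radical hN m6 {x} hpt m2 (ν := fun _ => -1) (fun _ => ⟨-N, by simp⟩)
        (f := fun z => (z - pt x)⁻¹) (m2 x) fun z hz => ?_
      refine (((hasDerivAt_id z).sub_const (pt x)).fun_inv
        (sub_ne_zero.mpr (hne z hz x).symm)).congr_deriv ?_
      simp [div_eq_mul_inv, pow_two]
    · exact good_id m3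
    · exact good_radical hN m6 univ hpt m2 hμ m4 d1
    · refine good_radical hN m6 univ hpt m2 (fun x => ?_) m5 d2
      obtain ⟨a, ha⟩ := hτ x
      obtain ⟨b, hb⟩ := hμ x
      exact ⟨a - b, by push_cast; linear_combination ha - hb⟩
  · have m9 : (fun _ : U => c⁻¹) ∈ B := m1 _ (by simp [Cs])
    fin_cases i
    · have := B.mul_mem m9 (B.sub_mem (B.mul_mem m4 (m7 0)) (B.mul_mem m5 (m8 1)))
      refine (congrArg (· ∈ B) (funext fun z => ?_)).mp this
      simp only [Pi.mul_apply, Pi.sub_apply, f₁, f₂, Fin.zero_eta]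
      field_simp
      linear_combination y z 0 * hrv' z z.2
    · have := B.mul_mem m9 (B.add_mem (B.mul_mem m4 (m7 1)) (B.mul_mem m5 (m8 0)))
      refine (congrArg (· ∈ B) (funext fun z => ?_)).mp this
      simp only [Pi.mul_apply, Pi.add_apply, f₁, f₂, Fin.mk_one]
      field_simp
      linear_combination y z 1 * hrv' z z.2

end
end Pool.Agent.Lib.MP_815ef6_nt
end

-- part Pool.Agent.Lib.MP_815ef6_nt.Conv
section

/-! From the hypotheses of the statements to the internal data. -/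

namespace Pool.Agent.Lib.MP_815ef6_nt
open Finset Matrix Polynomial

noncomputable section
variable {n : ℕ}

lemma dvd_Om {F ι : Type*} [Field F] {S : Finset ι} (pt : ι → F) {x : ι} (hx : x ∈ S) :
    X - C (pt x) ∣ Om S pt := dvd_prod_of_mem (fun x => X - C (pt x)) hx

lemma mem_OS_of_poles {S : Finset ℂ} {f : RatFunc ℂ} (h : ∀ z, f.denom.eval z = 0 → z ∈ S) :
    f ∈ OS (Om univ (Subtype.val : S → ℂ)) := by
  have h1 : f.denom ∣ Om univ (Subtype.val : S → ℂ) ^ f.denom.roots.card := by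
    have h2 := Multiset.prod_dvd_prod_of_dvd (S := f.denom.roots) (fun a => X - C a)
      (fun _ => Om univ (Subtype.val : S → ℂ)) fun a ha =>
        dvd_Om (Subtype.val : S → ℂ) (x := ⟨a, h a ((mem_roots f.denom_ne_zero).mp ha)⟩)
          (mem_univ _)
    rwa [← (IsAlgClosed.splits f.denom).eq_prod_roots_of_monic f.monic_denom, Multiset.map_const',
      Multiset.prod_replicate] at h2
  obtain ⟨q, hq⟩ := h1
  exact ⟨_, f.num * q, by rw [← map_pow, hq, map_mul, map_mul, ← mul_denom, mul_assoc]⟩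

lemma Exponents.gauge {A : Matrix (Fin n) (Fin n) (RatFunc ℂ)} {x : Option ℂ} {lam : Fin n → ℚ}
    (h : Exponents A x lam) :
    ∃ g : Gauge (place x) A, g.Res.charpoly = ∏ j, (X - C (lam j : ℂ)) := by
  obtain ⟨G, H, hGH, Res, h1, h2⟩ := h
  exact ⟨⟨G, H, hGH, Res, fun i j => (h1 i j).val.mem, fun i j => (h1 i j).val.ev⟩, h2⟩

lemma exists_den (I : Finset (Option ℂ)) (lam : Option ℂ → Fin n → ℚ) {k : ℤ}
    (hk : ∀ x ∈ I, ∀ j, IsCoprime k (lam x j).den) :
    ∃ N : ℕ, N ≠ 0 ∧ IsCoprime k N ∧ ∀ x ∈ I, ∀ j, IsI (N * lam x j) := by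
  refine ⟨∏ x ∈ I, ∏ j, (lam x j).den, prod_ne_zero_iff.mpr fun x _ => prod_ne_zero_iff.mpr
    fun j _ => (lam x j).den_ne_zero, ?_, fun x hx j => ?_⟩
  · push_cast
    exact IsCoprime.prod_right fun x hx => IsCoprime.prod_right fun j _ => hk x hx j
  · obtain ⟨c, hc⟩ : (lam x j).den ∣ ∏ x ∈ I, ∏ j, (lam x j).den :=
      (dvd_prod_of_mem (fun j => (lam x j).den) (mem_univ j)).trans
        (dvd_prod_of_mem (fun x => ∏ j, (lam x j).den) hx)
    refine ⟨c * (lam x j).num, ?_⟩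
    rw [hc]
    push_cast
    rw [← Rat.den_mul_eq_num]
    ring

/-- The least element of `q + ℤ` that is at least `s`. -/
def up (q : ℚ) (s : ℝ) : ℚ := q - ⌊(q : ℝ) - s⌋

lemma up_eq (q : ℚ) (s : ℝ) : (up q s : ℝ) = s + Int.fract ((q : ℝ) - s) := by
  rw [up, Int.fract]; push_cast; ring

lemma le_up (q : ℚ) (s : ℝ) : s ≤ up q s := by
  rw [up_eq]; linarith [Int.fract_nonneg ((q : ℝ) - s)]

lemma up_lt (q : ℚ) (s : ℝ) : up q s < s + 1 := by
  rw [up_eq]; linarith [Int.fract_lt_one ((q : ℝ) - s)]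

lemma isI_up (q : ℚ) (s : ℝ) : IsI (up q s - q) := ⟨-⌊(q : ℝ) - s⌋, by rw [up]; push_cast; ring⟩

lemma sum_up (S : Finset ℂ) (lam : Option ℂ → Fin n → ℚ) (k : ℤ) (s : Option ℂ → ℝ) :
    ∑ j, (up (k * lam none j) (s none) : ℝ) +
      ∑ x : S, ∑ j, (up (k * lam (some x) j) (s (some x)) : ℝ) =
    ∑ x ∈ S.insertNone, ∑ j, Int.fract ((k : ℝ) * lam x j - s x) + n * ∑ x ∈ S.insertNone, s x := by
  rw [sum_coe_sort S fun x => ∑ j, (up (k * lam (some x) j) (s (some x)) : ℝ), mul_sum,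
    ← sum_add_distrib, sum_insertNone]
  simp only [up_eq, sum_add_distrib, sum_const, card_univ, Fintype.card_fin, nsmul_eq_mul,
    Rat.cast_mul, Rat.cast_intCast]
  ring

lemma sum_s (S : Finset ℂ) (s : Option ℂ → ℝ) :
    s none + ∑ x : S, s (some x) = ∑ x ∈ S.insertNone, s x := by
  rw [sum_coe_sort S fun x => s (some x), sum_insertNone]

lemma evv_eq_eval {f : RatFunc ℂ} {z : ℂ} (h : f.denom.eval z ≠ 0) :
    evv (some z) f = f.eval (RingHom.id ℂ) z := by
  rw [(evv_of (mul_denom f) h).evv_eq, RatFunc.eval, eval₂_id, eval₂_id]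

end
end Pool.Agent.Lib.MP_815ef6_nt
end
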