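import Mathlib

/-! Definitions for the statements about `y' = A y` with vanishing `p`-curvature. -/

namespace Pool.Agent.Lib.MP_815ef6_nt
open Polynomial

noncomputable section
variable {F : Type*} [Field F] {n : ℕ}

/-- The derivative of a rational function (quotient rule). -/
def rder (f : RatFunc F) : RatFunc F :=
  algebraMap F[X] (RatFunc F) (derivative f.num * f.denom - f.num * derivative f.denom) /
    algebraMap F[X] (RatFunc F) f.denom ^ 2

/-- `A_0 = I`, `A_{m+1} = A_m' + A_m A`. -/
def Aseq (A : Matrix (Fin n) (Fin n) (RatFunc F)) : ℕ → Matrix (Fin n) (Fin n) (RatFunc F)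
  | 0 => 1
  | m + 1 => (Aseq A m).map rder + Aseq A m * A

/-- `f` lies in `R[z, 1/Δ]`. -/
def InLoc (R : Subring F) (Δ : F[X]) (f : RatFunc F) : Prop :=
  ∃ (P : F[X]) (s : ℕ), (∀ i, P.coeff i ∈ R) ∧
    f * algebraMap F[X] (RatFunc F) Δ ^ s = algebraMap F[X] (RatFunc F) P

/-- The `p`-curvature of `y' = A y` vanishes for almost all primes: for a finitely generated
ring `R` and a nonzero `Δ ∈ R[z]` with all entries of `A` in `R[z, 1/Δ]`, the matrix `A_p` lies in
`p M_n(R[z, 1/Δ])` for all large primes `p`. -/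
def Dormant (A : Matrix (Fin n) (Fin n) (RatFunc F)) : Prop :=
  ∃ (T : Finset F) (Δ : F[X]), Δ ≠ 0 ∧ (∀ i, Δ.coeff i ∈ Subring.closure (T : Set F)) ∧
    (∀ i j, InLoc (Subring.closure (T : Set F)) Δ (A i j)) ∧
    ∃ p₀ : ℕ, ∀ p : ℕ, p.Prime → p₀ ≤ p → ∀ i j, ∃ g : RatFunc F,
      InLoc (Subring.closure (T : Set F)) Δ g ∧ Aseq A p i j = (p : RatFunc F) * g

/-- The rational function `f` has no pole at the point of the projective line (`none` is `∞`)
and takes the value `c` there. -/
def HasVal : Option F → RatFunc F → F → Prop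
  | some x, f, c => f.denom.eval x ≠ 0 ∧ f.num.eval x = c * f.denom.eval x
  | none, f, c => f.num.natDegree ≤ f.denom.natDegree ∧ f.num.coeff f.denom.natDegree = c

/-- `t d/dt = wt x · d/dz` for the local parameter `t = z - x`, resp. `t = 1/z` at `∞`. -/
def wt : Option F → RatFunc F
  | some x => RatFunc.X - RatFunc.C x
  | none => -RatFunc.X

/-- The system `y' = A y` is regular singular at `x` with exponents `lam` (modulo `ℤ`): after a
rational gauge transformation `y = G u` it reads `t du/dt = B u` with `B` regular at `x` and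
`B(x)` has the eigenvalues `lam j` (with multiplicity). -/
def Exponents (A : Matrix (Fin n) (Fin n) (RatFunc F)) (x : Option F) (lam : Fin n → ℚ) : Prop :=
  ∃ G H : Matrix (Fin n) (Fin n) (RatFunc F), G * H = 1 ∧
    ∃ Res : Matrix (Fin n) (Fin n) F,
      (∀ i j, HasVal x (wt x * (H * A * G - H * G.map rder) i j) (Res i j)) ∧
      Res.charpoly = ∏ j, (X - C (lam j : F))

/-- `S` is the set of finite poles of `A`. -/
def IsPoleSet (A : Matrix (Fin n) (Fin n) (RatFunc F)) (S : Finset F) : Prop :=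
  ∀ x, x ∈ S ↔ ∃ i j, (A i j).denom.eval x = 0

/-- An integral algebra on `U`: a finitely generated ring of holomorphic functions on `U`
that is closed under the divided derivatives `f ↦ f^{(k)} / k!`. -/
def IsIntegralAlgebra (U : Set ℂ) (B : Subring (U → ℂ)) : Prop :=
  (∃ T : Finset (U → ℂ), B = Subring.closure (T : Set (U → ℂ))) ∧
    ∀ g ∈ B, ∃ G : ℂ → ℂ, DifferentiableOn ℂ G U ∧ (fun z : U => G z) = g ∧
      ∀ k : ℕ, (fun z : U => iteratedDeriv k G z / (k.factorial : ℂ)) ∈ B

/-- `f` is an integral function on `U`. -/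
def IsIntegralFn (U : Set ℂ) (f : ℂ → ℂ) : Prop :=
  ∃ B : Subring (U → ℂ), IsIntegralAlgebra U B ∧ (fun z : U => f z) ∈ B

end
end Pool.Agent.Lib.MP_815ef6_nt
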