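import Mathlib
import Pool.Agent.Lib.MP_815ef6_nt.Defs

-- part Pool.Agent.Lib.MP_815ef6_nt.Cod
section

/-! Codimension bookkeeping through linear functionals, and the Taylor decomposition for a pair
`T, D` with `D T = T D + 1`, `D ^ p = 0` in characteristic `p`. -/

namespace Pool.Agent.Lib.MP_815ef6_nt
open Finset

section Cod
variable {k W : Type*} [Field k] [AddCommGroup W] [Module k W]

/-- At most `c` linear conditions cut `V` into `U`. -/
def Cod (U V : Submodule k W) (c : ℕ) : Prop :=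
  ∃ s : Finset (Module.Dual k W), s.card ≤ c ∧ ∀ v ∈ V, (∀ f ∈ s, f v = 0) → v ∈ U

lemma Cod.mono {U U' V V' : Submodule k W} {c c' : ℕ} (h : Cod U V c) (hV : V' ≤ V)
    (hU : ∀ v ∈ V', v ∈ U → v ∈ U') (hc : c ≤ c') : Cod U' V' c' := by
  obtain ⟨s, hs, h⟩ := h
  exact ⟨s, hs.trans hc, fun v hv hf => hU v hv (h v (hV hv) hf)⟩

lemma Cod.of_le {U V : Submodule k W} (h : V ≤ U) : Cod U V 0 :=
  ⟨∅, le_rfl, fun _ hv _ => h hv⟩

lemma Cod.trans {U V X : Submodule k W} {c c' : ℕ} (h : Cod U V c) (h' : Cod V X c') :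
    Cod U X (c + c') := by
  classical
  obtain ⟨s, hs, h⟩ := h
  obtain ⟨s', hs', h'⟩ := h'
  refine ⟨s ∪ s', (card_union_le _ _).trans (add_le_add hs hs'), fun v hv hf => ?_⟩
  exact h v (h' v hv fun f hf' => hf f (mem_union_right _ hf'))
    fun f hf' => hf f (mem_union_left _ hf')

lemma Cod.of_map {U V : Submodule k W} {E : Type*} [AddCommGroup E] [Module k E]
    [FiniteDimensional k E] (f : V →ₗ[k] E) {c : ℕ} (hc : Module.finrank k E ≤ c)
    (h : ∀ v : V, f v = 0 → (v : W) ∈ U) : Cod U V c := by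
  classical
  obtain ⟨g, hg⟩ := LinearMap.exists_extend f
  let b := Module.finBasis k E
  refine ⟨univ.image fun i => (b.coord i).comp g, ?_, fun v hv hf => ?_⟩
  · exact card_image_le.trans (by simpa using hc)
  · apply h ⟨v, hv⟩
    have h1 : g v = f ⟨v, hv⟩ := by rw [← hg]; rfl
    rw [← h1]
    apply b.forall_coord_eq_zero_iff.mp
    intro i
    exact hf _ (mem_image_of_mem _ (mem_univ i))

lemma Cod.sum {ι : Type*} (I : Finset ι) (π : ι → W →ₗ[k] W) {U V : ι → Submodule k W}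
    {c : ι → ℕ} (h : ∀ i ∈ I, Cod (U i) (V i) (c i)) {X Y : Submodule k W}
    (hX : ∀ v ∈ X, ∀ i ∈ I, π i v ∈ V i) (hY : ∀ v ∈ X, (∀ i ∈ I, π i v ∈ U i) → v ∈ Y) :
    Cod Y X (∑ i ∈ I, c i) := by
  classical
  choose! s hs h using h
  refine ⟨I.biUnion fun i => (s i).image fun f => f.comp (π i), ?_, fun v hv hf => ?_⟩
  · exact card_biUnion_le.trans (sum_le_sum fun i hi => card_image_le.trans (hs i hi))
  · refine hY v hv fun i hi => h i hi _ (hX v hv i hi) fun f hf' => ?_
    exact hf _ (mem_biUnion.mpr ⟨i, hi, mem_image_of_mem _ hf'⟩)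

lemma Cod.card_le {V : Submodule k W} {c : ℕ} (h : Cod ⊥ V c) {ι : Type*} [Fintype ι]
    {v : ι → W} (hv : LinearIndependent k v) (hV : ∀ i, v i ∈ V) : Fintype.card ι ≤ c := by
  classical
  obtain ⟨s, hs, h⟩ := h
  let g : W →ₗ[k] (s → k) := LinearMap.pi fun f => f.1
  have hli : LinearIndependent k (g ∘ v) := by
    refine hv.map ?_
    rw [Submodule.disjoint_def]
    intro x hx hx0
    have hxV : x ∈ V := (Submodule.span_le.mpr (by rintro _ ⟨i, rfl⟩; exact hV i)) hx
    exact h x hxV fun f hf => congrFun hx0 ⟨f, hf⟩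
  have := hli.fintype_card_le_finrank
  simp only [Module.finrank_fintype_fun_eq_card, Fintype.card_coe] at this
  exact this.trans hs

lemma Cod.of_finrank {V : Submodule k W} [FiniteDimensional k V] {c : ℕ}
    (h : Module.finrank k V ≤ c) : Cod ⊥ V c :=
  Cod.of_map LinearMap.id h fun v hv => by
    have : v = 0 := hv
    simp [this]

end Cod

section Taylor
variable {k R : Type*} [Field k] [Ring R] [Algebra k R] {T D : R}

lemma D_mul_pow (h : D * T = T * D + 1) (j : ℕ) :
    D * T ^ (j + 1) = T ^ (j + 1) * D + ((j + 1 : ℕ) : k) • T ^ j := by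
  induction j with
  | zero => simpa using h
  | succ j ih =>
    rw [pow_succ T (j + 1), ← mul_assoc, ih, add_mul, mul_assoc, h, smul_mul_assoc, ← pow_succ,
      mul_add, mul_one, ← mul_assoc, ← pow_succ, add_assoc]
    congr 1
    push_cast
    module

/-- The `s`-th Taylor component. -/
def tay (k : Type*) [Field k] [Algebra k R] (T D : R) (p s : ℕ) : R :=
  ∑ j ∈ range (p - s), ((-1) ^ j / ((s.factorial : k) * (j.factorial : k))) • (T ^ j * D ^ (s + j))

lemma fact_ne {p : ℕ} [Fact p.Prime] [CharP k p] {j : ℕ} (hj : j < p) : (j.factorial : k) ≠ 0 := by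
  rw [Ne, CharP.cast_eq_zero_iff k p, (Fact.out : p.Prime).dvd_factorial]
  omega

lemma D_mul_part {p : ℕ} [Fact p.Prime] [CharP k p] (h : D * T = T * D + 1) (s m : ℕ)
    (hm : m < p) :
    D * ∑ j ∈ range (m + 1),
      ((-1) ^ j / ((s.factorial : k) * (j.factorial : k))) • (T ^ j * D ^ (s + j)) =
      ((-1) ^ m / ((s.factorial : k) * (m.factorial : k))) • (T ^ m * D ^ (s + m + 1)) := by
  induction m with
  | zero => simp [pow_succ']
  | succ m ih =>
    rw [sum_range_succ, mul_add, ih (by omega), mul_smul_comm, ← mul_assoc, D_mul_pow (k := k) h,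
      add_mul, mul_assoc, ← pow_succ', smul_mul_assoc, smul_add, smul_smul]
    have h1 : (((m + 1).factorial : ℕ) : k) ≠ 0 := fact_ne hm
    have h2 : ((m.factorial : ℕ) : k) ≠ 0 := fact_ne (by omega : m < p)
    have h3 : ((m + 1 : ℕ) : k) ≠ 0 := by
      rw [Ne, CharP.cast_eq_zero_iff k p]
      exact Nat.not_dvd_of_pos_of_lt (by omega) hm
    have h4 : ((-1) ^ (m + 1) / ((s.factorial : k) * ((m + 1).factorial : k))) * ((m + 1 : ℕ) : k)
        = -((-1) ^ m / ((s.factorial : k) * (m.factorial : k))) := by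
      rw [Nat.factorial_succ, Nat.cast_mul]
      by_cases hs : (s.factorial : k) = 0
      · simp [hs]
      field_simp
      ring
    rw [h4, neg_smul, ← add_assoc (s) m 1]
    abel

lemma D_mul_tay {p : ℕ} [Fact p.Prime] [CharP k p] (h : D * T = T * D + 1) (hp : D ^ p = 0)
    {s : ℕ} (hs : s < p) : D * tay k T D p s = 0 := by
  obtain ⟨m, hm⟩ : ∃ m, p - s = m + 1 := ⟨p - s - 1, by omega⟩
  rw [tay, hm, D_mul_part (p := p) h s m (by omega), show s + m + 1 = p by omega, hp, mul_zero,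
    smul_zero]

lemma sum_tay {p : ℕ} [Fact p.Prime] [CharP k p] (T D : R) :
    ∑ s ∈ range p, T ^ s * tay k T D p s = 1 := by
  have h1 : ∑ s ∈ range p, T ^ s * tay k T D p s = ∑ s ∈ range p, ∑ j ∈ range (p - s),
      ((-1) ^ j / ((s.factorial : k) * (j.factorial : k))) • (T ^ (s + j) * D ^ (s + j)) := by
    refine sum_congr rfl fun s _ => ?_
    rw [tay, mul_sum]
    refine sum_congr rfl fun j _ => ?_
    rw [mul_smul_comm, ← mul_assoc, ← pow_add]
  rw [h1, ← sum_range_diag_flip p fun s j =>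
    ((-1) ^ j / ((s.factorial : k) * (j.factorial : k))) • (T ^ (s + j) * D ^ (s + j))]
  have hp : 0 < p := (Fact.out : p.Prime).pos
  rw [sum_eq_single_of_mem 0 (mem_range.mpr hp)]
  · simp
  · intro m hm hm0
    have hm' : m < p := mem_range.mp hm
    have h2 : ∑ s ∈ range (m + 1), ((-1) ^ (m - s) / ((s.factorial : k) *
        ((m - s).factorial : k))) • (T ^ (s + (m - s)) * D ^ (s + (m - s))) =
        (∑ s ∈ range (m + 1), ((-1) ^ (m - s) / ((s.factorial : k) *
        ((m - s).factorial : k)))) • (T ^ m * D ^ m) := by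
      rw [sum_smul]
      refine sum_congr rfl fun s hs => ?_
      rw [show s + (m - s) = m by have := mem_range.mp hs; omega]
    rw [h2]
    have h3 : (∑ s ∈ range (m + 1), ((-1) ^ (m - s) / ((s.factorial : k) *
        ((m - s).factorial : k)))) * (m.factorial : k) = (1 + (-1) : k) ^ m := by
      rw [add_pow, sum_mul]
      refine sum_congr rfl fun s hs => ?_
      have hs' : s ≤ m := by have := mem_range.mp hs; omega
      rw [← Nat.choose_mul_factorial_mul_factorial hs']
      have a1 : (s.factorial : k) ≠ 0 := fact_ne (by omega : s < p)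
      have a2 : ((m - s).factorial : k) ≠ 0 := fact_ne (by omega : m - s < p)
      push_cast
      field_simp
      simp
    rw [add_neg_cancel, zero_pow hm0, mul_eq_zero] at h3
    rcases h3 with h3 | h3
    · rw [h3, zero_smul]
    · exact absurd h3 (fact_ne hm')

lemma pow_mul_pow_succ (h : D * T = T * D + 1) (m : ℕ) :
    T ^ (m + 1) * D ^ (m + 1) = T * D * (T ^ m * D ^ m) - (m : k) • (T ^ m * D ^ m) := by
  cases m with
  | zero => simp
  | succ m =>
    rw [mul_assoc T D, ← mul_assoc D, D_mul_pow (k := k) h, add_mul, mul_add, smul_mul_assoc,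
      mul_smul_comm, ← mul_assoc T (T ^ m), ← pow_succ', add_sub_cancel_right, mul_assoc _ D,
      ← pow_succ', ← mul_assoc, ← pow_succ']

lemma theta_tay {p : ℕ} [Fact p.Prime] [CharP k p] (h : D * T = T * D + 1) (hp : D ^ p = 0)
    {s : ℕ} (hs : s < p) :
    T * D * (T ^ s * tay k T D p s) = (s : k) • (T ^ s * tay k T D p s) := by
  cases s with
  | zero => simp [mul_assoc, D_mul_tay (k := k) h hp hs]
  | succ s =>
    rw [mul_assoc, ← mul_assoc D, D_mul_pow (k := k) h, add_mul, mul_assoc _ D,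
      D_mul_tay h hp hs, mul_zero, zero_add, smul_mul_assoc, mul_smul_comm, ← mul_assoc,
      ← pow_succ']

end Taylor

section TaylorEnd
variable {k W : Type*} [Field k] [AddCommGroup W] [Module k W] {T D : Module.End k W}

lemma powpow_mem (h : D * T = T * D + 1) {V : Submodule k W} (hV : ∀ y ∈ V, T (D y) ∈ V)
    (m : ℕ) {y : W} (hy : y ∈ V) : (T ^ m * D ^ m) y ∈ V := by
  induction m with
  | zero => simpa using hy
  | succ m ih =>
    rw [pow_mul_pow_succ (k := k) h]
    exact V.sub_mem (hV _ ih) (V.smul_mem _ ih)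

lemma pow_tay_mem (h : D * T = T * D + 1) {V : Submodule k W} (hV : ∀ y ∈ V, T (D y) ∈ V)
    (p s : ℕ) {y : W} (hy : y ∈ V) : (T ^ s * tay k T D p s) y ∈ V := by
  rw [tay, mul_sum, LinearMap.sum_apply]
  refine V.sum_mem fun j _ => ?_
  rw [mul_smul_comm, ← mul_assoc, ← pow_add]
  exact V.smul_mem _ (powpow_mem h hV _ hy)

lemma tay_mem {V : Submodule k W} (hV : ∀ y ∈ V, T y ∈ V) (p s : ℕ) {y : W}
    (hy : ∀ m, (D ^ m) y ∈ V) : tay k T D p s y ∈ V := by
  rw [tay, LinearMap.sum_apply]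
  refine V.sum_mem fun j _ => V.smul_mem _ ?_
  rw [Module.End.mul_apply]
  have key : ∀ (i : ℕ) (u : W), u ∈ V → (T ^ i) u ∈ V := by
    intro i u hu
    induction i with
    | zero => simpa using hu
    | succ i ih => rw [pow_succ', Module.End.mul_apply]; exact hV _ ih
  exact key _ _ (hy _)

end TaylorEnd

end Pool.Agent.Lib.MP_815ef6_nt
end

-- part Pool.Agent.Lib.MP_815ef6_nt.Core
section

/-! The abstract Riemann-Roch type count for horizontal sections in characteristic `p`. -/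

namespace Pool.Agent.Lib.MP_815ef6_nt
open Finset Matrix Polynomial

variable {k K : Type*} [Field k] [Field K] [Algebra k K] {n : ℕ}

/-- A rational place of `K / k` with the logarithmic derivation `w d`. -/
structure Place (d : Derivation k K K) where
  O : Subalgebra k K
  ev : K → k
  ev_add : ∀ f ∈ O, ∀ g ∈ O, ev (f + g) = ev f + ev g
  ev_mul : ∀ f ∈ O, ∀ g ∈ O, ev (f * g) = ev f * ev g
  ev_const : ∀ c, ev (algebraMap k K c) = c
  t : K
  t_ne : t ≠ 0
  t_mem : t ∈ O
  ev_t : ev t = 0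
  div_mem : ∀ f ∈ O, ev f = 0 → t⁻¹ * f ∈ O
  inv_mem : ∀ f ∈ O, ev f ≠ 0 → f⁻¹ ∈ O
  w : K
  w_t : w * d t = t
  der_mem : ∀ f ∈ O, w * d f ∈ O
  ev_der : ∀ f ∈ O, ev (w * d f) = 0

variable {d : Derivation k K K}

namespace Place
variable (P : Place d)

lemma ev_zero : P.ev 0 = 0 := by simpa using P.ev_const 0

lemma ev_one : P.ev 1 = 1 := by simpa using P.ev_const 1

lemma ev_smul (c : k) {f : K} (hf : f ∈ P.O) : P.ev (c • f) = c * P.ev f := by
  rw [Algebra.smul_def, P.ev_mul _ (P.O.algebraMap_mem c) _ hf, P.ev_const]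

lemma ev_neg {f : K} (hf : f ∈ P.O) : P.ev (-f) = -P.ev f := by
  simpa using P.ev_smul (-1) hf

lemma ev_sub {f g : K} (hf : f ∈ P.O) (hg : g ∈ P.O) : P.ev (f - g) = P.ev f - P.ev g := by
  rw [sub_eq_add_neg, P.ev_add _ hf _ (P.O.neg_mem hg), P.ev_neg hg, sub_eq_add_neg]

lemma ev_sum {ι : Type*} (I : Finset ι) (f : ι → K) (hf : ∀ i ∈ I, f i ∈ P.O) :
    P.ev (∑ i ∈ I, f i) = ∑ i ∈ I, P.ev (f i) := by
  classical
  induction I using Finset.induction_on with
  | empty => simpa using P.ev_zero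
  | insert a I ha ih =>
    rw [sum_insert ha, sum_insert ha, P.ev_add _ (hf a (mem_insert_self _ _)) _
      (P.O.sum_mem fun i hi => hf i (mem_insert_of_mem hi)),
      ih fun i hi => hf i (mem_insert_of_mem hi)]

lemma w_zpow (i : ℤ) : P.w * d (P.t ^ i) = (i : K) * P.t ^ i := by
  rw [Derivation.leibniz_zpow, smul_eq_mul, zsmul_eq_mul, zpow_sub_one₀ P.t_ne]
  have h := P.w_t
  have h0 := P.t_ne
  calc P.w * ((i : K) * (P.t ^ i * P.t⁻¹ * d P.t))
      = (i : K) * P.t ^ i * (P.t⁻¹ * (P.w * d P.t)) := by ring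
    _ = _ := by rw [h, inv_mul_cancel₀ h0, mul_one]

end Place

/-- The connection `y ↦ y' - A y`. -/
def Dop (d : Derivation k K K) (A : Matrix (Fin n) (Fin n) K) : Module.End k (Fin n → K) where
  toFun y := (fun i => d (y i)) - A *ᵥ y
  map_add' y y' := by
    ext i; simp [mulVec_add]; ring
  map_smul' c y := by
    ext i; simp [mulVec_smul, smul_sub]

lemma Dop_apply (A : Matrix (Fin n) (Fin n) K) (y : Fin n → K) (i : Fin n) :
    Dop d A y i = d (y i) - (A *ᵥ y) i := rfl

/-- Multiplication by an element of `K`. -/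
def mulE (k : Type*) [Field k] [Algebra k K] (n : ℕ) (t : K) : Module.End k (Fin n → K) where
  toFun y := t • y
  map_add' _ _ := smul_add _ _ _
  map_smul' _ _ := smul_comm _ _ _

@[simp] lemma mulE_apply (t : K) (y : Fin n → K) : mulE k n t y = t • y := rfl

lemma mulE_pow (t : K) (m : ℕ) (y : Fin n → K) : (mulE k n t ^ m) y = t ^ m • y := by
  induction m with
  | zero => simp
  | succ m ih => rw [pow_succ', Module.End.mul_apply, ih, mulE_apply, smul_smul, ← pow_succ']

lemma Dop_smul (A : Matrix (Fin n) (Fin n) K) (f : K) (y : Fin n → K) :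
    Dop d A (f • y) = d f • y + f • Dop d A y := by
  ext i
  simp [Dop_apply, mulVec_smul]
  ring

lemma weyl (A : Matrix (Fin n) (Fin n) K) {t : K} (ht : d t = 1) :
    Dop d A * mulE k n t = mulE k n t * Dop d A + 1 := by
  refine LinearMap.ext fun y => ?_
  simp only [Module.End.mul_apply, mulE_apply, Dop_smul, ht, one_smul, LinearMap.add_apply,
    Module.End.one_apply]
  exact add_comm _ _

lemma der_mulVec (G : Matrix (Fin n) (Fin n) K) (u : Fin n → K) (i : Fin n) :
    d ((G *ᵥ u) i) = (G.map d *ᵥ u) i + (G *ᵥ fun j => d (u j)) i := by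
  simp only [mulVec, dotProduct, map_sum, Derivation.leibniz, smul_eq_mul, map_apply,
    ← sum_add_distrib]
  exact sum_congr rfl fun j _ => by ring

/-- A gauge in which the system has a logarithmic pole at the place. -/
structure Gauge (P : Place d) (A : Matrix (Fin n) (Fin n) K) where
  G : Matrix (Fin n) (Fin n) K
  H : Matrix (Fin n) (Fin n) K
  hGH : G * H = 1
  Res : Matrix (Fin n) (Fin n) k
  mem : ∀ i j, P.w * (H * A * G - H * G.map d) i j ∈ P.O
  ev_eq : ∀ i j, P.ev (P.w * (H * A * G - H * G.map d) i j) = Res i j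

namespace Gauge
variable {P : Place d} {A : Matrix (Fin n) (Fin n) K} (g : Gauge P A)

/-- The lattice `t^i G O^n`. -/
def Lam (i : ℤ) : Submodule k (Fin n → K) where
  carrier := {y | ∀ j, P.t ^ (-i) * (g.H *ᵥ y) j ∈ P.O}
  add_mem' := fun {_ _} ha hb j => by
    rw [mulVec_add, Pi.add_apply, mul_add]; exact P.O.add_mem (ha j) (hb j)
  zero_mem' := fun j => by simp
  smul_mem' := fun c y hy j => by
    rw [mulVec_smul, Pi.smul_apply, mul_smul_comm]; exact P.O.smul_mem (hy j) c

lemma mem_Lam {i : ℤ} {y : Fin n → K} :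
    y ∈ g.Lam i ↔ ∀ j, P.t ^ (-i) * (g.H *ᵥ y) j ∈ P.O := Iff.rfl

lemma smul_mem_Lam {i : ℤ} {y : Fin n → K} (hy : y ∈ g.Lam i) {f : K} (hf : f ∈ P.O) :
    f • y ∈ g.Lam i := fun j => by
  rw [mulVec_smul, Pi.smul_apply, smul_eq_mul, mul_left_comm]
  exact P.O.mul_mem hf (hy j)

lemma zpow_smul_mem {i : ℤ} {y : Fin n → K} (hy : y ∈ g.Lam i) (a : ℤ) :
    P.t ^ a • y ∈ g.Lam (i + a) := fun j => by
  rw [mulVec_smul, Pi.smul_apply, smul_eq_mul, ← mul_assoc, ← zpow_add₀ P.t_ne,
    show -(i + a) + a = -i by ring]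
  exact hy j

lemma H_Dop (y : Fin n → K) (j : Fin n) : (g.H *ᵥ Dop d A y) j =
    d ((g.H *ᵥ y) j) - ((g.H * A * g.G - g.H * g.G.map d) *ᵥ (g.H *ᵥ y)) j := by
  have hHG : g.H * g.G = 1 := mul_eq_one_comm.mp g.hGH
  obtain ⟨u, rfl⟩ : ∃ u, y = g.G *ᵥ u := ⟨g.H *ᵥ y, by rw [mulVec_mulVec, g.hGH, one_mulVec]⟩
  have h1 : Dop d A (g.G *ᵥ u) = g.G.map d *ᵥ u + (g.G *ᵥ fun j => d (u j)) - A *ᵥ (g.G *ᵥ u) := by
    ext i; rw [Dop_apply, der_mulVec]; rfl
  rw [h1]
  simp only [mulVec_mulVec, hHG, one_mulVec, mulVec_sub, mulVec_add, sub_mulVec, Pi.sub_apply,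
    Pi.add_apply, mul_assoc]
  ring

lemma theta_eq (i : ℤ) (y : Fin n → K) (j : Fin n) :
    P.t ^ (-i) * (g.H *ᵥ (P.w • Dop d A y)) j =
      P.w * d (P.t ^ (-i) * (g.H *ᵥ y) j) + (i : k) • (P.t ^ (-i) * (g.H *ᵥ y) j) -
        ∑ l, (P.w * (g.H * A * g.G - g.H * g.G.map d) j l) * (P.t ^ (-i) * (g.H *ᵥ y) l) := by
  rw [mulVec_smul, Pi.smul_apply, smul_eq_mul, g.H_Dop, Derivation.leibniz, smul_eq_mul,
    smul_eq_mul, Algebra.smul_def, map_intCast]
  have h := P.w_zpow (-i)
  have h2 : ∑ l, (P.w * (g.H * A * g.G - g.H * g.G.map d) j l) * (P.t ^ (-i) * (g.H *ᵥ y) l) =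
      P.t ^ (-i) * P.w * ((g.H * A * g.G - g.H * g.G.map d) *ᵥ (g.H *ᵥ y)) j := by
    rw [mulVec, dotProduct, mul_sum]
    exact sum_congr rfl fun l _ => by ring
  rw [h2]
  push_cast at h
  linear_combination (-(g.H *ᵥ y) j) * h

lemma theta_mem {i : ℤ} {y : Fin n → K} (hy : y ∈ g.Lam i) : P.w • Dop d A y ∈ g.Lam i :=
  fun j => by
    rw [g.theta_eq]
    exact P.O.sub_mem (P.O.add_mem (P.der_mem _ (hy j)) (P.O.smul_mem (hy j) _))
      (P.O.sum_mem fun l _ => P.O.mul_mem (g.mem j l) (hy l))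

lemma ev_theta {i : ℤ} {y : Fin n → K} (hy : y ∈ g.Lam i) (j : Fin n) :
    P.ev (P.t ^ (-i) * (g.H *ᵥ (P.w • Dop d A y)) j) =
      (i : k) * P.ev (P.t ^ (-i) * (g.H *ᵥ y) j) -
        (g.Res *ᵥ fun l => P.ev (P.t ^ (-i) * (g.H *ᵥ y) l)) j := by
  rw [g.theta_eq, P.ev_sub (P.O.add_mem (P.der_mem _ (hy j)) (P.O.smul_mem (hy j) _))
      (P.O.sum_mem fun l _ => P.O.mul_mem (g.mem j l) (hy l)),
    P.ev_add _ (P.der_mem _ (hy j)) _ (P.O.smul_mem (hy j) _), P.ev_der _ (hy j),
    P.ev_smul _ (hy j), P.ev_sum _ _ fun l _ => P.O.mul_mem (g.mem j l) (hy l), zero_add]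
  congr 1
  refine sum_congr rfl fun l _ => ?_
  rw [P.ev_mul _ (g.mem j l) _ (hy l), g.ev_eq]

/-- Leading coefficient. -/
def lead (i : ℤ) : g.Lam i →ₗ[k] (Fin n → k) where
  toFun y := fun j => P.ev (P.t ^ (-i) * (g.H *ᵥ y.1) j)
  map_add' a b := by
    ext j
    rw [Submodule.coe_add, mulVec_add, Pi.add_apply, mul_add, P.ev_add _ (a.2 j) _ (b.2 j)]
    rfl
  map_smul' c a := by
    ext j
    rw [Submodule.coe_smul, mulVec_smul, Pi.smul_apply, mul_smul_comm, P.ev_smul _ (a.2 j)]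
    rfl

/-- Eigenspaces of `w D`. -/
def Eig (P : Place d) (A : Matrix (Fin n) (Fin n) K) (c : k) : Submodule k (Fin n → K) :=
  Module.End.eigenspace (mulE k n P.w * Dop d A) c

lemma mem_Eig {c : k} {y : Fin n → K} : y ∈ Eig P A c ↔ P.w • Dop d A y = c • y :=
  Module.End.mem_eigenspace_iff

lemma jump (c : k) (i : ℤ) : Cod (Eig P A c ⊓ g.Lam (i + 1)) (Eig P A c ⊓ g.Lam i)
    (g.Res.charpoly.rootMultiplicity ((i : k) - c)) := by
  let f : ↥(Eig P A c ⊓ g.Lam i) →ₗ[k] (Fin n → k) :=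
    (g.lead i).comp (Submodule.inclusion inf_le_right)
  have hf : ∀ y, f y ∈ Module.End.eigenspace (Matrix.toLin' g.Res) ((i : k) - c) := by
    intro y
    rw [Module.End.mem_eigenspace_iff, Matrix.toLin'_apply]
    ext j
    have h := g.ev_theta y.2.2 j
    rw [mem_Eig.mp y.2.1, mulVec_smul, Pi.smul_apply, mul_smul_comm, P.ev_smul _ (y.2.2 j)] at h
    have h2 : (g.Res *ᵥ f y) j = (g.Res *ᵥ fun l => P.ev (P.t ^ (-i) * (g.H *ᵥ y.1) l)) j := rfl
    have h3 : f y j = P.ev (P.t ^ (-i) * (g.H *ᵥ y.1) j) := rfl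
    rw [h2, Pi.smul_apply, h3, smul_eq_mul]
    linear_combination h
  refine Cod.of_map (f.codRestrict _ hf) ?_ fun y hy => ⟨y.2.1, fun j => ?_⟩
  · rw [← Matrix.charpoly_toLin']
    exact LinearMap.finrank_eigenspace_le _ _
  · have h0 : P.ev (P.t ^ (-i) * (g.H *ᵥ y.1) j) = 0 := congrFun (congrArg Subtype.val hy) j
    have := P.div_mem _ (y.2.2 j) h0
    rwa [← mul_assoc, ← _root_.zpow_neg_one, ← zpow_add₀ P.t_ne, show -1 + -i = -(i + 1) by ring] at this

lemma jumps (c : k) (i : ℤ) (s : ℕ) : Cod (Eig P A c ⊓ g.Lam (i + s)) (Eig P A c ⊓ g.Lam i)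
    (∑ r ∈ range s, g.Res.charpoly.rootMultiplicity (((i + r : ℤ) : k) - c)) := by
  induction s with
  | zero => simpa using Cod.of_le le_rfl
  | succ s ih =>
    rw [sum_range_succ, add_comm (∑ r ∈ range s, _), Nat.cast_succ, ← add_assoc]
    exact (g.jump c (i + s)).trans ih

/-- The local contribution. -/
noncomputable def cc (p : ℕ) (b : ℤ) : ℕ :=
  ∑ s ∈ range p, ∑ r ∈ range s, g.Res.charpoly.rootMultiplicity ((b + r - s : ℤ) : k)

lemma cc_le {p : ℕ} [Fact p.Prime] [CharP k p] {b : ℤ} {m : Fin n → ℤ} (hm : ∀ j, b ≤ m j)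
    (hc : g.Res.charpoly = ∏ j, (X - C (m j : k))) :
    (g.cc p b : ℤ) ≤ ∑ j, (m j - b) := by
  classical
  have h1 : ∀ a : k, g.Res.charpoly.rootMultiplicity a = ∑ j, if a = (m j : k) then 1 else 0 := by
    intro a
    rw [← count_roots, hc, ← card_filter]
    have : (∏ j, (X - C (m j : k))).roots = (univ.val.map fun j => (m j : k)) := by
      rw [← roots_multiset_prod_X_sub_C (univ.val.map fun j => (m j : k)), Multiset.map_map]
      rfl
    rw [this, Multiset.count_map]
    rfl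
  have h2 : g.cc p b = ∑ j, ∑ s ∈ range p, ∑ r ∈ range s,
      if ((b + r - s : ℤ) : k) = (m j : k) then 1 else 0 := by
    simp only [cc, h1]
    rw [sum_comm]
    exact sum_congr rfl fun s _ => sum_comm
  rw [h2, Nat.cast_sum univ]
  refine sum_le_sum fun j _ => ?_
  rw [sum_sigma', ← card_filter]
  have h3 : ∀ x ∈ ((range p).sigma fun s => range s).filter
      fun x : (_ : ℕ) × ℕ => ((b + x.2 - x.1 : ℤ) : k) = (m j : k),
      x.2 < x.1 ∧ x.1 < p ∧ (p : ℤ) ∣ m j - (b + x.2 - x.1) := by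
    intro x hx
    simp only [mem_filter, mem_sigma, mem_range] at hx
    exact ⟨hx.1.2, hx.1.1, (CharP.intCast_eq_intCast k p).mp hx.2 |>.dvd⟩
  have h4 : (((range p).sigma fun s => range s).filter
      fun x : (_ : ℕ) × ℕ => ((b + x.2 - x.1 : ℤ) : k) = (m j : k)).card ≤
      (range (m j - b).toNat).card := by
    refine card_le_card_of_injOn (fun x => x.2) (fun x hx => ?_) (fun x hx y hy hxy => ?_)
    · obtain ⟨a1, a2, a3⟩ := h3 x hx
      have := Int.le_of_dvd (by have := hm j; omega) a3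
      simp only [coe_range, Set.mem_Iio]
      omega
    · obtain ⟨a1, a2, a3⟩ := h3 x hx
      obtain ⟨b1, b2, b3⟩ := h3 y hy
      have hxy' : x.2 = y.2 := hxy
      have h5 : (p : ℤ) ∣ (x.1 : ℤ) - y.1 := by
        have := dvd_sub a3 b3
        rwa [hxy', show m j - (b + y.2 - x.1) - (m j - (b + y.2 - y.1)) = (x.1 : ℤ) - y.1 by ring]
          at this
      have h6 := Int.eq_zero_of_abs_lt_dvd h5 (by rw [abs_lt]; constructor <;> omega)
      obtain ⟨x1, x2⟩ := x
      obtain ⟨y1, y2⟩ := y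
      simp only at h6 hxy'
      have : x1 = y1 := by omega
      subst this hxy'
      rfl
  rw [card_range] at h4
  refine le_trans (Int.ofNat_le.mpr h4) ?_
  rw [Int.toNat_of_nonneg (sub_nonneg.mpr (hm j))]

/-- Sections all of whose derivatives stay in the lattice. -/
def good (b : ℤ) : Submodule k (Fin n → K) := ⨅ m : ℕ, (g.Lam b).comap (Dop d A ^ m)

lemma local_cod {p : ℕ} [Fact p.Prime] [CharP k p] (hw : P.w = P.t) (ht : d P.t = 1)
    (hp : Dop d A ^ p = 0) (b : ℤ) : Cod (g.good b) (g.Lam b) (g.cc p b) := by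
  have hW := weyl (k := k) A ht
  refine Cod.sum (range p) (fun s => mulE k n P.t ^ s * tay k (mulE k n P.t) (Dop d A) p s)
    (U := fun s => Eig P A s ⊓ g.Lam (b + s)) (V := fun s => Eig P A s ⊓ g.Lam b)
    (fun s _ => ?_) (fun v hv s hs => ⟨?_, ?_⟩) fun v hv h => ?_
  · simpa using g.jumps s b s
  · have := LinearMap.congr_fun (theta_tay (k := k) hW hp (mem_range.mp hs)) v
    rw [SetLike.mem_coe, mem_Eig, hw]
    exact this
  · exact pow_tay_mem hW (fun y hy => by simpa [hw] using g.theta_mem hy) p s hv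
  · have h1 : ∀ s ∈ range p, tay k (mulE k n P.t) (Dop d A) p s v ∈ g.Lam b := by
      intro s hs
      have := g.zpow_smul_mem (h s hs).2 (-s)
      rwa [Module.End.mul_apply, mulE_pow, smul_smul, ← zpow_natCast, ← zpow_add₀ P.t_ne,
        neg_add_cancel, zpow_zero, one_smul, add_neg_cancel_right] at this
    have key : ∀ u ∈ g.Lam b, Dop d A u = 0 → ∀ m s : ℕ,
        (Dop d A ^ m) ((mulE k n P.t ^ s) u) ∈ g.Lam b := by
      intro u hu hDu m
      induction m with
      | zero =>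
        intro s
        rw [pow_zero, Module.End.one_apply, mulE_pow]
        exact g.smul_mem_Lam hu (P.O.pow_mem P.t_mem s)
      | succ m ih =>
        intro s
        rw [pow_succ, Module.End.mul_apply]
        cases s with
        | zero => simp [hDu]
        | succ s =>
          have := LinearMap.congr_fun (D_mul_pow (k := k) hW s) u
          simp only [Module.End.mul_apply, LinearMap.add_apply, hDu, map_zero, zero_add,
            LinearMap.smul_apply] at this
          rw [this, map_smul]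
          exact Submodule.smul_mem _ _ (ih s)
    refine (Submodule.mem_iInf _).mpr fun m => ?_
    have h2 := LinearMap.congr_fun (sum_tay (k := k) (p := p) (mulE k n P.t) (Dop d A)) v
    rw [Module.End.one_apply, LinearMap.sum_apply] at h2
    rw [Submodule.mem_comap, ← h2, map_sum]
    refine Submodule.sum_mem _ fun s hs => key _ (h1 s hs) ?_ m s
    exact LinearMap.congr_fun (D_mul_tay (k := k) hW hp (mem_range.mp hs)) v

end Gauge

/-- Vectors with entries in a subalgebra. -/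
def piO (n : ℕ) (O : Subalgebra k K) : Submodule k (Fin n → K) :=
  Submodule.pi Set.univ fun _ => O.toSubmodule

lemma mem_piO {O : Subalgebra k K} {y : Fin n → K} : y ∈ piO n O ↔ ∀ j, y j ∈ O := by
  simp [piO, Submodule.mem_pi]

set_option maxHeartbeats 800000 in
theorem global_cod {p : ℕ} [Fact p.Prime] [CharP k p] {A : Matrix (Fin n) (Fin n) K}
    (hp : Dop d A ^ p = 0) {ι : Type*} (S : Finset ι) (P : ι → Place d) (g : ∀ x, Gauge (P x) A)
    (hw : ∀ x ∈ S, (P x).w = (P x).t) (ht : ∀ x ∈ S, d (P x).t = 1)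
    (Q : Place d) (h : Gauge Q A) {z : K} (hz : d z = 1) (hQw : Q.w = -z) (hQt : Q.t = z⁻¹)
    (hzP : ∀ x ∈ S, z ∈ (P x).O) (O : Subalgebra k K) (hzO : z ∈ O) (hdO : ∀ f ∈ O, d f ∈ O)
    (hA : ∀ i j, A i j ∈ O) (b : ι → ℤ) (β : ℤ) {e : ℕ}
    (he : Cod ⊥ (LinearMap.ker (Dop d A) ⊓ piO n O ⊓ (⨅ x ∈ S, (g x).Lam (b x)) ⊓ h.Lam β) e) :
    Cod ⊥ (piO n O ⊓ (⨅ x ∈ S, (g x).Lam (b x)) ⊓ h.Lam (β - (p - 1 : ℕ)))
      (p * e + h.cc p β + ∑ x ∈ S, (g x).cc p (b x)) := by
  have hW := weyl (k := k) A hz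
  have hz0 : z ≠ 0 := by rintro rfl; simp at hz
  refine Cod.trans (V := (piO n O ⊓ h.Lam (β - (p - 1 : ℕ))) ⊓ ⨅ x ∈ S, (g x).good (b x)) ?_ ?_
  · have hc : p * e + h.cc p β = ∑ u ∈ range p, (e + ∑ r ∈ range u,
        h.Res.charpoly.rootMultiplicity (((β - u + r : ℤ) : k) - 0)) := by
      rw [sum_add_distrib, sum_const, card_range, smul_eq_mul, Gauge.cc]
      refine congrArg (p * e + ·) (sum_congr rfl fun u _ => sum_congr rfl fun r _ => ?_)
      rw [sub_zero, show β + r - u = β - u + r by ring]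
    rw [hc]
    refine Cod.sum (range p) (fun u => tay k (mulE k n z) (Dop d A) p (p - 1 - u))
      (U := fun _ => ⊥) (V := fun u => LinearMap.ker (Dop d A) ⊓ piO n O ⊓
        (⨅ x ∈ S, (g x).Lam (b x)) ⊓ h.Lam (β - u)) (fun u _ => he.trans ?_)
      (fun v hv u hu => ?_) fun v hv H => ?_
    · refine (h.jumps 0 (β - u) u).mono (fun v hv => ⟨?_, hv.2⟩) (fun v hv hv' => ⟨hv.1, ?_⟩) le_rfl
      · have : Dop d A v = 0 := hv.1.1.1
        rw [SetLike.mem_coe, Gauge.mem_Eig, this, smul_zero, zero_smul]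
      · simpa using hv'.2
    · have hu' := mem_range.mp hu
      simp only [Submodule.mem_inf]
      refine ⟨⟨⟨?_, ?_⟩, ?_⟩, ?_⟩
      · exact LinearMap.congr_fun (D_mul_tay (k := k) hW hp (by omega : p - 1 - u < p)) v
      · refine tay_mem (fun y hy => mem_piO.mpr fun j => O.mul_mem hzO (mem_piO.mp hy j)) _ _
          fun m => ?_
        induction m with
        | zero => exact hv.1.1
        | succ m ih =>
          rw [pow_succ', Module.End.mul_apply]
          refine mem_piO.mpr fun j => ?_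
          rw [Dop_apply, mulVec, dotProduct]
          exact O.sub_mem (hdO _ (mem_piO.mp ih j))
            (O.sum_mem fun l _ => O.mul_mem (hA j l) (mem_piO.mp ih l))
      · refine (Submodule.mem_iInf _).mpr fun x => (Submodule.mem_iInf _).mpr fun hx => ?_
        refine tay_mem (fun y hy => (g x).smul_mem_Lam hy (hzP x hx)) _ _ fun m => ?_
        exact (Submodule.mem_iInf _).mp
          ((Submodule.mem_iInf _).mp ((Submodule.mem_iInf _).mp hv.2 x) hx) m
      · have h1 := pow_tay_mem hW (V := h.Lam (β - (p - 1 : ℕ))) (fun y hy => by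
          have := (h.Lam _).neg_mem (h.theta_mem hy)
          rwa [hQw, neg_smul, neg_neg] at this) p (p - 1 - u) hv.1.2
        have h2 := h.zpow_smul_mem h1 (p - 1 - u : ℕ)
        have e1 : β - ((p - 1 : ℕ) : ℤ) + ((p - 1 - u : ℕ) : ℤ) = β - u := by
          clear h1 h2 hc hv he
          omega
        have e2 : ∀ (m : ℕ) (y : Fin n → K), z⁻¹ ^ (m : ℤ) • z ^ m • y = y := fun m y => by
          rw [smul_smul, zpow_natCast, inv_pow, inv_mul_cancel₀ (pow_ne_zero m hz0), one_smul]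
        rw [Module.End.mul_apply, mulE_pow, hQt, e2, e1] at h2
        exact h2
    · have h2 := LinearMap.congr_fun (sum_tay (k := k) (p := p) (mulE k n z) (Dop d A)) v
      rw [Module.End.one_apply, LinearMap.sum_apply] at h2
      rw [← h2, Submodule.mem_bot]
      refine sum_eq_zero fun s hs => ?_
      have hs' := mem_range.mp hs
      have h3 := H (p - 1 - s) (mem_range.mpr (by omega))
      rw [show p - 1 - (p - 1 - s) = s by omega, Submodule.mem_bot] at h3
      rw [Module.End.mul_apply, h3, map_zero]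
  · refine Cod.sum S (fun _ => LinearMap.id) (fun x hx => (g x).local_cod (hw x hx) (ht x hx) hp
      (b x)) (fun v hv x hx => ?_) fun v hv H => ⟨⟨hv.1.1, hv.2⟩, ?_⟩
    · exact (Submodule.mem_iInf _).mp ((Submodule.mem_iInf _).mp hv.1.2 x) hx
    · exact (Submodule.mem_iInf _).mpr fun x => (Submodule.mem_iInf _).mpr fun hx => H x hx

end Pool.Agent.Lib.MP_815ef6_nt
end

-- part Pool.Agent.Lib.MP_815ef6_nt.Rat
section

/-! The derivation and the rational places of `F(z)`. -/

namespace Pool.Agent.Lib.MP_815ef6_nt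
open Finset Matrix Polynomial

noncomputable section
variable {F : Type*} [Field F] {n : ℕ}

/-- Polynomials as rational functions. -/
abbrev am : F[X] →+* RatFunc F := algebraMap F[X] (RatFunc F)

lemma am_inj {P Q : F[X]} (h : am P = am Q) : P = Q := RatFunc.algebraMap_injective F h

lemma am_ne {P : F[X]} (h : P ≠ 0) : am P ≠ 0 := RatFunc.algebraMap_ne_zero h

lemma am_X : (am X : RatFunc F) = RatFunc.X := RatFunc.algebraMap_X

lemma am_C (c : F) : (am (C c) : RatFunc F) = RatFunc.C c := RatFunc.algebraMap_C c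

lemma algebraMap_eq_am (c : F) : algebraMap F (RatFunc F) c = am (C c) := by
  rw [am_C, RatFunc.algebraMap_eq_C]

lemma mul_denom (f : RatFunc F) : f * am f.denom = am f.num := by
  conv_lhs => rw [← RatFunc.num_div_denom f]
  rw [RatFunc.num_div_denom, ← eq_div_iff (am_ne f.denom_ne_zero), RatFunc.num_div_denom]

lemma num_mul_of {f : RatFunc F} {P Q : F[X]} (h : f * am Q = am P) :
    f.num * Q = P * f.denom := by
  apply am_inj
  rw [map_mul, map_mul, ← mul_denom, ← h]
  ring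

lemma denom_dvd_of {f : RatFunc F} {P Q : F[X]} (h : f * am Q = am P) : f.denom ∣ Q :=
  f.isCoprime_num_denom.symm.dvd_of_dvd_mul_left ⟨P, by rw [num_mul_of h, mul_comm]⟩

lemma rder_mul_of {f : RatFunc F} {P Q : F[X]} (h : f * am Q = am P) :
    rder f * am (Q ^ 2) = am (derivative P * Q - P * derivative Q) := by
  have h1 := num_mul_of h
  have h2 := congrArg derivative h1
  rw [derivative_mul, derivative_mul] at h2
  rw [rder, div_mul_eq_mul_div, div_eq_iff (pow_ne_zero 2 (am_ne f.denom_ne_zero)), ← map_pow,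
    ← map_mul, ← map_mul]
  congr 1
  linear_combination (Q * f.denom) * h2 - (Q * derivative f.denom + derivative Q * f.denom) * h1

lemma rder_am (P : F[X]) : rder (am P) = am (derivative P) := by
  simpa using rder_mul_of (f := am P) (P := P) (Q := 1) (by simp)

lemma rder_add (f g : RatFunc F) : rder (f + g) = rder f + rder g := by
  have h1 := rder_mul_of (mul_denom f)
  have h2 := rder_mul_of (mul_denom g)
  have h3 := rder_mul_of (f := f + g) (Q := f.denom * g.denom)
    (P := f.num * g.denom + g.num * f.denom)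
    (by rw [map_add, map_mul, map_mul, map_mul, ← mul_denom f, ← mul_denom g]; ring)
  apply mul_right_cancel₀ (pow_ne_zero 2 (mul_ne_zero (am_ne f.denom_ne_zero)
    (am_ne g.denom_ne_zero)))
  simp only [derivative_mul, map_add, map_mul, map_sub, map_pow] at h1 h2 h3
  linear_combination h3 - am g.denom ^ 2 * h1 - am f.denom ^ 2 * h2

lemma rder_mul (f g : RatFunc F) : rder (f * g) = f * rder g + g * rder f := by
  have h1 := rder_mul_of (mul_denom f)
  have h2 := rder_mul_of (mul_denom g)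
  have h3 := rder_mul_of (f := f * g) (Q := f.denom * g.denom) (P := f.num * g.num)
    (by rw [map_mul, map_mul, ← mul_denom f, ← mul_denom g]; ring)
  have hf := mul_denom f
  have hg := mul_denom g
  apply mul_right_cancel₀ (pow_ne_zero 2 (mul_ne_zero (am_ne f.denom_ne_zero)
    (am_ne g.denom_ne_zero)))
  simp only [derivative_mul, map_add, map_mul, map_sub, map_pow] at h1 h2 h3
  rw [← hf] at h1 h3
  rw [← hg] at h2 h3
  linear_combination h3 - g * am g.denom ^ 2 * h1 - f * am f.denom ^ 2 * h2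

/-- `d/dz` as a derivation. -/
def dR (F : Type*) [Field F] : Derivation F (RatFunc F) (RatFunc F) :=
  Derivation.mk'
    { toFun := rder
      map_add' := rder_add
      map_smul' := fun c f => by
        rw [RingHom.id_apply, Algebra.smul_def, Algebra.smul_def, rder_mul, algebraMap_eq_am,
          rder_am, derivative_C, map_zero, mul_zero, add_zero] }
    fun f g => rder_mul f g

@[simp] lemma dR_apply (f : RatFunc F) : dR F f = rder f := rfl

lemma coe_dR : ⇑(dR F) = rder := rfl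

lemma dR_X : dR F RatFunc.X = 1 := by rw [← am_X, dR_apply, rder_am, derivative_X, map_one]

/-- Regularity with a value. -/
def Val : Option F → RatFunc F → F → Prop
  | some x, f, c => ∃ P Q : F[X], Q.eval x ≠ 0 ∧ f * am Q = am P ∧ P.eval x = c * Q.eval x
  | none, f, c => ∃ P Q : F[X], Q.Monic ∧ P.natDegree ≤ Q.natDegree ∧ f * am Q = am P ∧
      P.coeff Q.natDegree = c

/-- The local parameter. -/
def tt : Option F → RatFunc F
  | some x => RatFunc.X - RatFunc.C x
  | none => RatFunc.X⁻¹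

lemma tt_some (x : F) : tt (some x) = am (X - C x) := by rw [map_sub, am_X, am_C]; rfl

lemma tt_ne (x : Option F) : tt x ≠ 0 := by
  cases x with
  | none => exact inv_ne_zero RatFunc.X_ne_zero
  | some x => rw [tt_some]; exact am_ne (X_sub_C_ne_zero x)

lemma HasVal.val {x : Option F} {f : RatFunc F} {c : F} (h : HasVal x f c) : Val x f c := by
  cases x with
  | none => exact ⟨_, _, f.monic_denom, h.1, mul_denom f, h.2⟩
  | some x => exact ⟨_, _, h.1, mul_denom f, h.2⟩

namespace Val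
variable {x : Option F} {f g : RatFunc F} {a b : F}

lemma unique (h : Val x f a) (h' : Val x f b) : a = b := by
  cases x with
  | none =>
    obtain ⟨P, Q, hQ, hd, hf, rfl⟩ := h
    obtain ⟨P', Q', hQ', hd', hf', rfl⟩ := h'
    have h1 : P * Q' = Q * P' := am_inj (by rw [map_mul, map_mul, ← hf, ← hf']; ring)
    have h2 := congrArg (coeff · (Q.natDegree + Q'.natDegree)) h1
    rwa [coeff_mul_add_eq_of_natDegree_le hd le_rfl, coeff_mul_add_eq_of_natDegree_le le_rfl hd',
      hQ.coeff_natDegree, hQ'.coeff_natDegree, mul_one, one_mul] at h2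
  | some x =>
    obtain ⟨P, Q, hQ, hf, ha⟩ := h
    obtain ⟨P', Q', hQ', hf', hb⟩ := h'
    have h1 : P * Q' = Q * P' := am_inj (by rw [map_mul, map_mul, ← hf, ← hf']; ring)
    have h2 := congrArg (eval x) h1
    rw [eval_mul, eval_mul, ha, hb] at h2
    apply mul_right_cancel₀ (mul_ne_zero hQ hQ')
    linear_combination h2

lemma add (h : Val x f a) (h' : Val x g b) : Val x (f + g) (a + b) := by
  cases x with
  | none =>
    obtain ⟨P, Q, hQ, hd, hf, rfl⟩ := h
    obtain ⟨P', Q', hQ', hd', hf', rfl⟩ := h'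
    refine ⟨P * Q' + Q * P', Q * Q', hQ.mul hQ', ?_, ?_, ?_⟩
    · rw [hQ.natDegree_mul hQ']
      exact (natDegree_add_le _ _).trans (max_le (natDegree_mul_le.trans (by omega))
        (natDegree_mul_le.trans (by omega)))
    · rw [map_add, map_mul, map_mul, map_mul, ← hf, ← hf']; ring
    · rw [hQ.natDegree_mul hQ', coeff_add, coeff_mul_add_eq_of_natDegree_le hd le_rfl,
        coeff_mul_add_eq_of_natDegree_le le_rfl hd', hQ.coeff_natDegree, hQ'.coeff_natDegree,
        mul_one, one_mul]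
  | some x =>
    obtain ⟨P, Q, hQ, hf, ha⟩ := h
    obtain ⟨P', Q', hQ', hf', hb⟩ := h'
    refine ⟨P * Q' + Q * P', Q * Q', by rw [eval_mul]; exact mul_ne_zero hQ hQ', ?_, ?_⟩
    · rw [map_add, map_mul, map_mul, map_mul, ← hf, ← hf']; ring
    · rw [eval_add, eval_mul, eval_mul, eval_mul, ha, hb]; ring

lemma mul (h : Val x f a) (h' : Val x g b) : Val x (f * g) (a * b) := by
  cases x with
  | none =>
    obtain ⟨P, Q, hQ, hd, hf, rfl⟩ := h
    obtain ⟨P', Q', hQ', hd', hf', rfl⟩ := h'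
    refine ⟨P * P', Q * Q', hQ.mul hQ', ?_, ?_, ?_⟩
    · rw [hQ.natDegree_mul hQ']
      exact natDegree_mul_le.trans (by omega)
    · rw [map_mul, map_mul, ← hf, ← hf']; ring
    · rw [hQ.natDegree_mul hQ', coeff_mul_add_eq_of_natDegree_le hd hd']
  | some x =>
    obtain ⟨P, Q, hQ, hf, ha⟩ := h
    obtain ⟨P', Q', hQ', hf', hb⟩ := h'
    refine ⟨P * P', Q * Q', by rw [eval_mul]; exact mul_ne_zero hQ hQ', ?_, ?_⟩
    · rw [map_mul, map_mul, ← hf, ← hf']; ring
    · rw [eval_mul, eval_mul, ha, hb]; ring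

lemma const (x : Option F) (c : F) : Val x (am (C c)) c := by
  cases x with
  | none => exact ⟨C c, 1, monic_one, by simp, by simp, by simp⟩
  | some x => exact ⟨C c, 1, by simp, by simp, by simp⟩

lemma poly (x : F) (P : F[X]) : Val (some x) (am P) (P.eval x) :=
  ⟨P, 1, by simp, by simp, by simp⟩

lemma tt_zero (x : Option F) : Val x (tt x) 0 := by
  cases x with
  | none =>
    refine ⟨1, X, monic_X, by simp, ?_, by simp [coeff_one]⟩
    rw [am_X, map_one]
    exact inv_mul_cancel₀ RatFunc.X_ne_zero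
  | some x =>
    have := poly x (X - C x)
    rwa [eval_sub, eval_X, eval_C, sub_self, ← tt_some] at this

lemma div (h : Val x f 0) : ∃ c, Val x ((tt x)⁻¹ * f) c := by
  cases x with
  | none =>
    obtain ⟨P, Q, hQ, hd, hf, h0⟩ := h
    refine ⟨_, X * P, Q, hQ, ?_, ?_, rfl⟩
    · rcases eq_or_ne P 0 with rfl | hP
      · simp
      · rw [natDegree_X_mul hP]
        rcases hd.eq_or_lt with h | h
        · rw [← h] at h0
          exact absurd h0 (leadingCoeff_ne_zero.mpr hP)
        · omega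
    · rw [map_mul, ← hf, am_X, tt, inv_inv, mul_assoc]
  | some x =>
    obtain ⟨P, Q, hQ, hf, h0⟩ := h
    obtain ⟨P', rfl⟩ : X - C x ∣ P := dvd_iff_isRoot.mpr (by simpa using h0)
    refine ⟨P'.eval x / Q.eval x, P', Q, hQ, ?_, by field_simp⟩
    rw [mul_assoc, hf, map_mul, ← tt_some, inv_mul_cancel_left₀ (tt_ne _)]

lemma inv (h : Val x f a) (ha : a ≠ 0) : ∃ c, Val x f⁻¹ c := by
  cases x with
  | none =>
    obtain ⟨P, Q, hQ, hd, hf, rfl⟩ := h
    have hdeg : P.natDegree = Q.natDegree := le_antisymm hd (le_natDegree_of_ne_zero ha)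
    have hP : P ≠ 0 := by rintro rfl; simp at ha
    have hf0 : f ≠ 0 := by rintro rfl; exact am_ne hP (by rw [← hf, zero_mul])
    refine ⟨_, Q * C P.leadingCoeff⁻¹, P * C P.leadingCoeff⁻¹, monic_mul_leadingCoeff_inv hP,
      ?_, ?_, rfl⟩
    · rw [natDegree_mul_leadingCoeff_inv _ hP, natDegree_mul_leadingCoeff_inv _ hP, hdeg]
    · rw [map_mul, map_mul, ← hf]; field_simp
  | some x =>
    obtain ⟨P, Q, hQ, hf, h0⟩ := h
    have hPx : P.eval x ≠ 0 := by rw [h0]; exact mul_ne_zero ha hQ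
    have hP : P ≠ 0 := by rintro rfl; simp at hPx
    have hf0 : f ≠ 0 := by rintro rfl; exact am_ne hP (by rw [← hf, zero_mul])
    refine ⟨Q.eval x / P.eval x, Q, P, hPx, ?_, by field_simp⟩
    rw [← hf]; field_simp

lemma der (h : Val x f a) : Val x (wt x * rder f) 0 := by
  cases x with
  | none =>
    obtain ⟨P, Q, hQ, hd, hf, -⟩ := h
    have hX : ∀ R : F[X], (X * derivative R).natDegree ≤ R.natDegree := fun R => by
      rw [natDegree_le_iff_coeff_eq_zero]
      intro N hN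
      obtain ⟨N, rfl⟩ : ∃ M, N = M + 1 := ⟨N - 1, by omega⟩
      rw [coeff_X_mul, coeff_derivative, coeff_eq_zero_of_natDegree_lt hN, zero_mul]
    have hXc : ∀ (R : F[X]) (N : ℕ), (X * derivative R).coeff N = R.coeff N * N := fun R N => by
      cases N with
      | zero => simp
      | succ N => rw [coeff_X_mul, coeff_derivative]; push_cast; ring
    refine ⟨P * (X * derivative Q) - (X * derivative P) * Q, Q ^ 2, hQ.pow 2, ?_, ?_, ?_⟩
    · rw [hQ.natDegree_pow]
      have := hX P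
      have := hX Q
      exact (natDegree_sub_le _ _).trans (max_le (natDegree_mul_le.trans (by omega))
        (natDegree_mul_le.trans (by omega)))
    · rw [mul_assoc, rder_mul_of hf, wt, ← am_X]
      simp only [map_sub, map_mul]
      ring
    · rw [hQ.natDegree_pow, two_mul, coeff_sub, coeff_mul_add_eq_of_natDegree_le hd (hX Q),
        coeff_mul_add_eq_of_natDegree_le ((hX P).trans hd) le_rfl, hXc, hXc, hQ.coeff_natDegree]
      ring
  | some x =>
    obtain ⟨P, Q, hQ, hf, -⟩ := h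
    refine ⟨(X - C x) * (derivative P * Q - P * derivative Q), Q ^ 2,
      by rw [eval_pow]; exact pow_ne_zero 2 hQ, ?_, by simp⟩
    rw [mul_assoc, rder_mul_of hf, map_mul, ← tt_some]
    rfl

end Val

lemma wt_der (x : Option F) : wt x * rder (tt x) = tt x := by
  cases x with
  | none =>
    have := (dR F).leibniz_inv RatFunc.X
    rw [dR_X, dR_apply] at this
    rw [tt, this, wt, smul_eq_mul]
    have := RatFunc.X_ne_zero (K := F)
    field_simp
  | some x =>
    have : wt (some x) = tt (some x) := rfl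
    rw [this, tt_some, rder_am]
    simp

open Classical in
/-- The value of a rational function. -/
def evv (x : Option F) (f : RatFunc F) : F := if h : ∃ c, Val x f c then h.choose else 0

lemma Val.evv_eq {x : Option F} {f : RatFunc F} {c : F} (h : Val x f c) : evv x f = c := by
  have h' : ∃ c, Val x f c := ⟨c, h⟩
  rw [evv, dif_pos h']
  exact h'.choose_spec.unique h

/-- The place of `F(z)` at a rational point. -/
def place (x : Option F) : Place (dR F) where
  O :=
    { carrier := {f | ∃ c, Val x f c}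
      mul_mem' := fun ⟨_, ha⟩ ⟨_, hb⟩ => ⟨_, ha.mul hb⟩
      add_mem' := fun ⟨_, ha⟩ ⟨_, hb⟩ => ⟨_, ha.add hb⟩
      algebraMap_mem' := fun c => ⟨c, by rw [algebraMap_eq_am]; exact Val.const x c⟩ }
  ev := evv x
  ev_add := fun _ ⟨_, ha⟩ _ ⟨_, hb⟩ => by rw [(ha.add hb).evv_eq, ha.evv_eq, hb.evv_eq]
  ev_mul := fun _ ⟨_, ha⟩ _ ⟨_, hb⟩ => by rw [(ha.mul hb).evv_eq, ha.evv_eq, hb.evv_eq]
  ev_const := fun c => by rw [algebraMap_eq_am]; exact (Val.const x c).evv_eq
  t := tt x
  t_ne := tt_ne x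
  t_mem := ⟨0, Val.tt_zero x⟩
  ev_t := (Val.tt_zero x).evv_eq
  div_mem := fun _ ⟨_, ha⟩ h => by
    rw [ha.evv_eq] at h
    subst h
    exact ha.div
  inv_mem := fun _ ⟨_, ha⟩ h => by
    rw [ha.evv_eq] at h
    exact ha.inv h
  w := wt x
  w_t := wt_der x
  der_mem := fun _ ⟨_, ha⟩ => ⟨0, ha.der⟩
  ev_der := fun _ ⟨_, ha⟩ => ha.der.evv_eq

lemma mem_place {x : Option F} {f : RatFunc F} : f ∈ (place x).O ↔ ∃ c, Val x f c := Iff.rfl

lemma Val.mem {x : Option F} {f : RatFunc F} {c : F} (h : Val x f c) : f ∈ (place x).O := ⟨c, h⟩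

lemma Val.ev {x : Option F} {f : RatFunc F} {c : F} (h : Val x f c) : (place x).ev f = c :=
  h.evv_eq

lemma val_ev {x : Option F} {f : RatFunc F} (h : f ∈ (place x).O) : Val x f ((place x).ev f) := by
  obtain ⟨c, hc⟩ := h
  rwa [hc.ev]

@[simp] lemma place_t (x : Option F) : (place x).t = tt x := rfl

@[simp] lemma place_w (x : Option F) : (place x).w = wt x := rfl

end
end Pool.Agent.Lib.MP_815ef6_nt
end

-- part Pool.Agent.Lib.MP_815ef6_nt.CharP
section

/-! The count of horizontal sections over `k(z)` in characteristic `p`. -/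

namespace Pool.Agent.Lib.MP_815ef6_nt
open Finset Matrix Polynomial

noncomputable section
variable {F : Type*} [Field F] {n : ℕ}

/-- `F[z, 1/Ω]`. -/
def OS (Ω : F[X]) : Subalgebra F (RatFunc F) where
  carrier := {f | ∃ (s : ℕ) (P : F[X]), f * am Ω ^ s = am P}
  mul_mem' := fun ⟨s, P, h⟩ ⟨s', P', h'⟩ =>
    ⟨s + s', P * P', by rw [map_mul, ← h, ← h']; ring⟩
  add_mem' := fun ⟨s, P, h⟩ ⟨s', P', h'⟩ =>
    ⟨s + s', P * Ω ^ s' + P' * Ω ^ s, by
      rw [map_add, map_mul, map_mul, map_pow, map_pow, ← h, ← h']; ring⟩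
  algebraMap_mem' := fun c => ⟨0, C c, by rw [algebraMap_eq_am, pow_zero, mul_one]⟩

lemma am_mem_OS (Ω P : F[X]) : am P ∈ OS Ω := ⟨0, P, by simp⟩

lemma X_mem_OS (Ω : F[X]) : RatFunc.X ∈ OS Ω := am_X (F := F) ▸ am_mem_OS Ω X

lemma der_mem_OS {Ω : F[X]} {f : RatFunc F} (h : f ∈ OS Ω) : rder f ∈ OS Ω := by
  obtain ⟨s, P, h⟩ := h
  refine ⟨s * 2, derivative P * Ω ^ s - P * derivative (Ω ^ s), ?_⟩
  rw [← rder_mul_of (f := f) (by rw [map_pow]; exact h), pow_mul, map_pow, map_pow]

lemma Place.zpow_mem {k K : Type*} [Field k] [Field K] [Algebra k K] {d : Derivation k K K}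
    (P : Place d) {f : K} (hf : f ∈ P.O) (h0 : P.ev f ≠ 0) (a : ℤ) : f ^ a ∈ P.O := by
  cases a with
  | ofNat a => simpa using P.O.pow_mem hf a
  | negSucc a => simpa using P.O.pow_mem (P.inv_mem f hf h0) (a + 1)

lemma Place.t_zpow_mem {k K : Type*} [Field k] [Field K] [Algebra k K] {d : Derivation k K K}
    (P : Place d) {a : ℤ} (ha : 0 ≤ a) : P.t ^ a ∈ P.O := by
  obtain ⟨a, rfl⟩ := Int.eq_ofNat_of_zero_le ha
  simpa using P.O.pow_mem P.t_mem a

lemma Place.mem_mono {k K : Type*} [Field k] [Field K] [Algebra k K] {d : Derivation k K K}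
    (P : Place d) {a b : ℤ} (hab : a ≤ b) {f : K} (hf : P.t ^ a * f ∈ P.O) : P.t ^ b * f ∈ P.O := by
  have := P.O.mul_mem (P.t_zpow_mem (sub_nonneg.mpr hab)) hf
  rwa [← mul_assoc, ← zpow_add₀ P.t_ne, sub_add_cancel] at this

variable {ι : Type*} {S : Finset ι} {pt : ι → F}

/-- `∏ (z - x)`. -/
def Om (S : Finset ι) (pt : ι → F) : F[X] := ∏ x ∈ S, (X - C (pt x))

/-- `∏ (z - x) ^ a x`. -/
def uu (S : Finset ι) (pt : ι → F) (a : ι → ℤ) : RatFunc F := ∏ x ∈ S, tt (some (pt x)) ^ a x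

lemma Om_monic : (Om S pt).Monic := monic_prod_of_monic _ _ fun _ _ => monic_X_sub_C _

lemma uu_ne (a : ι → ℤ) : uu S pt a ≠ 0 := prod_ne_zero_iff.mpr fun _ _ => zpow_ne_zero _ (tt_ne _)

lemma uu_neg (a : ι → ℤ) : uu S pt (fun x => -a x) = (uu S pt a)⁻¹ := by
  simp [uu, prod_inv_distrib]

lemma tt_inv_mem_OS {x : ι} (hx : x ∈ S) : (tt (some (pt x)))⁻¹ ∈ OS (Om S pt) := by
  classical
  refine ⟨1, ∏ y ∈ S.erase x, (X - C (pt y)), ?_⟩
  rw [pow_one, Om, ← mul_prod_erase S _ hx, map_mul, ← tt_some, inv_mul_cancel_left₀ (tt_ne _)]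

lemma uu_mem_OS (a : ι → ℤ) : uu S pt a ∈ OS (Om S pt) := by
  refine Subalgebra.prod_mem _ fun x hx => ?_
  cases a x with
  | ofNat a =>
    have := (OS (Om S pt)).pow_mem (am_mem_OS _ (X - C (pt x))) a
    rw [← tt_some] at this
    simpa using this
  | negSucc a => simpa using (OS (Om S pt)).pow_mem (tt_inv_mem_OS hx) (a + 1)

lemma poly_of_mem {f : RatFunc F} (h : f ∈ OS (Om S pt))
    (h' : ∀ x ∈ S, f ∈ (place (some (pt x))).O) : ∃ P, f = am P := by
  obtain ⟨s, P, h⟩ := h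
  have h1 : f.denom ∣ Om S pt ^ s := denom_dvd_of (P := P) (by rw [map_pow]; exact h)
  have h2 : IsCoprime f.denom (Om S pt ^ s) := by
    refine IsCoprime.pow_right (IsCoprime.prod_right fun x hx => ?_)
    obtain ⟨c, P', Q', hQ, hf, -⟩ := h' x hx
    refine ((irreducible_X_sub_C (pt x)).coprime_iff_not_dvd.mpr fun hd => hQ ?_).symm
    exact dvd_iff_isRoot.mp (hd.trans (denom_dvd_of hf))
  have h3 : f.denom = 1 := f.monic_denom.eq_one_of_isUnit (h2.isUnit_of_dvd h1)
  exact ⟨f.num, by rw [← mul_denom, h3, map_one, mul_one]⟩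

lemma uu_fin (hinj : Set.InjOn pt S) (a : ι → ℤ) {x : ι} (hx : x ∈ S) :
    tt (some (pt x)) ^ (-a x) * uu S pt a ∈ (place (some (pt x))).O := by
  classical
  rw [uu, ← mul_prod_erase S _ hx, ← mul_assoc, ← zpow_add₀ (tt_ne _), neg_add_cancel, zpow_zero,
    one_mul]
  refine Subalgebra.prod_mem _ fun y hy => ?_
  have hv := Val.poly (pt x) (X - C (pt y))
  rw [← tt_some] at hv
  refine Place.zpow_mem _ hv.mem ?_ _
  rw [hv.ev, eval_sub, eval_X, eval_C, sub_ne_zero]
  exact fun h => (mem_erase.mp hy).1 (hinj (mem_erase.mp hy).2 hx h.symm)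

lemma tt_none : (tt none : RatFunc F) = RatFunc.X⁻¹ := rfl

lemma val_inf_tt (c : F) : Val none (tt none * tt (some c)) 1 := by
  refine ⟨X - C c, X, monic_X, by simp, ?_, by simp⟩
  rw [← tt_some, am_X, mul_right_comm, tt_none, inv_mul_cancel₀ RatFunc.X_ne_zero, one_mul]

lemma uu_inf (a : ι → ℤ) : tt none ^ (∑ x ∈ S, a x) * uu S pt a ∈ (place (none : Option F)).O := by
  have h : tt none ^ (∑ x ∈ S, a x) * uu S pt a = ∏ x ∈ S, (tt none * tt (some (pt x))) ^ a x := by
    classical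
    rw [uu]
    induction S using Finset.induction_on with
    | empty => simp
    | insert y S hy ih =>
      rw [sum_insert hy, prod_insert hy, prod_insert hy, ← ih, zpow_add₀ (tt_ne _), mul_zpow]
      ring
  rw [h]
  refine Subalgebra.prod_mem _ fun x _ => Place.zpow_mem _ (val_inf_tt _).mem ?_ _
  rw [(val_inf_tt _).ev]
  exact one_ne_zero

lemma poly_inf {P : F[X]} {e : ℤ} (h : (P.natDegree : ℤ) ≤ e) :
    tt none ^ e * am P ∈ (place (none : Option F)).O := by
  refine Place.mem_mono (place none) h ⟨_, P, X ^ P.natDegree, monic_X_pow _, by simp, ?_, rfl⟩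
  rw [map_pow, am_X, place_t, tt, zpow_natCast, inv_pow, mul_right_comm,
    inv_mul_cancel₀ (pow_ne_zero _ RatFunc.X_ne_zero), one_mul]

lemma deg_of_inf {P : F[X]} {e : ℤ} (h : tt none ^ e * am P ∈ (place (none : Option F)).O)
    (hP : P ≠ 0) : (P.natDegree : ℤ) ≤ e := by
  obtain ⟨c, P', Q, hQ, hd, hf, -⟩ := h
  obtain ⟨a, b, rfl⟩ : ∃ a b : ℕ, e = a - b := ⟨e.toNat, (-e).toNat, by omega⟩
  have hX := RatFunc.X_ne_zero (K := F)
  have h1 : X ^ b * (P * Q) = X ^ a * P' := by
    apply am_inj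
    rw [map_mul, map_mul, map_mul, ← hf, map_pow, map_pow, am_X, tt, zpow_sub₀ (inv_ne_zero hX),
      zpow_natCast, zpow_natCast, inv_pow, inv_pow]
    field_simp
  have hP' : P' ≠ 0 := by
    rintro rfl
    exact mul_ne_zero (pow_ne_zero b X_ne_zero) (mul_ne_zero hP hQ.ne_zero) (by rw [h1, mul_zero])
  have h2 := congrArg natDegree h1
  rw [natDegree_mul (pow_ne_zero b X_ne_zero) (mul_ne_zero hP hQ.ne_zero),
    natDegree_mul (pow_ne_zero a X_ne_zero) hP', natDegree_mul hP hQ.ne_zero, natDegree_X_pow,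
    natDegree_X_pow] at h2
  omega

/-- The polynomial vector with given coefficients. -/
def vecP {R : Type*} [CommRing R] {M : ℕ} (c : Fin n × Fin M → R) (j : Fin n) : R[X] :=
  ∑ i : Fin M, monomial i (c (j, i))

lemma coeff_vecP {R : Type*} [CommRing R] {M : ℕ} (c : Fin n × Fin M → R) (j : Fin n)
    (i : Fin M) : (vecP c j).coeff i = c (j, i) := by
  rw [vecP, finsetSum_coeff, sum_eq_single i]
  · simp
  · intro b _ hb
    rw [coeff_monomial, if_neg fun h => hb (Fin.ext h)]
  · simp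

lemma natDegree_vecP {M : ℕ} (c : Fin n × Fin M → F) (j : Fin n) :
    (vecP c j).natDegree ≤ M - 1 := by
  refine natDegree_sum_le_of_forall_le _ _ fun i _ => (natDegree_monomial_le _).trans ?_
  have := i.2
  omega

lemma exists_vecP {M : ℕ} (P : Fin n → F[X]) (h : ∀ j, P j ≠ 0 → (P j).natDegree < M) :
    ∃ c : Fin n × Fin M → F, ∀ j, vecP c j = P j := by
  refine ⟨fun a => (P a.1).coeff a.2, fun j => ?_⟩
  rcases eq_or_ne (P j) 0 with h0 | h0
  · simp [vecP, h0]
  · rw [vecP, Fin.sum_univ_eq_sum_range (fun i => monomial i ((P j).coeff i)) M,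
      ← as_sum_range' _ _ (h j h0)]

/-- `c ↦ u · (polynomial vector with coefficients c)`. -/
def vecL (u : RatFunc F) (n M : ℕ) : (Fin n × Fin M → F) →ₗ[F] (Fin n → RatFunc F) where
  toFun c := fun j => u * am (vecP c j)
  map_add' c c' := by
    ext j
    simp [vecP, sum_add_distrib, mul_add]
  map_smul' c c' := by
    ext j
    simp only [vecP, Pi.smul_apply, smul_eq_mul, RingHom.id_apply, Algebra.smul_def,
      algebraMap_eq_am]
    rw [mul_left_comm, ← map_mul, mul_sum]
    simp only [C_mul_monomial]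

lemma vecL_apply (u : RatFunc F) {M : ℕ} (c : Fin n × Fin M → F) (j : Fin n) :
    vecL u n M c j = u * am (vecP c j) := rfl

lemma vecL_inj {u : RatFunc F} (hu : u ≠ 0) (M : ℕ) : LinearMap.ker (vecL u n M) = ⊥ := by
  rw [LinearMap.ker_eq_bot']
  intro c hc
  ext ⟨j, i⟩
  have h : u * am (vecP c j) = 0 := congrFun hc j
  have h2 : vecP c j = 0 := am_inj (by rw [map_zero]; exact (mul_eq_zero.mp h).resolve_left hu)
  rw [← coeff_vecP c j i, h2, coeff_zero, Pi.zero_apply]

lemma Gauge.mem_of {k K : Type*} [Field k] [Field K] [Algebra k K] {d : Derivation k K K}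
    {P : Place d} {A : Matrix (Fin n) (Fin n) K} (g : Gauge P A) {C : ℕ}
    (hC : ∀ i j, P.t ^ C * g.H i j ∈ P.O) {b : ℤ} {y : Fin n → K}
    (hy : ∀ j, P.t ^ (-(b + C)) * y j ∈ P.O) : y ∈ g.Lam b := fun j => by
  rw [mulVec, dotProduct, mul_sum]
  refine P.O.sum_mem fun l _ => ?_
  have := P.O.mul_mem (hC j l) (hy l)
  rwa [mul_mul_mul_comm, ← zpow_natCast, ← zpow_add₀ P.t_ne,
    show (C : ℤ) + -(b + C) = -b by ring] at this

lemma Gauge.of_mem {k K : Type*} [Field k] [Field K] [Algebra k K] {d : Derivation k K K}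
    {P : Place d} {A : Matrix (Fin n) (Fin n) K} (g : Gauge P A) {C : ℕ}
    (hC : ∀ i j, P.t ^ C * g.G i j ∈ P.O) {b : ℤ} {y : Fin n → K} (hy : y ∈ g.Lam b) (j : Fin n) :
    P.t ^ ((C : ℤ) - b) * y j ∈ P.O := by
  have h : y = g.G *ᵥ (g.H *ᵥ y) := by rw [mulVec_mulVec, g.hGH, one_mulVec]
  rw [h, mulVec, dotProduct, mul_sum]
  refine P.O.sum_mem fun l _ => ?_
  have := P.O.mul_mem (hC j l) (hy l)
  rwa [mul_mul_mul_comm, ← zpow_natCast, ← zpow_add₀ P.t_ne, ← sub_eq_add_neg] at this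

theorem charP_ineq {p : ℕ} [Fact p.Prime] [CharP F p] {A : Matrix (Fin n) (Fin n) (RatFunc F)}
    (hp : Dop (dR F) A ^ p = 0) (hinj : Set.InjOn pt S)
    (g : ∀ x, Gauge (place (some (pt x))) A) (h : Gauge (place none) A) {B : ℕ}
    (hG : ∀ x ∈ S, ∀ i j, tt (some (pt x)) ^ B * (g x).G i j ∈ (place (some (pt x))).O)
    (hH : ∀ x ∈ S, ∀ i j, tt (some (pt x)) ^ B * (g x).H i j ∈ (place (some (pt x))).O)
    (hG' : ∀ i j, tt none ^ B * h.G i j ∈ (place (none : Option F)).O)
    (hH' : ∀ i j, tt none ^ B * h.H i j ∈ (place (none : Option F)).O)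
    (hA : ∀ i j, A i j ∈ OS (Om S pt)) (b : ι → ℤ) (β : ℤ) (m : ι → Fin n → ℤ) (m' : Fin n → ℤ)
    (hm : ∀ x ∈ S, ∀ j, b x ≤ m x j) (hm' : ∀ j, β ≤ m' j)
    (hc : ∀ x ∈ S, (g x).Res.charpoly = ∏ j, (X - C (m x j : F)))
    (hc' : h.Res.charpoly = ∏ j, (X - C (m' j : F)))
    (a : ι → ℤ) (ha : ∀ x ∈ S, a x + B ≤ b x) (M : ℕ) (hM : (B : ℤ) - β - ∑ x ∈ S, a x < M) {e : ℕ}
    (he : Module.finrank F (LinearMap.ker (Dop (dR F) A ∘ₗ vecL (uu S pt a) n M)) ≤ e) :
    (n : ℤ) * (p - β - B - ∑ x ∈ S, (b x + B)) ≤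
      p * e + ∑ j, (m' j - β) + ∑ x ∈ S, ∑ j, (m x j - b x) := by
  have hp0 : 0 < p := (Fact.out : p.Prime).pos
  have h1 := global_cod hp S (fun x => place (some (pt x))) g (fun _ _ => rfl)
    (fun x _ => by rw [place_t, tt_some, dR_apply, rder_am]; simp) (place none) h dR_X rfl rfl
    (fun x _ => am_X (F := F) ▸ (Val.poly (pt x) X).mem) (OS (Om S pt)) (X_mem_OS _)
    (fun _ hf => der_mem_OS hf) hA b β (e := e) ?_
  · have h2 : (n : ℤ) * (p - β - B - ∑ x ∈ S, (b x + B)) ≤
        ((p * e + h.cc p β + ∑ x ∈ S, (g x).cc p (b x) : ℕ) : ℤ) := by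
      rcases le_or_gt (p - β - B - ∑ x ∈ S, (b x + B)) 0 with h0 | h0
      · exact (mul_nonpos_of_nonneg_of_nonpos (Int.natCast_nonneg n) h0).trans
          (Int.natCast_nonneg _)
      obtain ⟨N, hN⟩ := Int.eq_ofNat_of_zero_le h0.le
      have h3 := h1.card_le ((Pi.basisFun F (Fin n × Fin N)).linearIndependent.map' _
        (vecL_inj (uu_ne (S := S) (pt := pt) fun x => b x + B) N)) fun c => ?_
      · rw [hN]
        simp only [Fintype.card_prod, Fintype.card_fin] at h3
        exact_mod_cast h3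
      · simp only [Function.comp_apply, Submodule.mem_inf]
        generalize (Pi.basisFun F (Fin n × Fin N)) c = c
        refine ⟨⟨mem_piO.mpr fun j => Subalgebra.mul_mem _ (uu_mem_OS _) (am_mem_OS _ _), ?_⟩, ?_⟩
        · refine (Submodule.mem_iInf _).mpr fun x => (Submodule.mem_iInf _).mpr fun hx => ?_
          refine (g x).mem_of (hH x hx) fun j => ?_
          rw [vecL_apply, ← mul_assoc]
          exact Subalgebra.mul_mem _ (uu_fin hinj (fun x => b x + B) hx) (Val.poly _ _).mem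
        · refine h.mem_of hH' fun j => ?_
          have h4 := Subalgebra.mul_mem _ (uu_inf (S := S) (pt := pt) fun x => b x + B)
            (poly_inf (P := vecP c j) (e := N - 1) (by have := natDegree_vecP c j; omega))
          rwa [mul_mul_mul_comm, ← zpow_add₀ (tt_ne _), show ∑ x ∈ S, (b x + B) + ((N : ℤ) - 1) =
            -(β - (p - 1 : ℕ) + B) by omega] at h4
    refine h2.trans ?_
    push_cast
    exact add_le_add (add_le_add le_rfl (h.cc_le hm' hc'))
      (sum_le_sum fun x hx => (g x).cc_le (hm x hx) (hc x hx))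
  · refine (Cod.of_finrank (V := (LinearMap.ker (Dop (dR F) A ∘ₗ vecL (uu S pt a) n M)).map
      (vecL (uu S pt a) n M)) ((Submodule.finrank_map_le _ _).trans he)).mono ?_
      (fun _ _ h => h) le_rfl
    intro y hy
    simp only [Submodule.mem_inf] at hy
    obtain ⟨⟨⟨hy1, hy2⟩, hy3⟩, hy4⟩ := hy
    have h2 : ∀ j, ∃ P, (uu S pt a)⁻¹ * y j = am P := fun j => by
      rw [← uu_neg]
      refine poly_of_mem (Subalgebra.mul_mem _ (uu_mem_OS _) (mem_piO.mp hy2 j)) fun x hx => ?_
      have h3 := (g x).of_mem (hG x hx)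
        ((Submodule.mem_iInf _).mp ((Submodule.mem_iInf _).mp hy3 x) hx) j
      have h4 := Subalgebra.mul_mem _ (uu_fin hinj (fun x => -a x) hx)
        (Place.mem_mono _ (b := -a x) (by have := ha x hx; omega) h3)
      rwa [place_t, mul_mul_mul_comm, ← zpow_add₀ (tt_ne _), neg_add_cancel, zpow_zero,
        one_mul] at h4
    choose P hP using h2
    obtain ⟨c, hc⟩ := exists_vecP (M := M) P fun j hj => by
      have h3 := Subalgebra.mul_mem _ (uu_inf (S := S) (pt := pt) fun x => -a x) (h.of_mem hG' hy4 j)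
      rw [place_t, mul_mul_mul_comm, ← zpow_add₀ (tt_ne _), uu_neg, hP j] at h3
      have h4 := deg_of_inf h3 hj
      rw [sum_neg_distrib] at h4
      omega
    have h5 : vecL (uu S pt a) n M c = y := by
      ext j
      rw [vecL_apply, hc, ← hP, mul_inv_cancel_left₀ (uu_ne _)]
    refine ⟨c, ?_, h5⟩
    rw [SetLike.mem_coe, LinearMap.mem_ker, LinearMap.comp_apply, h5]
    exact hy1

end
end Pool.Agent.Lib.MP_815ef6_nt
end

-- part Pool.Agent.Lib.MP_815ef6_nt.Dorm
section

/-! `A_p = 0` in characteristic `p` means that the `p`-th powers of the connection and of its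
dual vanish. -/

namespace Pool.Agent.Lib.MP_815ef6_nt
open Finset Matrix Polynomial

variable {F : Type*} [Field F] {n : ℕ}

lemma dual_pow_single (A : Matrix (Fin n) (Fin n) (RatFunc F)) (m : ℕ) (i : Fin n) :
    (Dop (dR F) (-Aᵀ) ^ m) (Pi.single i 1) = Aseq A m i := by
  induction m with
  | zero => ext j; simp [Aseq, one_apply, Pi.single_apply, eq_comm]
  | succ m ih =>
    rw [pow_succ', Module.End.mul_apply, ih]
    ext j
    simp [Dop_apply, Aseq, mulVec, dotProduct, mul_apply, mul_comm]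

lemma Dop_pow_smul (B : Matrix (Fin n) (Fin n) (RatFunc F)) {c : RatFunc F} (hc : rder c = 0)
    (m : ℕ) (y : Fin n → RatFunc F) :
    (Dop (dR F) B ^ m) (c • y) = c • (Dop (dR F) B ^ m) y := by
  induction m with
  | zero => simp
  | succ m ih =>
    rw [pow_succ', Module.End.mul_apply, Module.End.mul_apply, ih, Dop_smul, dR_apply, hc,
      zero_smul, zero_add]

lemma weyl_pow_comm {R : Type*} [Ring R] [Algebra F R] {T D : R} (hW : D * T = T * D + 1) {q : ℕ}
    [CharP F (q + 1)] : T * D ^ (q + 1) = D ^ (q + 1) * T := by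
  have h1 := D_mul_pow (k := F) (T := D) (D := -T) (by rw [neg_mul, mul_neg, hW]; abel) q
  rwa [CharP.cast_eq_zero F (q + 1), zero_smul, add_zero, neg_mul, mul_neg, neg_inj] at h1

lemma Dop_pow_eq_zero {p : ℕ} [Fact p.Prime] [CharP F p] (B : Matrix (Fin n) (Fin n) (RatFunc F))
    (h : ∀ i, (Dop (dR F) B ^ p) (Pi.single i 1) = 0) : Dop (dR F) B ^ p = 0 := by
  have hp0 : 0 < p := (Fact.out : p.Prime).pos
  obtain ⟨q, rfl⟩ : ∃ q, p = q + 1 := ⟨p - 1, by omega⟩
  have hW := weyl (k := F) B dR_X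
  have h1 := weyl_pow_comm (F := F) (q := q) hW
  have h2 : ∀ (P : F[X]) (y : Fin n → RatFunc F), (Dop (dR F) B ^ (q + 1)) y = 0 →
      (Dop (dR F) B ^ (q + 1)) (am P • y) = 0 := by
    intro P y hy
    induction P using Polynomial.induction_on with
    | C a => rw [← algebraMap_eq_am, algebraMap_smul, map_smul, hy, smul_zero]
    | add P Q hP hQ => rw [map_add, add_smul, map_add, hP, hQ, add_zero]
    | monomial m a ih =>
      have := LinearMap.congr_fun h1 (am (C a * X ^ m) • y)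
      rw [Module.End.mul_apply, Module.End.mul_apply, ih, map_zero, mulE_apply, smul_smul] at this
      rw [pow_succ X m, ← mul_assoc, map_mul, am_X, mul_comm, ← this]
  refine LinearMap.ext fun y => ?_
  have h3 : y = ∑ i, y i • Pi.single i (1 : RatFunc F) := by
    ext j; simp [Pi.single_apply]
  rw [h3, map_sum, LinearMap.zero_apply]
  refine sum_eq_zero fun i _ => ?_
  have hd := am_ne (y i).denom_ne_zero
  have h4 : y i = (am (y i).denom ^ (q + 1))⁻¹ * am ((y i).num * (y i).denom ^ q) := by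
    rw [map_mul, map_pow, ← mul_denom]
    field_simp
    ring
  have h5 : rder (am (y i).denom ^ (q + 1))⁻¹ = 0 := by
    have := (dR F).leibniz_pow (a := am (y i).denom) (q + 1)
    rw [← Nat.cast_smul_eq_nsmul F, CharP.cast_eq_zero F (q + 1), zero_smul] at this
    rw [← dR_apply, Derivation.leibniz_inv, this, smul_zero]
  rw [h4, mul_smul, Dop_pow_smul _ h5, h2 _ _ (h i), smul_zero]

lemma rder_iterate {p : ℕ} [Fact p.Prime] [CharP F p] (f : RatFunc F) : rder^[p] f = 0 := by
  have h1 : ∀ (m : ℕ) (y : Fin 1 → RatFunc F), (Dop (dR F) 0 ^ m) y 0 = rder^[m] (y 0) := by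
    intro m y
    induction m with
    | zero => simp
    | succ m ih =>
      rw [pow_succ', Module.End.mul_apply, Dop_apply, ih, Function.iterate_succ_apply']
      simp
  have h2 := Dop_pow_eq_zero (p := p) (0 : Matrix (Fin 1) (Fin 1) (RatFunc F)) fun i => by
    obtain ⟨q, hq⟩ : ∃ q, p = q + 1 := ⟨p - 1, by have := (Fact.out : p.Prime).pos; omega⟩
    have : Dop (dR F) 0 (Pi.single i (1 : RatFunc F)) = 0 := by
      ext j
      rw [Dop_apply, Subsingleton.elim j i]
      simp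
    rw [hq, pow_succ, Module.End.mul_apply, this, map_zero]
  rw [← h1 p fun _ => f, h2]
  rfl

lemma der_dot (A : Matrix (Fin n) (Fin n) (RatFunc F)) (r y : Fin n → RatFunc F) :
    rder (r ⬝ᵥ y) = Dop (dR F) (-Aᵀ) r ⬝ᵥ y + r ⬝ᵥ Dop (dR F) A y := by
  have h1 : Dop (dR F) (-Aᵀ) r = (fun i => rder (r i)) + r ᵥ* A := by
    ext i; simp [Dop_apply, neg_mulVec, mulVec_transpose]
  have h2 : Dop (dR F) A y = (fun i => rder (y i)) - A *ᵥ y := rfl
  have h3 : rder (r ⬝ᵥ y) = (fun i => rder (r i)) ⬝ᵥ y + r ⬝ᵥ fun i => rder (y i) := by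
    rw [← dR_apply, dotProduct, map_sum, dotProduct, dotProduct, ← sum_add_distrib]
    exact sum_congr rfl fun i _ => by rw [dR_apply, rder_mul]; ring
  rw [h1, h2, h3, add_dotProduct, dotProduct_sub, dotProduct_mulVec]
  ring

theorem dorm_of_Aseq {p : ℕ} [Fact p.Prime] [CharP F p] {A : Matrix (Fin n) (Fin n) (RatFunc F)}
    (h : Aseq A p = 0) : Dop (dR F) (-Aᵀ) ^ p = 0 ∧ Dop (dR F) A ^ p = 0 := by
  have h1 : Dop (dR F) (-Aᵀ) ^ p = 0 :=
    Dop_pow_eq_zero _ fun i => by rw [dual_pow_single, h]; rfl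
  refine ⟨h1, LinearMap.ext fun y => funext fun i => ?_⟩
  have h2 : ∀ r, Dop (dR F) (-Aᵀ) r = 0 → ∀ m : ℕ,
      r ⬝ᵥ (Dop (dR F) A ^ m) y = rder^[m] (r ⬝ᵥ y) := by
    intro r hr m
    induction m with
    | zero => simp
    | succ m ih =>
      rw [Function.iterate_succ_apply', ← ih, der_dot A, hr, zero_dotProduct, zero_add, pow_succ',
        Module.End.mul_apply]
  have hW := weyl (k := F) (-Aᵀ) dR_X
  have h3 := LinearMap.congr_fun
    (sum_tay (k := F) (p := p) (mulE F n RatFunc.X) (Dop (dR F) (-Aᵀ))) (Pi.single i 1)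
  rw [Module.End.one_apply, LinearMap.sum_apply] at h3
  have h4 : (Dop (dR F) A ^ p) y i = Pi.single i 1 ⬝ᵥ (Dop (dR F) A ^ p) y := by simp
  rw [h4, ← h3, sum_dotProduct]
  refine sum_eq_zero fun s hs => ?_
  rw [Module.End.mul_apply, mulE_pow, smul_dotProduct, h2 _ (LinearMap.congr_fun
    (D_mul_tay (k := F) hW h1 (mem_range.mp hs)) _), rder_iterate, smul_zero]

end Pool.Agent.Lib.MP_815ef6_nt
end
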