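import Pool.Agent.Lib.MP_815ef6_nt.Dorm

-- part Pool.Agent.Lib.MP_815ef6_nt.Red
section

/-! Reduction of constants, polynomials and rational functions along `φ : R → k`. -/

namespace Pool.Agent.Lib.MP_815ef6_nt
open Finset Matrix Polynomial Filter

noncomputable section
variable {E : Type*} [Field E] {k : Type*} [Field k] {R : Subring E} {n : ℕ}

/-- Reduction of constants. -/
def RedC (φ : R →+* k) (a : E) (b : k) : Prop := ∃ h : a ∈ R, φ ⟨a, h⟩ = b

/-- Reduction of polynomials. -/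
def RedP (φ : R →+* k) (P : E[X]) (Q : k[X]) : Prop :=
  ∃ P₀ : R[X], P₀.map R.subtype = P ∧ P₀.map φ = Q

/-- Reduction of rational functions. -/
def Red (φ : R →+* k) (f : RatFunc E) (g : RatFunc k) : Prop :=
  ∃ P Q P' Q', RedP φ P P' ∧ RedP φ Q Q' ∧ Q' ≠ 0 ∧ f * am Q = am P ∧ g * am Q' = am P'

open Classical in
/-- Total version of the reduction of constants. -/
def hat (φ : R →+* k) (a : E) : k := if h : a ∈ R then φ ⟨a, h⟩ else 0

open Classical in
/-- Total version of the reduction of rational functions. -/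
def red (φ : R →+* k) (f : RatFunc E) : RatFunc k :=
  if h : ∃ g, Red φ f g then h.choose else 0

variable {φ : R →+* k}

lemma redC_hat (φ : R →+* k) {a : E} (h : a ∈ R) : RedC φ a (hat φ a) :=
  ⟨h, by rw [hat, dif_pos h]⟩

namespace RedC
variable {a a' : E} {b b' : k}

lemma unique (h : RedC φ a b) (h' : RedC φ a b') : b = b' := h.2.symm.trans h'.2

lemma add (h : RedC φ a b) (h' : RedC φ a' b') : RedC φ (a + a') (b + b') :=
  ⟨R.add_mem h.1 h'.1, by rw [← h.2, ← h'.2, ← map_add]; rfl⟩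

lemma mul (h : RedC φ a b) (h' : RedC φ a' b') : RedC φ (a * a') (b * b') :=
  ⟨R.mul_mem h.1 h'.1, by rw [← h.2, ← h'.2, ← map_mul]; rfl⟩

lemma sub (h : RedC φ a b) (h' : RedC φ a' b') : RedC φ (a - a') (b - b') :=
  ⟨R.sub_mem h.1 h'.1, by rw [← h.2, ← h'.2, ← map_sub]; rfl⟩

lemma int (φ : R →+* k) (m : ℤ) : RedC φ (m : E) (m : k) :=
  ⟨intCast_mem R m, by rw [← map_intCast φ m]; rfl⟩

lemma one (φ : R →+* k) : RedC φ (1 : E) (1 : k) := by simpa using int φ 1

lemma zero (φ : R →+* k) : RedC φ (0 : E) (0 : k) := by simpa using int φ 0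

lemma sum {ι : Type*} (I : Finset ι) {a : ι → E} {b : ι → k} (h : ∀ i ∈ I, RedC φ (a i) (b i)) :
    RedC φ (∑ i ∈ I, a i) (∑ i ∈ I, b i) := by
  classical
  induction I using Finset.induction_on with
  | empty => simpa using zero φ
  | insert x I hx ih =>
    rw [sum_insert hx, sum_insert hx]
    exact (h x (mem_insert_self _ _)).add (ih fun i hi => h i (mem_insert_of_mem hi))

lemma ne_zero (h : RedC φ a b) (ha : a ≠ 0) (hi : a⁻¹ ∈ R) : b ≠ 0 := by
  have h1 := h.mul (redC_hat φ hi)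
  rw [mul_inv_cancel₀ ha] at h1
  exact left_ne_zero_of_mul_eq_one (h1.unique (one φ))

end RedC

namespace RedP
variable {P Q : E[X]} {P' Q' : k[X]}

lemma unique (h : RedP φ P P') (h' : RedP φ P Q') : P' = Q' := by
  obtain ⟨a, rfl, rfl⟩ := h
  obtain ⟨b, hb, rfl⟩ := h'
  rw [map_injective _ R.subtype_injective hb]

lemma add (h : RedP φ P P') (h' : RedP φ Q Q') : RedP φ (P + Q) (P' + Q') := by
  obtain ⟨a, rfl, rfl⟩ := h
  obtain ⟨b, rfl, rfl⟩ := h'
  exact ⟨a + b, by simp, by simp⟩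

lemma sub (h : RedP φ P P') (h' : RedP φ Q Q') : RedP φ (P - Q) (P' - Q') := by
  obtain ⟨a, rfl, rfl⟩ := h
  obtain ⟨b, rfl, rfl⟩ := h'
  exact ⟨a - b, by simp, by simp⟩

lemma mul (h : RedP φ P P') (h' : RedP φ Q Q') : RedP φ (P * Q) (P' * Q') := by
  obtain ⟨a, rfl, rfl⟩ := h
  obtain ⟨b, rfl, rfl⟩ := h'
  exact ⟨a * b, by simp, by simp⟩

lemma neg (h : RedP φ P P') : RedP φ (-P) (-P') := by
  obtain ⟨a, rfl, rfl⟩ := h
  exact ⟨-a, by simp, by simp⟩

lemma pow (h : RedP φ P P') (m : ℕ) : RedP φ (P ^ m) (P' ^ m) := by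
  obtain ⟨a, rfl, rfl⟩ := h
  exact ⟨a ^ m, by simp, by simp⟩

lemma der (h : RedP φ P P') : RedP φ (derivative P) (derivative P') := by
  obtain ⟨a, rfl, rfl⟩ := h
  exact ⟨derivative a, by simp, by simp⟩

lemma const {a : E} {b : k} (h : RedC φ a b) : RedP φ (C a) (C b) := by
  obtain ⟨h, rfl⟩ := h
  exact ⟨C ⟨a, h⟩, by simp, by simp⟩

lemma X (φ : R →+* k) : RedP φ (X : E[X]) X := ⟨Polynomial.X, by simp, by simp⟩

lemma one (φ : R →+* k) : RedP φ (1 : E[X]) 1 := ⟨1, by simp, by simp⟩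

lemma prod {ι : Type*} (I : Finset ι) {a : ι → E[X]} {b : ι → k[X]}
    (h : ∀ i ∈ I, RedP φ (a i) (b i)) : RedP φ (∏ i ∈ I, a i) (∏ i ∈ I, b i) := by
  classical
  induction I using Finset.induction_on with
  | empty => simpa using one φ
  | insert x I hx ih =>
    rw [prod_insert hx, prod_insert hx]
    exact (h x (mem_insert_self _ _)).mul (ih fun i hi => h i (mem_insert_of_mem hi))

lemma coeff (h : RedP φ P P') (i : ℕ) : RedC φ (P.coeff i) (P'.coeff i) := by
  obtain ⟨a, rfl, rfl⟩ := h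
  rw [coeff_map, coeff_map]
  exact ⟨(a.coeff i).2, rfl⟩

lemma eval (h : RedP φ P P') {x : E} {y : k} (hx : RedC φ x y) :
    RedC φ (P.eval x) (P'.eval y) := by
  obtain ⟨a, rfl, rfl⟩ := h
  obtain ⟨hx, rfl⟩ := hx
  have h1 : (a.map R.subtype).eval x = R.subtype (a.eval ⟨x, hx⟩) := by
    rw [← eval_map_apply]; rfl
  rw [h1, eval_map_apply]
  generalize a.eval ⟨x, hx⟩ = y
  exact ⟨y.2, rfl⟩

lemma natDegree_le (h : RedP φ P P') : P'.natDegree ≤ P.natDegree := by
  obtain ⟨a, rfl, rfl⟩ := h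
  rw [natDegree_map_eq_of_injective R.subtype_injective]
  exact natDegree_map_le

lemma monic (h : RedP φ P P') (hP : P.Monic) : P'.Monic ∧ P'.natDegree = P.natDegree := by
  obtain ⟨a, rfl, rfl⟩ := h
  have ha := monic_of_injective R.subtype_injective hP
  exact ⟨ha.map φ, by rw [ha.natDegree_map, ha.natDegree_map]⟩

lemma ne_zero (h : RedP φ P P') (hP : P' ≠ 0) : P ≠ 0 := by
  rintro rfl
  exact hP (h.unique ⟨0, by simp, by simp⟩)

lemma exists_of (φ : R →+* k) (h : ∀ i, P.coeff i ∈ R) : ∃ P', RedP φ P P' := by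
  have : P ∈ lifts R.subtype := (lifts_iff_coeff_lifts P).mpr fun i => ⟨⟨_, h i⟩, rfl⟩
  obtain ⟨a, ha⟩ := (mem_lifts P).mp this
  exact ⟨_, a, ha, rfl⟩

end RedP

namespace Red
variable {f f' : RatFunc E} {g g' : RatFunc k}

lemma mul_eq (h : Red φ f g) {P Q : E[X]} {P' Q' : k[X]} (hP : RedP φ P P') (hQ : RedP φ Q Q')
    (hf : f * am Q = am P) : g * am Q' = am P' := by
  obtain ⟨A, B, A', B', hA, hB, hB0, h1, h2⟩ := h
  have h3 : A * Q = P * B := am_inj (by rw [map_mul, map_mul, ← h1, ← hf]; ring)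
  have h4 := hA.mul hQ
  rw [h3] at h4
  have h5 := congrArg am (h4.unique (hP.mul hB))
  rw [map_mul, map_mul, ← h2] at h5
  apply mul_right_cancel₀ (am_ne hB0)
  linear_combination h5

lemma unique (h : Red φ f g) (h' : Red φ f g') : g = g' := by
  obtain ⟨A, B, A', B', hA, hB, hB0, h1, h2⟩ := h'
  exact mul_right_cancel₀ (am_ne hB0) ((h.mul_eq hA hB h1).trans h2.symm)

lemma poly {P : E[X]} {P' : k[X]} (h : RedP φ P P') : Red φ (am P) (am P') :=
  ⟨P, 1, P', 1, h, RedP.one φ, one_ne_zero, by simp, by simp⟩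

lemma add (h : Red φ f g) (h' : Red φ f' g') : Red φ (f + f') (g + g') := by
  obtain ⟨A, B, A', B', hA, hB, hB0, h1, h2⟩ := h
  obtain ⟨P, Q, P', Q', hP, hQ, hQ0, h3, h4⟩ := h'
  refine ⟨_, _, _, _, (hA.mul hQ).add (hP.mul hB), hB.mul hQ, mul_ne_zero hB0 hQ0, ?_, ?_⟩
  · rw [map_add, map_mul, map_mul, map_mul, ← h1, ← h3]; ring
  · rw [map_add, map_mul, map_mul, map_mul, ← h2, ← h4]; ring

lemma mul (h : Red φ f g) (h' : Red φ f' g') : Red φ (f * f') (g * g') := by
  obtain ⟨A, B, A', B', hA, hB, hB0, h1, h2⟩ := h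
  obtain ⟨P, Q, P', Q', hP, hQ, hQ0, h3, h4⟩ := h'
  refine ⟨_, _, _, _, hA.mul hP, hB.mul hQ, mul_ne_zero hB0 hQ0, ?_, ?_⟩
  · rw [map_mul, map_mul, ← h1, ← h3]; ring
  · rw [map_mul, map_mul, ← h2, ← h4]; ring

lemma neg (h : Red φ f g) : Red φ (-f) (-g) := by
  obtain ⟨A, B, A', B', hA, hB, hB0, h1, h2⟩ := h
  exact ⟨_, _, _, _, hA.neg, hB, hB0, by rw [map_neg, ← h1]; ring, by rw [map_neg, ← h2]; ring⟩

lemma sub (h : Red φ f g) (h' : Red φ f' g') : Red φ (f - f') (g - g') := by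
  rw [sub_eq_add_neg, sub_eq_add_neg]; exact h.add h'.neg

lemma der (h : Red φ f g) : Red φ (rder f) (rder g) := by
  obtain ⟨A, B, A', B', hA, hB, hB0, h1, h2⟩ := h
  exact ⟨_, _, _, _, (hA.der.mul hB).sub (hA.mul hB.der), hB.pow 2, pow_ne_zero 2 hB0,
    rder_mul_of h1, rder_mul_of h2⟩

lemma inv (h : Red φ f g) (hg : g ≠ 0) : Red φ f⁻¹ g⁻¹ := by
  obtain ⟨A, B, A', B', hA, hB, hB0, h1, h2⟩ := h
  have hA' : A' ≠ 0 := by
    rintro rfl
    exact mul_ne_zero hg (am_ne hB0) (by rw [h2, map_zero])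
  have hf : f ≠ 0 := by
    rintro rfl
    exact am_ne (hA.ne_zero hA') (by rw [← h1, zero_mul])
  exact ⟨_, _, _, _, hB, hA, hA', by rw [← h1, inv_mul_cancel_left₀ hf],
    by rw [← h2, inv_mul_cancel_left₀ hg]⟩

lemma one (φ : R →+* k) : Red φ (1 : RatFunc E) 1 := by simpa using poly (RedP.one φ)

lemma zero (φ : R →+* k) : Red φ (0 : RatFunc E) 0 := by simpa using (one φ).sub (one φ)

lemma pow (h : Red φ f g) (m : ℕ) : Red φ (f ^ m) (g ^ m) := by
  induction m with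
  | zero => simpa using one φ
  | succ m ih => rw [pow_succ, pow_succ]; exact ih.mul h

lemma sum {ι : Type*} (I : Finset ι) {a : ι → RatFunc E} {b : ι → RatFunc k}
    (h : ∀ i ∈ I, Red φ (a i) (b i)) : Red φ (∑ i ∈ I, a i) (∑ i ∈ I, b i) := by
  classical
  induction I using Finset.induction_on with
  | empty => simpa using zero φ
  | insert x I hx ih =>
    rw [sum_insert hx, sum_insert hx]
    exact (h x (mem_insert_self _ _)).add (ih fun i hi => h i (mem_insert_of_mem hi))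

lemma nat (φ : R →+* k) (m : ℕ) : Red φ (m : RatFunc E) m := by
  induction m with
  | zero => simpa using zero φ
  | succ m ih => rw [Nat.cast_succ, Nat.cast_succ]; exact ih.add (one φ)

lemma to_red (h : Red φ f g) : Red φ f (red φ f) := by
  have h' : ∃ g, Red φ f g := ⟨g, h⟩
  rw [red, dif_pos h']
  exact h'.choose_spec

lemma tt {x : Option E} (hx : ∀ y ∈ x, y ∈ R) : Red φ (tt x) (tt (x.map (hat φ))) := by
  cases x with
  | none =>
    have := (poly (RedP.X φ)).inv (am_ne X_ne_zero)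
    rwa [am_X, am_X] at this
  | some x =>
    rw [Option.map_some, tt_some, tt_some]
    exact poly ((RedP.X φ).sub (RedP.const (redC_hat φ (hx x rfl))))

lemma wt {x : Option E} (hx : ∀ y ∈ x, y ∈ R) : Red φ (wt x) (wt (x.map (hat φ))) := by
  cases x with
  | none =>
    have := (poly (RedP.X φ)).neg
    rwa [am_X, am_X] at this
  | some x => exact tt hx

end Red

/-- Numerator and denominator are defined over `R`. -/
def DefR (R : Subring E) (f : RatFunc E) : Prop :=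
  (∀ i, f.num.coeff i ∈ R) ∧ ∀ i, f.denom.coeff i ∈ R

lemma DefR.red (φ : R →+* k) {f : RatFunc E} (h : DefR R f) : Red φ f (red φ f) := by
  obtain ⟨P, hP⟩ := RedP.exists_of φ h.1
  obtain ⟨Q, hQ⟩ := RedP.exists_of φ h.2
  have hQ0 := (hQ.monic f.monic_denom).1.ne_zero
  exact Red.to_red (g := am P / am Q)
    ⟨_, _, _, _, hP, hQ, hQ0, mul_denom f, div_mul_cancel₀ _ (am_ne hQ0)⟩

/-- A value that is defined over `R`. -/
def DefV (R : Subring E) : Option E → RatFunc E → E → Prop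
  | some x, f, c => x ∈ R ∧ c ∈ R ∧ ∃ P Q : E[X], (∀ i, P.coeff i ∈ R) ∧ (∀ i, Q.coeff i ∈ R) ∧
      (Q.eval x)⁻¹ ∈ R ∧ Q.eval x ≠ 0 ∧ f * am Q = am P ∧ P.eval x = c * Q.eval x
  | none, f, c => ∃ P Q : E[X], (∀ i, P.coeff i ∈ R) ∧ (∀ i, Q.coeff i ∈ R) ∧
      Q.Monic ∧ P.natDegree ≤ Q.natDegree ∧ f * am Q = am P ∧ P.coeff Q.natDegree = c

lemma DefV.val {x : Option E} {f : RatFunc E} {c : E} (h : DefV R x f c) {g : RatFunc k}
    (hg : Red φ f g) : Val (x.map (hat φ)) g (hat φ c) ∧ c ∈ R := by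
  cases x with
  | none =>
    obtain ⟨P, Q, hP, hQ, hm, hd, hf, rfl⟩ := h
    obtain ⟨P', hP'⟩ := RedP.exists_of φ hP
    obtain ⟨Q', hQ'⟩ := RedP.exists_of φ hQ
    obtain ⟨h1, h2⟩ := hQ'.monic hm
    refine ⟨⟨P', Q', h1, by rw [h2]; exact hP'.natDegree_le.trans hd, hg.mul_eq hP' hQ' hf, ?_⟩,
      hP _⟩
    rw [h2]
    exact (hP'.coeff _).unique (redC_hat φ (hP _))
  | some x =>
    obtain ⟨hx, hc, P, Q, hP, hQ, hi, h0, hf, he⟩ := h
    obtain ⟨P', hP'⟩ := RedP.exists_of φ hP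
    obtain ⟨Q', hQ'⟩ := RedP.exists_of φ hQ
    have hx' := redC_hat φ hx
    refine ⟨⟨P', Q', (hQ'.eval hx').ne_zero h0 hi, hg.mul_eq hP' hQ' hf, ?_⟩, hc⟩
    have h1 := hP'.eval hx'
    rw [he] at h1
    exact h1.unique ((redC_hat φ hc).mul (hQ'.eval hx'))

/-- Entrywise reduction of matrices. -/
def RedM (φ : R →+* k) (M : Matrix (Fin n) (Fin n) (RatFunc E))
    (M' : Matrix (Fin n) (Fin n) (RatFunc k)) : Prop := ∀ i j, Red φ (M i j) (M' i j)

namespace RedM
variable {M N : Matrix (Fin n) (Fin n) (RatFunc E)} {M' N' : Matrix (Fin n) (Fin n) (RatFunc k)}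

lemma unique (h : RedM φ M M') (h' : RedM φ M N') : M' = N' := by
  ext i j; exact (h i j).unique (h' i j)

lemma mul (h : RedM φ M M') (h' : RedM φ N N') : RedM φ (M * N) (M' * N') := fun i j => by
  rw [mul_apply, mul_apply]
  exact Red.sum _ fun l _ => (h i l).mul (h' l j)

lemma add (h : RedM φ M M') (h' : RedM φ N N') : RedM φ (M + N) (M' + N') := fun i j =>
  (h i j).add (h' i j)

lemma sub (h : RedM φ M M') (h' : RedM φ N N') : RedM φ (M - N) (M' - N') := fun i j =>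
  (h i j).sub (h' i j)

lemma der (h : RedM φ M M') : RedM φ (M.map rder) (M'.map rder) := fun i j => (h i j).der

lemma dual (h : RedM φ M M') : RedM φ (-Mᵀ) (-M'ᵀ) := fun i j => (h j i).neg

lemma one (φ : R →+* k) : RedM φ (1 : Matrix (Fin n) (Fin n) (RatFunc E)) 1 := fun i j => by
  rw [one_apply, one_apply]
  split_ifs
  exacts [Red.one φ, Red.zero φ]

lemma aseq (h : RedM φ M M') (m : ℕ) : RedM φ (Aseq M m) (Aseq M' m) := by
  induction m with
  | zero => exact one φ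
  | succ m ih => exact ih.der.add (ih.mul h)

end RedM

lemma charpoly_red {M : Matrix (Fin n) (Fin n) E} (hM : ∀ i j, M i j ∈ R) :
    RedP φ M.charpoly (M.map (hat φ)).charpoly := by
  let M₀ : Matrix (Fin n) (Fin n) R := Matrix.of fun i j => ⟨M i j, hM i j⟩
  refine ⟨M₀.charpoly, ?_, ?_⟩
  · rw [← Matrix.charpoly_map]; rfl
  · rw [← Matrix.charpoly_map]
    congr 1
    ext i j
    exact (redC_hat φ (hM i j)).2

/-- The ring generated by a finite set. -/
abbrev cl (T : Finset E) : Subring E := Subring.closure (T : Set E)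

lemma ev_mem (a : E) : ∀ᶠ T : Finset E in atTop, a ∈ cl T := by
  classical
  filter_upwards [eventually_ge_atTop ({a} : Finset E)] with T hT
  exact Subring.subset_closure (hT (mem_singleton_self a))

lemma ev_poly (P : E[X]) : ∀ᶠ T : Finset E in atTop, ∀ i, P.coeff i ∈ cl T := by
  filter_upwards [(eventually_all_finset P.support).mpr fun i _ => ev_mem (P.coeff i)] with T hT i
  by_cases hi : i ∈ P.support
  · exact hT i hi
  · rw [notMem_support_iff.mp hi]; exact Subring.zero_mem _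

lemma ev_le (T₀ : Finset E) : ∀ᶠ T : Finset E in atTop, cl T₀ ≤ cl T := by
  classical
  filter_upwards [eventually_ge_atTop T₀] with T hT
  exact Subring.closure_mono hT

lemma ev_defR (f : RatFunc E) : ∀ᶠ T : Finset E in atTop, DefR (cl T) f :=
  (ev_poly _).and (ev_poly _)

lemma Val.ev_defV {x : Option E} {f : RatFunc E} {c : E} (h : Val x f c) :
    ∀ᶠ T : Finset E in atTop, DefV (cl T) x f c := by
  cases x with
  | none =>
    obtain ⟨P, Q, h⟩ := h
    filter_upwards [ev_poly P, ev_poly Q] with T h1 h2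
    exact ⟨P, Q, h1, h2, h⟩
  | some x =>
    obtain ⟨P, Q, h⟩ := h
    filter_upwards [ev_poly P, ev_poly Q, ev_mem x, ev_mem c, ev_mem (Q.eval x)⁻¹]
      with T h1 h2 h3 h4 h5
    exact ⟨h3, h4, P, Q, h1, h2, h5, h⟩

lemma ev_rank {u : Type} [Fintype u] (V : u → Fin n → E[X]) {e : ℕ}
    (he : Module.finrank E (LinearMap.ker (Fintype.linearCombination E V)) ≤ e) :
    ∀ᶠ T : Finset E in atTop, ∀ (k : Type) [Field k] (φ : cl T →+* k) (V' : u → Fin n → k[X]),
      (∀ a j, RedP φ (V a j) (V' a j)) →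
      Module.finrank k (LinearMap.ker (Fintype.linearCombination k V')) ≤ e := by
  classical
  obtain ⟨s, hs, h⟩ := Cod.of_finrank he
  obtain ⟨N, hN⟩ : ∃ N : ℕ, ∀ a j, (V a j).natDegree < N :=
    ⟨univ.sup (fun x : u × Fin n => (V x.1 x.2).natDegree) + 1, fun a j => Nat.lt_succ_of_le
      (le_sup (f := fun x : u × Fin n => (V x.1 x.2).natDegree) (mem_univ (a, j)))⟩
  let M : Matrix ((Fin n × Fin N) ⊕ s) u E := Matrix.of fun r a =>
    Sum.elim (fun x : Fin n × Fin N => (V a x.1).coeff x.2) (fun f : s => f.1 (Pi.single a 1)) r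
  have hM : LinearMap.ker (Matrix.toLin' M) = ⊥ := by
    rw [LinearMap.ker_eq_bot']
    intro c hc
    refine h c ?_ fun f hf => ?_
    · rw [LinearMap.mem_ker, Fintype.linearCombination_apply]
      ext j i
      simp only [Finset.sum_apply, Pi.smul_apply, finsetSum_coeff, coeff_smul, smul_eq_mul,
        Pi.zero_apply, coeff_zero]
      by_cases hi : i < N
      · have := congrFun hc (Sum.inl (j, ⟨i, hi⟩))
        simpa [M, mulVec, dotProduct, mul_comm] using this
      · exact sum_eq_zero fun a _ => by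
          rw [coeff_eq_zero_of_natDegree_lt (by have := hN a j; omega), mul_zero]
    · have := congrFun hc (Sum.inr ⟨f, hf⟩)
      have h3 : c = ∑ a, c a • Pi.single a (1 : E) := by
        ext j; simp [Pi.single_apply]
      rw [h3, map_sum]
      simpa [M, mulVec, dotProduct, mul_comm] using this
  obtain ⟨g, hg⟩ := LinearMap.exists_leftInverse_of_injective _ hM
  have hg' : LinearMap.toMatrix' g * M = 1 := by
    have := congrArg LinearMap.toMatrix' hg
    rwa [LinearMap.toMatrix'_comp, LinearMap.toMatrix'_toLin', LinearMap.toMatrix'_id] at this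
  filter_upwards [eventually_all.mpr fun r => eventually_all.mpr fun a => ev_mem (M r a),
    eventually_all.mpr fun a => eventually_all.mpr fun r => ev_mem (LinearMap.toMatrix' g a r)]
    with T h1 h2 k _ φ V' hV
  have h3 : (LinearMap.toMatrix' g).map (hat φ) * M.map (hat φ) = 1 := by
    ext a b
    have h4 : RedC φ ((LinearMap.toMatrix' g * M) a b)
        (((LinearMap.toMatrix' g).map (hat φ) * M.map (hat φ)) a b) := by
      rw [mul_apply, mul_apply]
      exact RedC.sum _ fun r _ => (redC_hat φ (h2 a r)).mul (redC_hat φ (h1 r b))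
    rw [hg'] at h4
    refine h4.unique ?_
    rw [one_apply, one_apply]
    split_ifs
    exacts [RedC.one φ, RedC.zero φ]
  let ψ : LinearMap.ker (Fintype.linearCombination k V') →ₗ[k] (s → k) :=
    (LinearMap.funLeft k k Sum.inr ∘ₗ Matrix.toLin' (M.map (hat φ))) ∘ₗ Submodule.subtype _
  have hψ : Function.Injective ψ := by
    rw [← LinearMap.ker_eq_bot, LinearMap.ker_eq_bot']
    intro c hc
    have h5 : M.map (hat φ) *ᵥ c.1 = 0 := by
      ext r
      cases r with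
      | inr f => exact congrFun hc f
      | inl x =>
        have h6 := congrArg (coeff · x.2) (congrFun (LinearMap.mem_ker.mp c.2) x.1)
        simp only [Fintype.linearCombination_apply, Finset.sum_apply, Pi.smul_apply,
          finsetSum_coeff, coeff_smul, smul_eq_mul, Pi.zero_apply, coeff_zero] at h6
        rw [Pi.zero_apply, ← h6, mulVec, dotProduct]
        refine sum_congr rfl fun a _ => ?_
        rw [mul_comm, ((hV a x.1).coeff x.2).unique (redC_hat φ (h1 (Sum.inl x) a))]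
        rfl
    apply Subtype.ext
    rw [← one_mulVec c.1, ← h3, ← mulVec_mulVec, h5, mulVec_zero]
    rfl
  have := LinearMap.finrank_le_finrank_of_injective hψ
  simp only [Module.finrank_fintype_fun_eq_card, Fintype.card_coe] at this
  exact this.trans hs

lemma not_unit_of_hom (T : Finset ℂ) {L : Type*} [Field L] [Algebra ℚ L] [Module.Finite ℚ L]
    (ψ : cl T →+* L) : ∃ p₁ : ℕ, ∀ p : ℕ, p.Prime → p₁ ≤ p → ¬IsUnit (p : cl T) := by
  classical
  have h1 : ∀ y : L, ∃ N : ℤ, N ≠ 0 ∧ IsIntegral ℤ (N • y) := fun y =>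
    ((IsFractionRing.isAlgebraic_iff ℤ ℚ _).mpr
      (Algebra.IsAlgebraic.isAlgebraic y)).exists_integral_multiple
  choose N hN0 hN using h1
  let D : ℤ := ∏ t : T, N (ψ ⟨t.1, Subring.subset_closure t.2⟩)
  have hD : D ≠ 0 := prod_ne_zero_iff.mpr fun t _ => hN0 _
  have h2 : ∀ (x : ℂ) (hx : x ∈ cl T), ∃ j : ℕ, IsIntegral ℤ ((D : L) ^ j * ψ ⟨x, hx⟩) := by
    intro x hx
    have hI : ∀ j : ℕ, IsIntegral ℤ ((D : L) ^ j) := fun j =>
      (isIntegral_algebraMap (x := D)).pow j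
    induction hx using Subring.closure_induction with
    | mem x hx =>
      obtain ⟨c, hc⟩ : N (ψ ⟨x, Subring.subset_closure hx⟩) ∣ D :=
        dvd_prod_of_mem (fun t : T => N (ψ ⟨t.1, Subring.subset_closure t.2⟩)) (mem_univ ⟨x, hx⟩)
      refine ⟨1, ?_⟩
      have := (hN (ψ ⟨x, Subring.subset_closure hx⟩)).zsmul c
      rwa [smul_smul, mul_comm, ← hc, zsmul_eq_mul, ← pow_one (D : L)] at this
    | zero => exact ⟨0, by rw [show (⟨0, _⟩ : cl T) = 0 from rfl]; simpa using isIntegral_zero⟩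
    | one => exact ⟨0, by rw [show (⟨1, _⟩ : cl T) = 1 from rfl]; simpa using isIntegral_one⟩
    | add x y hx hy ihx ihy =>
      obtain ⟨i, hi⟩ := ihx
      obtain ⟨j, hj⟩ := ihy
      refine ⟨i + j, ?_⟩
      have := ((hI j).mul hi).add ((hI i).mul hj)
      rw [show (⟨x + y, _⟩ : cl T) = ⟨x, hx⟩ + ⟨y, hy⟩ from rfl, map_add,
        show (D : L) ^ (i + j) * (ψ ⟨x, hx⟩ + ψ ⟨y, hy⟩) = (D : L) ^ j * ((D : L) ^ i * ψ ⟨x, hx⟩) +
          (D : L) ^ i * ((D : L) ^ j * ψ ⟨y, hy⟩) by ring]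
      exact this
    | neg x hx ihx =>
      obtain ⟨i, hi⟩ := ihx
      refine ⟨i, ?_⟩
      rw [show (⟨-x, _⟩ : cl T) = -⟨x, hx⟩ from rfl, map_neg, mul_neg]
      exact hi.neg
    | mul x y hx hy ihx ihy =>
      obtain ⟨i, hi⟩ := ihx
      obtain ⟨j, hj⟩ := ihy
      refine ⟨i + j, ?_⟩
      rw [show (⟨x * y, _⟩ : cl T) = ⟨x, hx⟩ * ⟨y, hy⟩ from rfl, map_mul, pow_add,
        mul_mul_mul_comm]
      exact hi.mul hj
  refine ⟨D.natAbs + 1, fun p hp hle' => ?_⟩
  intro hu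
  obtain ⟨r, hr⟩ := hu.exists_right_inv
  obtain ⟨j, hj⟩ := h2 r.1 r.2
  have h4 : (p : L) * ψ r = 1 := by rw [← map_natCast ψ, ← map_mul, hr, map_one]
  have hp0 : (p : ℚ) ≠ 0 := Nat.cast_ne_zero.mpr hp.ne_zero
  have h5 : (D : L) ^ j * ψ r = algebraMap ℚ L ((D : ℚ) ^ j / p) := by
    rw [map_div₀, map_pow, map_intCast, map_natCast, eq_div_iff (left_ne_zero_of_mul_eq_one h4),
      mul_assoc, mul_comm (ψ r), h4, mul_one]
  rw [show (⟨r.1, r.2⟩ : cl T) = r from rfl, h5,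
    isIntegral_algebraMap_iff (algebraMap ℚ L).injective,
    IsIntegrallyClosed.isIntegral_iff] at hj
  obtain ⟨z, hz⟩ := hj
  have h6 : (p : ℤ) ∣ D ^ j := ⟨z, by
    have : ((D : ℚ)) ^ j = p * z := by
      rw [eq_intCast, eq_div_iff hp0] at hz; rw [← hz]; ring
    exact_mod_cast this⟩
  have h7 : p ∣ D.natAbs := Int.natCast_dvd.mp ((Nat.prime_iff_prime_int.mp hp).dvd_of_dvd_pow h6)
  have := Nat.le_of_dvd (Int.natAbs_pos.mpr hD) h7
  omega

lemma exists_char (T : Finset ℂ) : ∃ p₁ : ℕ, ∀ p : ℕ, p.Prime → p₁ ≤ p →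
    ∃ (k : Type) (_ : Field k) (_ : CharP k p), Nonempty (cl T →+* k) := by
  let A : Subalgebra ℚ ℂ := Algebra.adjoin ℚ (T : Set ℂ)
  have : Algebra.FiniteType ℚ A := Algebra.FiniteType.adjoin_of_finite T.finite_toSet
  obtain ⟨M, hM⟩ := Ideal.exists_maximal A
  let _ : Field (A ⧸ M) := Ideal.Quotient.field M
  have : Module.Finite ℚ (A ⧸ M) := finite_of_finite_type_of_isJacobsonRing ℚ (A ⧸ M)
  have hle : cl T ≤ A.toSubring := Subring.closure_le.mpr Algebra.subset_adjoin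
  obtain ⟨p₁, h⟩ := not_unit_of_hom T ((Ideal.Quotient.mk M).comp (Subring.inclusion hle))
  refine ⟨p₁, fun p hp hle' => ?_⟩
  have h3 := h p hp hle'
  obtain ⟨m, hm, hpm⟩ := exists_max_ideal_of_mem_nonunits (mem_nonunits_iff.mpr h3)
  let _ : Field (cl T ⧸ m) := Ideal.Quotient.field m
  refine ⟨cl T ⧸ m, inferInstance, ?_, ⟨Ideal.Quotient.mk m⟩⟩
  refine (CharP.charP_iff_prime_eq_zero hp).mpr ?_
  rw [← map_natCast (Ideal.Quotient.mk m), Ideal.Quotient.eq_zero_iff_mem]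
  exact hpm

end
end Pool.Agent.Lib.MP_815ef6_nt
end

-- part Pool.Agent.Lib.MP_815ef6_nt.CW
section

/-! The Chevalley-Weil inequality in characteristic zero. -/

namespace Pool.Agent.Lib.MP_815ef6_nt
open Finset Matrix Polynomial Filter

noncomputable section
variable {n : ℕ}

/-- The reductions of the connection have vanishing `p`-th power. -/
def DormI (A : Matrix (Fin n) (Fin n) (RatFunc ℂ)) : Prop :=
  ∃ p₀ : ℕ, ∀ᶠ T : Finset ℂ in atTop, ∀ p : ℕ, p.Prime → p₀ ≤ p →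
    ∀ (k : Type) [Field k] [CharP k p] (φ : cl T →+* k) (A' : Matrix (Fin n) (Fin n) (RatFunc k)),
      RedM φ A A' → Dop (dR k) A' ^ p = 0

lemma Dormant.dormI {A : Matrix (Fin n) (Fin n) (RatFunc ℂ)} (h : Dormant A) :
    DormI A ∧ DormI (-Aᵀ) := by
  obtain ⟨T₀, Δ, hΔ, hc, -, p₀, h⟩ := h
  have key : ∀ᶠ T : Finset ℂ in atTop, ∀ p : ℕ, p.Prime → p₀ ≤ p →
      ∀ (k : Type) [Field k] [CharP k p] (φ : cl T →+* k)
        (A' : Matrix (Fin n) (Fin n) (RatFunc k)), RedM φ A A' → Aseq A' p = 0 := by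
    filter_upwards [ev_le T₀, ev_mem Δ.leadingCoeff⁻¹] with T h1 h2 p hp hp0 k _ _ φ A' hA
    ext i j
    obtain ⟨g, ⟨P, s, hP, hg⟩, hij⟩ := h p hp hp0 i j
    obtain ⟨P', hP'⟩ := RedP.exists_of φ fun i => h1 (hP i)
    obtain ⟨D, hD⟩ := RedP.exists_of φ fun i => h1 (hc i)
    have hD0 : D ≠ 0 := by
      rintro rfl
      exact (hD.coeff Δ.natDegree).ne_zero (leadingCoeff_ne_zero.mpr hΔ) h2 (by simp)
    have h3 : Red φ g (am P' / am (D ^ s)) := ⟨_, _, _, _, hP', hD.pow s, pow_ne_zero s hD0,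
      by rw [map_pow]; exact hg, div_mul_cancel₀ _ (am_ne (pow_ne_zero s hD0))⟩
    have h4 := (Red.nat φ p).mul h3
    rw [← hij, ← map_natCast (algebraMap k (RatFunc k)), CharP.cast_eq_zero, map_zero,
      zero_mul] at h4
    exact (hA.aseq p i j).unique h4
  refine ⟨⟨p₀, ?_⟩, ⟨p₀, ?_⟩⟩
  · filter_upwards [key] with T h p hp hp0 k _ _ φ A' hA
    have : Fact p.Prime := ⟨hp⟩
    exact (dorm_of_Aseq (h p hp hp0 k φ A' hA)).2
  · filter_upwards [key] with T h p hp hp0 k _ _ φ A' hA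
    have : Fact p.Prime := ⟨hp⟩
    have h1 := hA.dual
    rw [transpose_neg, transpose_transpose, neg_neg] at h1
    have h2 := (dorm_of_Aseq (h p hp hp0 k φ _ h1)).1
    rwa [transpose_neg, transpose_transpose, neg_neg] at h2

lemma exists_pow_mem {F : Type*} [Field F] (x : Option F) (f : RatFunc F) :
    ∃ B : ℕ, tt x ^ B * f ∈ (place x).O := by
  cases x with
  | none =>
    refine ⟨f.num.natDegree, _, f.num, X ^ f.num.natDegree * f.denom,
      (monic_X_pow _).mul f.monic_denom, ?_, ?_, rfl⟩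
    · rw [(monic_X_pow _).natDegree_mul f.monic_denom, natDegree_X_pow]
      omega
    · rw [map_mul, map_pow, am_X, tt_none, mul_mul_mul_comm, ← mul_pow,
        inv_mul_cancel₀ RatFunc.X_ne_zero, one_pow, one_mul, mul_denom]
  | some x =>
    obtain ⟨Q, hQ, hd⟩ := exists_eq_pow_rootMultiplicity_mul_and_not_dvd f.denom f.denom_ne_zero x
    have h0 : Q.eval x ≠ 0 := fun h => hd (dvd_iff_isRoot.mpr h)
    refine ⟨f.denom.rootMultiplicity x, f.num.eval x / Q.eval x, f.num, Q, h0, ?_, by field_simp⟩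
    rw [← mul_denom, tt_some, ← map_pow, mul_right_comm, ← map_mul, ← hQ, mul_comm]

lemma exists_pow_mem_all {F : Type*} [Field F] {κ : Type*} [Fintype κ] (x : κ → Option F)
    (f : κ → RatFunc F) : ∃ B : ℕ, ∀ i, tt (x i) ^ B * f i ∈ (place (x i)).O := by
  choose B hB using fun i => exists_pow_mem (x i) (f i)
  refine ⟨univ.sup B, fun i => ?_⟩
  have := Place.mem_mono (place (x i)) (a := B i) (b := (univ.sup B : ℕ))
    (by exact_mod_cast le_sup (mem_univ i)) (f := f i) (by simpa using hB i)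
  simpa using this

lemma gauge_red {A : Matrix (Fin n) (Fin n) (RatFunc ℂ)} {x : Option ℂ} (g : Gauge (place x) A)
    {B : ℕ} (hG : ∀ i j, tt x ^ B * g.G i j ∈ (place x).O)
    (hH : ∀ i j, tt x ^ B * g.H i j ∈ (place x).O) :
    ∀ᶠ T : Finset ℂ in atTop, ∀ (k : Type) [Field k] (φ : cl T →+* k)
      (A' : Matrix (Fin n) (Fin n) (RatFunc k)), RedM φ A A' →
      ∃ g' : Gauge (place (x.map (hat φ))) A',
        (∀ i j, tt (x.map (hat φ)) ^ B * g'.G i j ∈ (place (x.map (hat φ))).O) ∧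
        (∀ i j, tt (x.map (hat φ)) ^ B * g'.H i j ∈ (place (x.map (hat φ))).O) ∧
        RedP φ g.Res.charpoly g'.Res.charpoly := by
  have hx : ∀ᶠ T : Finset ℂ in atTop, ∀ y ∈ x, y ∈ cl T := by
    cases x with
    | none => simp
    | some x => simpa using ev_mem x
  filter_upwards [hx, eventually_all.mpr fun i => eventually_all.mpr fun j => ev_defR (g.G i j),
    eventually_all.mpr fun i => eventually_all.mpr fun j => ev_defR (g.H i j),
    eventually_all.mpr fun i => eventually_all.mpr fun j => (val_ev (hG i j)).ev_defV,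
    eventually_all.mpr fun i => eventually_all.mpr fun j => (val_ev (hH i j)).ev_defV,
    eventually_all.mpr fun i => eventually_all.mpr fun j => (val_ev (g.mem i j)).ev_defV]
    with T h1 h2 h3 h4 h5 h6 k _ φ A' hA
  have hG' : RedM φ g.G (g.G.map (red φ)) := fun i j => (h2 i j).red φ
  have hH' : RedM φ g.H (g.H.map (red φ)) := fun i j => (h3 i j).red φ
  have h7 := fun i j => (h6 i j).val ((Red.wt h1).mul
    (((hH'.mul hA).mul hG').sub (hH'.mul hG'.der) i j))
  simp only [g.ev_eq] at h7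
  refine ⟨⟨g.G.map (red φ), g.H.map (red φ), ?_, g.Res.map (hat φ), fun i j => (h7 i j).1.mem,
    fun i j => (h7 i j).1.ev⟩, fun i j => ?_, fun i j => ?_, charpoly_red fun i j => (h7 i j).2⟩
  · have := hG'.mul hH'
    rw [g.hGH] at this
    exact this.unique (RedM.one φ)
  · exact ((h4 i j).val (((Red.tt h1).pow B).mul (hG' i j))).1.mem
  · exact ((h5 i j).val (((Red.tt h1).pow B).mul (hH' i j))).1.mem

lemma redP_Om {E k : Type*} [Field E] [Field k] {R : Subring E} (φ : R →+* k) {ι : Type*}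
    (S : Finset ι) {pt : ι → E} (h : ∀ x, pt x ∈ R) :
    RedP φ (Om S pt) (Om S fun x => hat φ (pt x)) :=
  RedP.prod _ fun x _ => (RedP.X φ).sub (RedP.const (redC_hat φ (h x)))

/-- A rational number that is an integer. -/
def IsI (q : ℚ) : Prop := ∃ z : ℤ, q = z

lemma IsI.floor {q : ℚ} (h : IsI q) : ((⌊q⌋ : ℤ) : ℚ) = q := by
  obtain ⟨z, rfl⟩ := h
  simp

lemma isI_add_mul {N : ℕ} {k : ℤ} {p : ℕ} (hp : (N : ℤ) ∣ 1 + p * k) {l b : ℚ} (hl : IsI (N * l))
    (hb : IsI (b - k * l)) : IsI (l + p * b) := by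
  obtain ⟨c, hc⟩ := hp
  obtain ⟨u, hu⟩ := hl
  obtain ⟨v, hv⟩ := hb
  have hc' : (1 : ℚ) + p * k = N * c := by exact_mod_cast hc
  exact ⟨c * u + p * v, by push_cast; linear_combination l * hc' + c * hu + p * hv⟩

lemma redC_rat {k : Type*} [Field k] {R : Subring ℂ} (φ : R →+* k) {p : ℕ} [CharP k p] {l b : ℚ}
    (hb : (b : ℂ) ∈ R) (h : IsI (l + p * b)) : RedC φ (l : ℂ) ((⌊l + p * b⌋ : ℤ) : k) := by
  have h1 := (RedC.int φ ⌊l + p * b⌋).sub ((RedC.int φ p).mul (redC_hat φ hb))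
  have h2 : ((⌊l + p * b⌋ : ℤ) : ℂ) = l + p * b := by exact_mod_cast congrArg (Rat.cast : ℚ → ℂ) h.floor
  rw [h2] at h1
  simpa using h1

lemma exists_prime {N : ℕ} (hN : N ≠ 0) {k : ℤ} (hk : IsCoprime k N) (m : ℕ) :
    ∃ p > m, p.Prime ∧ (N : ℤ) ∣ 1 + p * k := by
  obtain ⟨u, v, huv⟩ := hk
  obtain ⟨p, h1, h2, h3⟩ := Nat.forall_exists_prime_gt_and_zmodEq m hN (a := -u)
    ⟨-k, v, by linear_combination huv⟩
  obtain ⟨c, hc⟩ := h3.dvd
  exact ⟨p, h1, h2, v - c * k, by linear_combination -huv - k * hc⟩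

variable {ι : Type} [Fintype ι] {pt : ι → ℂ} {A : Matrix (Fin n) (Fin n) (RatFunc ℂ)}

theorem cw_main (hpt : Function.Injective pt) (hD : DormI A) (hA : ∀ i j, A i j ∈ OS (Om univ pt))
    (g : ∀ x, Gauge (place (some (pt x))) A) (h : Gauge (place none) A)
    {lam : ι → Fin n → ℚ} {lam' : Fin n → ℚ}
    (hc : ∀ x, (g x).Res.charpoly = ∏ j, (X - C (lam x j : ℂ)))
    (hc' : h.Res.charpoly = ∏ j, (X - C (lam' j : ℂ))) {N : ℕ} (hN : N ≠ 0) {k : ℤ}
    (hk : IsCoprime k N) (hl : ∀ x j, IsI (N * lam x j)) (hl' : ∀ j, IsI (N * lam' j))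
    {β : ι → Fin n → ℚ} {β' : Fin n → ℚ} (hβ : ∀ x j, IsI (β x j - k * lam x j))
    (hβ' : ∀ j, IsI (β' j - k * lam' j)) {s : ι → ℝ} {s' : ℝ} (hs : ∀ x j, s x ≤ β x j)
    (hs' : ∀ j, s' ≤ β' j) :
    ∃ C : ℕ, ∀ (M e : ℕ) (a : ℕ → ι → ℤ),
      (∀ᶠ p : ℕ in atTop, (N : ℤ) ∣ 1 + p * k →
        (∀ x, (a p x : ℝ) + C ≤ p * s x) ∧ C - p * s' - ∑ x, (a p x : ℝ) < M) →
      (∀ᶠ T : Finset ℂ in atTop, ∀ p : ℕ, (N : ℤ) ∣ 1 + p * k →
        ∀ (K : Type) [Field K] [CharP K p] (φ : cl T →+* K)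
          (A' : Matrix (Fin n) (Fin n) (RatFunc K)), RedM φ A A' →
          Module.finrank K (LinearMap.ker (Dop (dR K) A' ∘ₗ
            vecL (uu univ (fun x => hat φ (pt x)) (a p)) n M)) ≤ e) →
      (n : ℝ) ≤ e + ∑ j, (β' j : ℝ) + ∑ x, ∑ j, (β x j : ℝ) := by
  classical
  obtain ⟨B, hB⟩ := exists_pow_mem_all (κ := Option ι × Bool × Fin n × Fin n)
    (fun u => u.1.map pt) fun u => match u with
      | (none, true, i, j) => h.G i j
      | (none, false, i, j) => h.H i j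
      | (some x, true, i, j) => (g x).G i j
      | (some x, false, i, j) => (g x).H i j
  obtain ⟨L, hL, hL'⟩ : ∃ L : ℕ, (∀ x j, -(L : ℚ) ≤ lam x j) ∧ ∀ j, -(L : ℚ) ≤ lam' j := by
    obtain ⟨L, hL⟩ := exists_nat_ge (∑ j, |lam' j| + ∑ x, ∑ j, |lam x j|)
    have h1 : 0 ≤ ∑ j, |lam' j| := sum_nonneg fun _ _ => abs_nonneg _
    have h2 : 0 ≤ ∑ x, ∑ j, |lam x j| := sum_nonneg fun _ _ => sum_nonneg fun _ _ => abs_nonneg _
    refine ⟨L, fun x j => ?_, fun j => ?_⟩
    · have h3 := single_le_sum (f := fun j => |lam x j|) (fun _ _ => abs_nonneg _) (mem_univ j)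
      have h4 := single_le_sum (f := fun x => ∑ j, |lam x j|)
        (fun _ _ => sum_nonneg fun _ _ => abs_nonneg _) (mem_univ x)
      have := neg_abs_le (lam x j)
      linarith
    · have h3 := single_le_sum (f := fun j => |lam' j|) (fun _ _ => abs_nonneg _) (mem_univ j)
      have := neg_abs_le (lam' j)
      linarith
  refine ⟨B + L + 1, fun M e a ha he => ?_⟩
  obtain ⟨p₀, hD⟩ := hD
  choose sA PA hPA using hA
  obtain ⟨T, h0, h1, h2, h3, h4, h5, h6, h7, h8, h9⟩ := (hD.and (he.and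
    ((eventually_all.mpr fun x => gauge_red (g x) (fun i j => hB (some x, true, i, j))
      fun i j => hB (some x, false, i, j)).and
    ((gauge_red h (fun i j => hB (none, true, i, j)) fun i j => hB (none, false, i, j)).and
    ((eventually_all.mpr fun i => eventually_all.mpr fun j => ev_defR (A i j)).and
    ((eventually_all.mpr fun i => eventually_all.mpr fun j => ev_poly (PA i j)).and
    ((eventually_all.mpr fun x => ev_mem (pt x)).and
    ((eventually_all.mpr fun x => eventually_all.mpr fun y => ev_mem (pt x - pt y)⁻¹).and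
    ((eventually_all.mpr fun x => eventually_all.mpr fun j => ev_mem (β x j : ℂ)).and
    (eventually_all.mpr fun j => ev_mem (β' j : ℂ))))))))))).exists
  obtain ⟨p₁, hp₁⟩ := exists_char T
  obtain ⟨p₂, ha⟩ := eventually_atTop.mp ha
  have key : ∀ m : ℕ, ∃ p > m, (p : ℝ) * (n - e - ∑ j, (β' j : ℝ) - ∑ x, ∑ j, (β x j : ℝ)) ≤
      n * (B + ∑ _x : ι, (B : ℝ)) + ∑ j, (lam' j : ℝ) + ∑ x, ∑ j, (lam x j : ℝ) := by
    intro m
    obtain ⟨p, hpm, hp, hpN⟩ := exists_prime hN hk (m + p₀ + p₁ + p₂)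
    refine ⟨p, by omega, ?_⟩
    obtain ⟨K, _, _, ⟨φ⟩⟩ := hp₁ p hp (by omega)
    have : Fact p.Prime := ⟨hp⟩
    obtain ⟨ha1, ha2⟩ := ha p (by omega) hpN
    have hA' : RedM φ A (A.map (red φ)) := fun i j => (h4 i j).red φ
    choose g' hg1 hg2 hg3 using fun x => h2 x K φ _ hA'
    obtain ⟨h', hh1, hh2, hh3⟩ := h3 K φ _ hA'
    have hp0 : (0 : ℝ) ≤ p := Nat.cast_nonneg p
    have hm : ∀ {l b : ℚ} {t : ℝ}, IsI (l + p * b) → t ≤ b → -(L : ℚ) ≤ l →
        ⌊p * t⌋ - (L : ℤ) ≤ ⌊l + p * b⌋ := by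
      intro l b t h1 h2 h3
      have h4 : ((⌊l + p * b⌋ : ℤ) : ℝ) = l + p * b := by
        exact_mod_cast congrArg (Rat.cast : ℚ → ℝ) h1.floor
      have h5 : -(L : ℝ) ≤ l := by exact_mod_cast h3
      have h6 := Int.floor_le (p * t)
      have h7 := mul_le_mul_of_nonneg_left h2 hp0
      have : ((⌊p * t⌋ - (L : ℤ) : ℤ) : ℝ) ≤ ((⌊l + p * b⌋ : ℤ) : ℝ) := by push_cast; linarith
      exact_mod_cast this
    have hI := fun x j => isI_add_mul hpN (hl x j) (hβ x j)
    have hI' := fun j => isI_add_mul hpN (hl' j) (hβ' j)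
    have main := charP_ineq (S := univ) (pt := fun x => hat φ (pt x)) (h0 p hp (by omega) K φ _ hA')
      (fun x _ y _ hxy => by
        by_contra hne
        exact ((redC_hat φ (h6 x)).sub (redC_hat φ (h6 y))).ne_zero
          (sub_ne_zero.mpr fun h => hne (hpt h)) (h7 x y) (sub_eq_zero.mpr hxy))
      g' h' (fun x _ => hg1 x) (fun x _ => hg2 x) hh1 hh2
      (fun i j => by
        obtain ⟨P', hP'⟩ := RedP.exists_of φ (h5 i j)
        refine ⟨sA i j, P', ?_⟩
        rw [← map_pow]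
        exact (hA' i j).mul_eq hP' ((redP_Om φ univ h6).pow _) (by rw [map_pow]; exact hPA i j))
      (fun x => ⌊p * s x⌋ - L) (⌊p * s'⌋ - L) (fun x j => ⌊lam x j + p * β x j⌋)
      (fun j => ⌊lam' j + p * β' j⌋) (fun x _ j => hm (hI x j) (hs x j) (hL x j))
      (fun j => hm (hI' j) (hs' j) (hL' j))
      (fun x _ => (hg3 x).unique (by
        rw [hc]
        exact RedP.prod _ fun j _ => (RedP.X φ).sub (RedP.const (redC_rat φ (h8 x j) (hI x j)))))
      (hh3.unique (by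
        rw [hc']
        exact RedP.prod _ fun j _ => (RedP.X φ).sub (RedP.const (redC_rat φ (h9 j) (hI' j)))))
      (a p) (fun x _ => by
        have h10 : a p x + (B + L + 1 : ℕ) ≤ ⌊p * s x⌋ := Int.le_floor.mpr (by exact_mod_cast ha1 x)
        push_cast at h10
        omega) M (by
        have h10 := Int.lt_floor_add_one (p * s')
        have : (((B : ℤ) - (⌊p * s'⌋ - L) - ∑ x, a p x : ℤ) : ℝ) < ((M : ℤ) : ℝ) := by
          push_cast at ha2 ⊢
          linarith
        exact_mod_cast this) (h1 p hpN K φ _ hA')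
    have main' := (Int.cast_le (R := ℝ)).mpr main
    have e1 : ∀ x j, ((⌊lam x j + p * β x j⌋ : ℤ) : ℝ) = lam x j + p * β x j := fun x j => by
      exact_mod_cast congrArg (Rat.cast : ℚ → ℝ) (hI x j).floor
    have e2 : ∀ j, ((⌊lam' j + p * β' j⌋ : ℤ) : ℝ) = lam' j + p * β' j := fun j => by
      exact_mod_cast congrArg (Rat.cast : ℚ → ℝ) (hI' j).floor
    simp only [Int.cast_add, Int.cast_mul, Int.cast_sub, Int.cast_sum, Int.cast_natCast, e1, e2,
      sum_add_distrib, sum_sub_distrib, ← mul_sum, sum_const, card_univ, Fintype.card_fin,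
      nsmul_eq_mul] at main' ⊢
    linarith
  by_contra hlt
  have hpos : 0 < n - e - ∑ j, (β' j : ℝ) - ∑ x, ∑ j, (β x j : ℝ) := by linarith
  obtain ⟨m, hm⟩ := exists_nat_gt ((n * (B + ∑ _x : ι, (B : ℝ)) + ∑ j, (lam' j : ℝ) +
    ∑ x, ∑ j, (lam x j : ℝ)) / (n - e - ∑ j, (β' j : ℝ) - ∑ x, ∑ j, (β x j : ℝ)))
  obtain ⟨p, hpm, hp⟩ := key m
  rw [div_lt_iff₀ hpos] at hm
  have : (m : ℝ) < p := by exact_mod_cast hpm
  nlinarith

end
end Pool.Agent.Lib.MP_815ef6_nt
end

-- part Pool.Agent.Lib.MP_815ef6_nt.Sol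
section

/-! Consequences of the count: the inequality and the existence of radical solutions. -/

namespace Pool.Agent.Lib.MP_815ef6_nt
open Finset Matrix Polynomial Filter

noncomputable section
variable {n : ℕ}

section General
variable {F : Type*} [Field F] {ι : Type*} {S : Finset ι} {pt : ι → F}

/-- `∑ ν x / (z - x)`. -/
def ell (S : Finset ι) (pt : ι → F) (ν : ι → F) : RatFunc F :=
  ∑ x ∈ S, am (C (ν x)) * (tt (some (pt x)))⁻¹

lemma ell_add (ν ν' : ι → F) : ell S pt (fun x => ν x + ν' x) = ell S pt ν + ell S pt ν' := by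
  simp only [ell, map_add, add_mul, sum_add_distrib]

lemma ell_neg (ν : ι → F) : ell S pt (fun x => -ν x) = -ell S pt ν := by
  simp only [ell, map_neg, neg_mul, sum_neg_distrib]

lemma ell_mem_OS (ν : ι → F) : ell S pt ν ∈ OS (Om S pt) :=
  Subalgebra.sum_mem _ fun _ hx => Subalgebra.mul_mem _ (am_mem_OS _ _) (tt_inv_mem_OS hx)

lemma rder_uu (a : ι → ℤ) : rder (uu S pt a) = ell S pt (fun x => (a x : F)) * uu S pt a := by
  classical
  rw [uu, ell]
  induction S using Finset.induction_on with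
  | empty =>
    rw [prod_empty, sum_empty, zero_mul]
    exact (dR F).map_one_eq_zero
  | insert y S hy ih =>
    have h1 := (place (some (pt y))).w_zpow (a y)
    have h2 : wt (some (pt y)) = tt (some (pt y)) := rfl
    rw [place_w, place_t, dR_apply, h2] at h1
    have h3 := tt_ne (some (pt y))
    have h4 : rder (tt (some (pt y)) ^ a y) =
        (a y : RatFunc F) * (tt (some (pt y)))⁻¹ * tt (some (pt y)) ^ a y := by
      rw [mul_right_comm, ← h1]; field_simp
    rw [prod_insert hy, sum_insert hy, rder_mul, ih, h4, map_intCast, map_intCast]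
    ring

lemma Dop_sub_smul (A : Matrix (Fin n) (Fin n) (RatFunc F)) (l : RatFunc F)
    (v : Fin n → RatFunc F) : Dop (dR F) (A - l • 1) v = Dop (dR F) A v + l • v := by
  ext i
  simp [Dop_apply, sub_mulVec, smul_mulVec]
  ring

lemma Dop_uu (A : Matrix (Fin n) (Fin n) (RatFunc F)) (a : ι → ℤ) (v : Fin n → RatFunc F) :
    Dop (dR F) A (uu S pt a • v) =
      uu S pt a • Dop (dR F) (A - ell S pt (fun x => (a x : F)) • 1) v := by
  rw [Dop_smul, Dop_sub_smul, dR_apply, rder_uu, smul_add, smul_smul, mul_comm, add_comm]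

lemma vecL_eq_smul (u : RatFunc F) {M : ℕ} (c : Fin n × Fin M → F) :
    vecL u n M c = u • vecL 1 n M c := by
  ext j; simp [vecL_apply]

lemma ker_uu (A : Matrix (Fin n) (Fin n) (RatFunc F)) (a : ι → ℤ) (M : ℕ) :
    LinearMap.ker (Dop (dR F) A ∘ₗ vecL (uu S pt a) n M) =
      LinearMap.ker (Dop (dR F) (A - ell S pt (fun x => (a x : F)) • 1) ∘ₗ vecL 1 n M) := by
  ext c
  simp only [LinearMap.mem_ker, LinearMap.comp_apply]
  rw [vecL_eq_smul, Dop_uu, smul_eq_zero, or_iff_right (uu_ne a)]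

/-- The polynomial form of the differential equation on the basis vectors. -/
def VV (W : F[X]) (P : Fin n → Fin n → F[X]) (M : ℕ) (a : Fin n × Fin M) (l : Fin n) : F[X] :=
  W * derivative (vecP (Pi.single a (1 : F)) l) - ∑ r, P l r * vecP (Pi.single a (1 : F)) r

lemma ker_VV {B : Matrix (Fin n) (Fin n) (RatFunc F)} {W : F[X]} (hW : W ≠ 0)
    {P : Fin n → Fin n → F[X]} (h : ∀ i j, B i j * am W = am (P i j)) (M : ℕ) :
    LinearMap.ker (Dop (dR F) B ∘ₗ vecL 1 n M) =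
      LinearMap.ker (Fintype.linearCombination F (VV W P M)) := by
  have h1 : ∀ a l, am (VV W P M a l) = am W * Dop (dR F) B (vecL 1 n M (Pi.single a 1)) l := by
    intro a l
    simp only [VV, map_sub, map_mul, map_sum, Dop_apply, vecL_apply, one_mul, dR_apply, rder_am,
      mulVec, dotProduct, mul_sub, mul_sum, ← h]
    congr 1
    exact sum_congr rfl fun r _ => by ring
  have h2 : ∀ c l, am (Fintype.linearCombination F (VV W P M) c l) =
      am W * Dop (dR F) B (vecL 1 n M c) l := by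
    intro c l
    have h3 : c = ∑ a, c a • Pi.single a (1 : F) := by
      ext j; simp [Pi.single_apply]
    conv_rhs => rw [h3]
    simp only [Fintype.linearCombination_apply, map_sum, map_smul, Finset.sum_apply, Pi.smul_apply,
      mul_sum, mul_smul_comm, ← h1]
    refine sum_congr rfl fun a _ => ?_
    rw [smul_eq_C_mul, map_mul, Algebra.smul_def, algebraMap_eq_am]
  ext c
  simp only [LinearMap.mem_ker, LinearMap.comp_apply]
  constructor
  · intro hc
    ext1 l
    exact am_inj (by rw [h2, hc]; simp)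
  · intro hc
    ext1 l
    have := h2 c l
    rw [hc, Pi.zero_apply, map_zero] at this
    exact (mul_eq_zero.mp this.symm).resolve_left (am_ne hW)

lemma exists_clear {Ω : F[X]} {B : Matrix (Fin n) (Fin n) (RatFunc F)} (h : ∀ i j, B i j ∈ OS Ω) :
    ∃ (s : ℕ) (P : Fin n → Fin n → F[X]), ∀ i j, B i j * am (Ω ^ s) = am (P i j) := by
  choose s P hP using h
  refine ⟨∑ i, ∑ j, s i j, fun i j => P i j * Ω ^ (∑ i, ∑ j, s i j - s i j), fun i j => ?_⟩
  have h1 : s i j ≤ ∑ i, ∑ j, s i j :=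
    (single_le_sum (f := fun j => s i j) (fun _ _ => Nat.zero_le _) (mem_univ j)).trans
      (single_le_sum (f := fun i => ∑ j, s i j) (fun _ _ => Nat.zero_le _) (mem_univ i))
  rw [map_mul, ← hP, map_pow, map_pow, mul_assoc, ← pow_add, Nat.add_sub_cancel' h1]

end General

lemma RedP.sum {E k : Type*} [Field E] [Field k] {R : Subring E} {φ : R →+* k} {ι : Type*}
    (I : Finset ι) {a : ι → E[X]} {b : ι → k[X]} (h : ∀ i ∈ I, RedP φ (a i) (b i)) :
    RedP φ (∑ i ∈ I, a i) (∑ i ∈ I, b i) := by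
  classical
  induction I using Finset.induction_on with
  | empty => exact ⟨0, by simp, by simp⟩
  | insert x I hx ih =>
    rw [sum_insert hx, sum_insert hx]
    exact (h x (mem_insert_self _ _)).add (ih fun i hi => h i (mem_insert_of_mem hi))

lemma redP_single {E k : Type*} [Field E] [Field k] {R : Subring E} (φ : R →+* k) {M : ℕ}
    (a : Fin n × Fin M) (l : Fin n) :
    RedP φ (vecP (Pi.single a (1 : E)) l) (vecP (Pi.single a (1 : k)) l) := by
  refine RedP.sum _ fun i _ => ?_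
  rw [← C_mul_X_pow_eq_monomial, ← C_mul_X_pow_eq_monomial, Pi.single_apply, Pi.single_apply]
  refine (RedP.const ?_).mul ((RedP.X φ).pow _)
  split_ifs
  exacts [RedC.one φ, RedC.zero φ]

variable {ι : Type} [Fintype ι] {pt : ι → ℂ} {A : Matrix (Fin n) (Fin n) (RatFunc ℂ)}

theorem cw_pos (hpt : Function.Injective pt) (hD : DormI A) (hA : ∀ i j, A i j ∈ OS (Om univ pt))
    (g : ∀ x, Gauge (place (some (pt x))) A) (h : Gauge (place none) A)
    {lam : ι → Fin n → ℚ} {lam' : Fin n → ℚ}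
    (hc : ∀ x, (g x).Res.charpoly = ∏ j, (X - C (lam x j : ℂ)))
    (hc' : h.Res.charpoly = ∏ j, (X - C (lam' j : ℂ))) {N : ℕ} (hN : N ≠ 0) {k : ℤ}
    (hk : IsCoprime k N) (hl : ∀ x j, IsI (N * lam x j)) (hl' : ∀ j, IsI (N * lam' j))
    {β : ι → Fin n → ℚ} {β' : Fin n → ℚ} (hβ : ∀ x j, IsI (β x j - k * lam x j))
    (hβ' : ∀ j, IsI (β' j - k * lam' j)) {s : ι → ℝ} {s' : ℝ} (hs : ∀ x j, s x ≤ β x j)
    (hs' : ∀ j, s' ≤ β' j) (hσ : 0 < s' + ∑ x, s x) :
    (n : ℝ) ≤ ∑ j, (β' j : ℝ) + ∑ x, ∑ j, (β x j : ℝ) := by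
  obtain ⟨C, hC⟩ := cw_main hpt hD hA g h hc hc' hN hk hl hl' hβ hβ' hs hs'
  have := hC 0 0 (fun p x => ⌊p * s x⌋ - C) ?_ (Eventually.of_forall fun T p _ K _ _ φ A' _ => ?_)
  · simpa using this
  · have h1 : Tendsto (fun p : ℕ => (p : ℝ) * (s' + ∑ x, s x)) atTop atTop :=
      tendsto_natCast_atTop_atTop.atTop_mul_const hσ
    filter_upwards [h1.eventually_gt_atTop (C + ∑ _x : ι, ((C : ℝ) + 1))] with p hp _
    refine ⟨fun x => ?_, ?_⟩
    · have := Int.floor_le (p * s x)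
      push_cast
      linarith
    · have h2 : ∑ x, (p * s x - ((C : ℝ) + 1)) ≤ ∑ x, (((⌊p * s x⌋ - C : ℤ)) : ℝ) :=
        sum_le_sum fun x _ => by
          have := Int.lt_floor_add_one (p * s x)
          push_cast
          linarith
      rw [sum_sub_distrib, ← mul_sum] at h2
      rw [mul_add] at hp
      push_cast at h2 ⊢
      linarith
  · exact (Submodule.finrank_le _).trans (by simp)

theorem cw_sol (hpt : Function.Injective pt) (hD : DormI A) (hA : ∀ i j, A i j ∈ OS (Om univ pt))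
    (g : ∀ x, Gauge (place (some (pt x))) A) (h : Gauge (place none) A)
    {lam : ι → Fin n → ℚ} {lam' : Fin n → ℚ}
    (hc : ∀ x, (g x).Res.charpoly = ∏ j, (X - C (lam x j : ℂ)))
    (hc' : h.Res.charpoly = ∏ j, (X - C (lam' j : ℂ))) {N : ℕ} (hN : N ≠ 0) {k : ℤ}
    (hk : IsCoprime k N) (hl : ∀ x j, IsI (N * lam x j)) (hl' : ∀ j, IsI (N * lam' j))
    {β : ι → Fin n → ℚ} {β' : Fin n → ℚ} (hβ : ∀ x j, IsI (β x j - k * lam x j))
    (hβ' : ∀ j, IsI (β' j - k * lam' j)) {μ s : ι → ℚ} (hμ : ∀ x, IsI (N * μ x))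
    (hμs : ∀ x, IsI (s x - k * μ x)) {s' : ℝ} (hs : ∀ x j, s x ≤ β x j)
    (hs' : ∀ j, s' ≤ β' j) (hσ : 0 ≤ s' + ∑ x, (s x : ℝ)) {e : ℕ}
    (he : (e : ℝ) - 1 + ∑ j, (β' j : ℝ) + ∑ x, ∑ j, (β x j : ℝ) < n) :
    ∃ v : Fin e → Fin n → RatFunc ℂ, LinearIndependent ℂ v ∧ ∀ a,
      Dop (dR ℂ) (A - ell univ pt (fun x => (μ x : ℂ)) • 1) (v a) = 0 ∧
        ∀ j, v a j ∈ OS (Om univ pt) := by
  classical
  cases e with
  | zero => exact ⟨Fin.elim0, linearIndependent_empty_type, fun a => a.elim0⟩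
  | succ e =>
  obtain ⟨C, hC⟩ := cw_main hpt hD hA g h hc hc' hN hk hl hl' hβ hβ' (s := fun x => s x)
    (fun x j => by exact_mod_cast hs x j) hs'
  obtain ⟨c, hc₀⟩ := exists_nat_ge ((C : ℚ) + ∑ x, |μ x|)
  obtain ⟨M, hM⟩ := exists_nat_gt ((C : ℚ) - ∑ x, (μ x - c))
  have hI : ∀ p : ℕ, (N : ℤ) ∣ 1 + p * k → ∀ x, IsI (μ x - c + p * s x) := fun p hp x => by
    obtain ⟨z, hz⟩ := isI_add_mul hp (hμ x) (hμs x)
    exact ⟨z - c, by push_cast; linear_combination hz⟩
  obtain ⟨t, P, hP⟩ := exists_clear (Ω := Om univ pt)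
    (B := A - ell univ pt (fun x => ((μ x - c : ℚ) : ℂ)) • 1) fun i j => by
      rw [Matrix.sub_apply, Matrix.smul_apply, smul_eq_mul, one_apply]
      refine Subalgebra.sub_mem _ (hA i j) (Subalgebra.mul_mem _ (ell_mem_OS _) ?_)
      split_ifs
      exacts [Subalgebra.one_mem _, Subalgebra.zero_mem _]
  have hW := pow_ne_zero t (Om_monic (S := univ) (pt := pt)).ne_zero
  have main : e + 1 ≤ Module.finrank ℂ (LinearMap.ker (Dop (dR ℂ)
      (A - ell univ pt (fun x => ((μ x - c : ℚ) : ℂ)) • 1) ∘ₗ vecL 1 n M)) := by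
    by_contra hlt
    rw [ker_VV hW hP] at hlt
    have := hC M e (fun p x => ⌊μ x - c + p * s x⌋) (Eventually.of_forall fun p hp => ?_) ?_
    · push_cast at he
      linarith
    · have e1 : ∀ x, ((⌊μ x - c + p * s x⌋ : ℤ) : ℝ) = μ x - c + p * s x := fun x => by
        exact_mod_cast congrArg (Rat.cast : ℚ → ℝ) (hI p hp x).floor
      simp only [e1]
      refine ⟨fun x => ?_, ?_⟩
      · have h3 := single_le_sum (f := fun x => |μ x|) (fun _ _ => abs_nonneg _) (mem_univ x)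
        have h4 := le_abs_self (μ x)
        have h5 : μ x - c + C ≤ 0 := by linarith
        have h6 : (μ x : ℝ) - c + C ≤ 0 := by exact_mod_cast h5
        linarith
      · have h3 : (C : ℝ) - ∑ x, ((μ x : ℝ) - c) < M := by exact_mod_cast hM
        have h4 := mul_nonneg (Nat.cast_nonneg (α := ℝ) p) hσ
        rw [sum_add_distrib, ← mul_sum]
        rw [mul_add] at h4
        linarith
    · filter_upwards [ev_rank (VV (Om univ pt ^ t) P M) (Nat.le_of_lt_succ (not_le.mp hlt)),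
        eventually_all.mpr fun i => eventually_all.mpr fun j => ev_poly (P i j),
        eventually_all.mpr fun x => ev_mem (pt x), eventually_all.mpr fun x => ev_mem (s x : ℂ)]
        with T h1 h2 h3 h4 p hp K _ _ φ A' hA'
      choose P' hP' using fun i j => RedP.exists_of φ (h2 i j)
      have h5 : Red φ (ell univ pt fun x => ((μ x - c : ℚ) : ℂ))
          (ell univ (fun x => hat φ (pt x)) fun x => ((⌊μ x - c + p * s x⌋ : ℤ) : K)) :=
        Red.sum _ fun x _ => (Red.poly (RedP.const (redC_rat φ (h4 x) (hI p hp x)))).mul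
          ((Red.tt (x := some (pt x)) (by simpa using h3 x)).inv (tt_ne _))
      have h6 := (redP_Om φ univ h3).pow t
      rw [ker_uu, ker_VV (pow_ne_zero t Om_monic.ne_zero) (P := P') fun i j => ?_]
      · exact h1 K φ _ fun a l => (h6.mul (redP_single φ a l).der).sub
          (RedP.sum _ fun r _ => (hP' l r).mul (redP_single φ a r))
      · refine Red.mul_eq ?_ (hP' i j) h6 (hP i j)
        simp only [Matrix.sub_apply, Matrix.smul_apply, smul_eq_mul]
        exact (hA' i j).sub (h5.mul (RedM.one φ i j))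
  obtain ⟨w, hw⟩ := exists_linearIndependent_of_le_finrank main
  refine ⟨fun a => vecL (uu univ pt fun _ => -c) n M (w a).1, ?_, fun a => ⟨?_, fun j => ?_⟩⟩
  · exact (hw.map' _ (Submodule.ker_subtype _)).map' _ (vecL_inj (uu_ne _) M)
  · have h1 : Dop (dR ℂ) (A - ell univ pt (fun x => ((μ x - c : ℚ) : ℂ)) • 1)
        (vecL 1 n M (w a).1) = 0 := (w a).2
    beta_reduce
    rw [vecL_eq_smul, Dop_uu, sub_sub, ← add_smul, ← ell_add]
    have h2 : (fun x => (μ x : ℂ) + ((-(c : ℤ) : ℤ) : ℂ)) = fun x => ((μ x - c : ℚ) : ℂ) := by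
      ext x; push_cast; ring
    rw [h2, h1, smul_zero]
  · exact Subalgebra.mul_mem _ (uu_mem_OS _) (am_mem_OS _ _)

end
end Pool.Agent.Lib.MP_815ef6_nt
end
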